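import Pool.Agent.RGD.Defs

/-!
# ArB: monomials of Leavitt families

All proofs are by induction on the lists. `Sl Θ (e :: l) v = Θ.S e * Sl Θ l v` and
`Tl Θ (e :: l) v = Tl Θ l v * Θ.T e` hold by `rfl`.
`Tl_Sl`: `T_l' (T_e S_e) S_l = T_l' P_{r(e)} S_l = T_l' S_l` (`IsPath G (G.r e) l v`).
`Sl_path_or`: for `e :: l`: if `l` is a path from `u` to `v` and `G.r e = u` then `e :: l` is a path; if
`G.r e ≠ u` then `S_e S_l = S_e P_{r(e)} P_u S_l = 0`.
`Tl_mul_Sl`: induction on `l` for all `m`: `Tl Θ (e :: l) u * Sl Θ (f :: m) w =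
Tl Θ l u * (T_e * S_f) * Sl Θ m w`, `T_e S_f = 0` for `e ≠ f`, `T_e S_e = P_{r(e)}` and
`Tl Θ l u * P_{r(e)}` is `Tl Θ l u` or `0` (use `Tl_path_or`, `Tl_P`).
`Sl_Tl`: `S_e (S_l T_l) T_e = S_e P_{r(e)} T_e = S_e T_e = P_{s(e)}`.
`S_zero`: `S_f = P_{s(f)} S_f = S_e (T_e S_f) = 0`.
-/

set_option linter.unusedSectionVars false

namespace Pool.Agent.RGD

open Pool.Agent.GHT Pool.Agent.AUE
open scoped LaurentPolynomial

section ring

variable {G : DGraph} {M : Type} [NonUnitalRing M] (Θ : LFam G M)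

theorem Sl_nil (v : G.V) : Sl Θ [] v = Θ.P v := rfl

theorem Sl_cons (e : G.E) (l : List G.E) (v : G.V) : Sl Θ (e :: l) v = Θ.S e * Sl Θ l v := rfl

theorem Tl_nil (v : G.V) : Tl Θ [] v = Θ.P v := rfl

theorem Tl_cons (e : G.E) (l : List G.E) (v : G.V) : Tl Θ (e :: l) v = Tl Θ l v * Θ.T e := rfl

theorem Sl_P (l : List G.E) (v : G.V) : Sl Θ l v * Θ.P v = Sl Θ l v := by
  induction l with
  | nil => exact Θ.PP v
  | cons e l ih => rw [Sl_cons, mul_assoc, ih]

theorem P_Tl (l : List G.E) (v : G.V) : Θ.P v * Tl Θ l v = Tl Θ l v := by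
  induction l with
  | nil => exact Θ.PP v
  | cons e l ih => rw [Tl_cons, ← mul_assoc, ih]

theorem P_Sl {u v : G.V} {l : List G.E} (h : IsPath G u l v) : Θ.P u * Sl Θ l v = Sl Θ l v := by
  cases l with
  | nil =>
    have h' : u = v := h
    subst h'
    exact Θ.PP u
  | cons e l =>
    have h' : G.s e = u := h.1
    subst h'
    rw [Sl_cons, ← mul_assoc, Θ.PS]

theorem Tl_P {u v : G.V} {l : List G.E} (h : IsPath G u l v) : Tl Θ l v * Θ.P u = Tl Θ l v := by
  cases l with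
  | nil =>
    have h' : u = v := h
    subst h'
    exact Θ.PP u
  | cons e l =>
    have h' : G.s e = u := h.1
    subst h'
    rw [Tl_cons, mul_assoc, Θ.TP]

theorem Tl_Sl {u v : G.V} {l : List G.E} (h : IsPath G u l v) : Tl Θ l v * Sl Θ l v = Θ.P v := by
  induction l generalizing u with
  | nil => exact Θ.PP v
  | cons e l ih =>
    have h1 : Θ.T e * (Θ.S e * Sl Θ l v) = Sl Θ l v := by
      rw [← mul_assoc, Θ.TS, P_Sl Θ h.2]
    rw [Tl_cons, Sl_cons, mul_assoc, h1, ih h.2]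

theorem Sl_append {u v : G.V} {l l' : List G.E} (h : IsPath G u l' v) :
    Sl Θ (l ++ l') v = Sl Θ l u * Sl Θ l' v := by
  induction l with
  | nil => rw [List.nil_append, Sl_nil, P_Sl Θ h]
  | cons e l ih => rw [List.cons_append, Sl_cons, Sl_cons, ih, mul_assoc]

theorem Tl_append {u v : G.V} {l l' : List G.E} (h : IsPath G u l' v) :
    Tl Θ (l ++ l') v = Tl Θ l' v * Tl Θ l u := by
  induction l with
  | nil => rw [List.nil_append, Tl_nil, Tl_P Θ h]
  | cons e l ih => rw [List.cons_append, Tl_cons, Tl_cons, ih, mul_assoc]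

theorem Sl_path_or (l : List G.E) (v : G.V) : (∃ u, IsPath G u l v) ∨ Sl Θ l v = 0 := by
  induction l with
  | nil => exact Or.inl ⟨v, rfl⟩
  | cons e l ih =>
    rcases ih with ⟨u, hu⟩ | h
    · by_cases he : G.r e = u
      · subst he
        exact Or.inl ⟨G.s e, rfl, hu⟩
      · right
        rw [Sl_cons, ← Θ.SP, ← P_Sl Θ hu, mul_assoc, ← mul_assoc (Θ.P (G.r e)), Θ.PPo _ _ he, zero_mul,
          mul_zero]
    · right
      rw [Sl_cons, h, mul_zero]

theorem Tl_path_or (l : List G.E) (v : G.V) : (∃ u, IsPath G u l v) ∨ Tl Θ l v = 0 := by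
  induction l with
  | nil => exact Or.inl ⟨v, rfl⟩
  | cons e l ih =>
    rcases ih with ⟨u, hu⟩ | h
    · by_cases he : G.r e = u
      · subst he
        exact Or.inl ⟨G.s e, rfl, hu⟩
      · right
        rw [Tl_cons, ← Θ.PT, ← Tl_P Θ hu, mul_assoc, ← mul_assoc (Θ.P u),
          Θ.PPo _ _ (fun h => he h.symm), zero_mul, mul_zero]
    · right
      rw [Tl_cons, h, zero_mul]

/-- Product of `T_l` and `S_m`. -/
theorem Tl_mul_Sl (l m : List G.E) (u w : G.V) :
    Tl Θ l u * Sl Θ m w = 0 ∨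
      (∃ m', m = l ++ m' ∧ IsPath G u m' w ∧ Tl Θ l u * Sl Θ m w = Sl Θ m' w) ∨
      ∃ l', l = m ++ l' ∧ IsPath G w l' u ∧ Tl Θ l u * Sl Θ m w = Tl Θ l' u := by
  induction l generalizing m with
  | nil =>
    rw [Tl_nil]
    rcases Sl_path_or Θ m w with ⟨u', hu'⟩ | h
    · by_cases he : u = u'
      · subst he
        exact Or.inr (Or.inl ⟨m, rfl, hu', P_Sl Θ hu'⟩)
      · left
        rw [← P_Sl Θ hu', ← mul_assoc, Θ.PPo _ _ he, zero_mul]
    · left
      rw [h, mul_zero]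
  | cons e l ih =>
    cases m with
    | nil =>
      rw [Sl_nil]
      rcases Tl_path_or Θ (e :: l) u with ⟨u', hu'⟩ | h
      · by_cases he : u' = w
        · subst he
          exact Or.inr (Or.inr ⟨e :: l, rfl, hu', Tl_P Θ hu'⟩)
        · left
          rw [← Tl_P Θ hu', mul_assoc, Θ.PPo _ _ he, mul_zero]
      · left
        rw [h, zero_mul]
    | cons f m =>
      by_cases hef : e = f
      · subst hef
        rcases Tl_path_or Θ l u with ⟨u', hu'⟩ | h
        · by_cases he : u' = G.r e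
          · subst he
            have h1 : Tl Θ (e :: l) u * Sl Θ (e :: m) w = Tl Θ l u * Sl Θ m w := by
              rw [Tl_cons, Sl_cons, mul_assoc, ← mul_assoc (Θ.T e), Θ.TS, ← mul_assoc, Tl_P Θ hu']
            rw [h1]
            rcases ih m with h2 | ⟨m', rfl, h2, h3⟩ | ⟨l', rfl, h2, h3⟩
            · exact Or.inl h2
            · exact Or.inr (Or.inl ⟨m', rfl, h2, h3⟩)
            · exact Or.inr (Or.inr ⟨l', rfl, h2, h3⟩)
          · left
            rw [Tl_cons, Sl_cons, mul_assoc, ← mul_assoc (Θ.T e), Θ.TS, ← mul_assoc, ← Tl_P Θ hu',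
              mul_assoc (Tl Θ l u), Θ.PPo _ _ he, mul_zero, zero_mul]
        · left
          rw [Tl_cons, h, zero_mul, zero_mul]
      · left
        rw [Tl_cons, Sl_cons, mul_assoc, ← mul_assoc (Θ.T e), Θ.TSo e f hef, zero_mul, mul_zero]

/-- `S_l T_l = P_u` if `P_{s(e)} = S_e T_e` on the path `l`. -/
theorem Sl_Tl {u v : G.V} {l : List G.E} (h : IsPath G u l v)
    (hq : ∀ e ∈ l, Θ.P (G.s e) = Θ.S e * Θ.T e) : Sl Θ l v * Tl Θ l v = Θ.P u := by
  induction l generalizing u with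
  | nil =>
    have h' : u = v := h
    subst h'
    exact Θ.PP u
  | cons e l ih =>
    have h' : G.s e = u := h.1
    subst h'
    have h1 := ih h.2 fun f hf => hq f (List.mem_cons_of_mem _ hf)
    rw [Sl_cons, Tl_cons, mul_assoc, ← mul_assoc (Sl Θ l v), h1, ← mul_assoc, Θ.SP,
      ← hq e List.mem_cons_self]

/-- If `P_{s(e)} = S_e T_e` then the other edges with the same source are zero. -/
theorem S_zero {e f : G.E} (h : Θ.P (G.s e) = Θ.S e * Θ.T e) (hf : G.s f = G.s e) (hne : f ≠ e) :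
    Θ.S f = 0 := by
  have h1 := Θ.PS f
  rw [hf, h, mul_assoc, Θ.TSo e f (fun h => hne h.symm), mul_zero] at h1
  exact h1.symm

theorem Sl_map {N : Type} [NonUnitalRing N] {F : Type} [FunLike F M N] [NonUnitalRingHomClass F M N]
    (π : F) (l : List G.E) (v : G.V) : Sl (Θ.map π) l v = π (Sl Θ l v) := by
  induction l with
  | nil => rfl
  | cons e l ih =>
    rw [Sl_cons, Sl_cons, ih, map_mul]
    rfl

theorem Tl_map {N : Type} [NonUnitalRing N] {F : Type} [FunLike F M N] [NonUnitalRingHomClass F M N]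
    (π : F) (l : List G.E) (v : G.V) : Tl (Θ.map π) l v = π (Tl Θ l v) := by
  induction l with
  | nil => rfl
  | cons e l ih =>
    rw [Tl_cons, Tl_cons, ih, map_mul]
    rfl

end ring

end Pool.Agent.RGD
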