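import Pool.Agent.RGD.ArB

/-!
# ArC: the span of the monomials

`Mo_mul`: `Submodule.span_induction` in both arguments (or `Submodule.span_induction₂`); for monomials
`(S_l T_l') (S_m T_m')` use `Tl_mul_Sl` for `T_l' S_m`: it is `0`, or `S_{m'}` with a path `m'` and
`m = l' ++ m'` (then `S_l S_{m'}` is `Sl Θ (l ++ m') _` by `Sl_append`), or `T_{l''}` with a path `l''` and
`l' = m ++ l''` (then `T_{l''} T_{m'}` is `Tl Θ (m' ++ l'') _` by `Tl_append`); the degrees agree.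
`P_mem_Mo`: `P_v = S_[] T_[]`; `S_mem_Mo`: `S_e = S_{[e]} T_[]` (`u = G.r e`).
`corner_span`: `z = c • 1 + z'` with `z'` in the span of the monomials (`Submodule.iSup_induction`,
`Submodule.span_induction`); for a monomial `P_w S_l T_l' P_w` is `0` or `S_l T_l'` with paths `l`, `l'` from
`w` to `u` (`Sl_path_or`, `P_Sl`, `Tl_path_or`, `Tl_P`, `PPo`); `P_w 1 P_w = P_w = S_[] T_[]`.
-/

set_option linter.unusedSectionVars false

namespace Pool.Agent.RGD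

open Pool.Agent.GHT Pool.Agent.AUE
open scoped LaurentPolynomial

section alg

variable {G : DGraph} {M : Type} [Ring M] [Algebra ℂ M] (Θ : LFam G M)

theorem P_mem_Mo (v : G.V) : Θ.P v ∈ Mo Θ 0 :=
  Submodule.subset_span ⟨[], [], v, by simp, by rw [Sl_nil, Tl_nil, Θ.PP]⟩

theorem S_mem_Mo (e : G.E) : Θ.S e ∈ Mo Θ 1 :=
  Submodule.subset_span ⟨[e], [], G.r e, by simp, by
    rw [Sl_cons, Sl_nil, Tl_nil, Θ.SP, Θ.SP]⟩

theorem T_mem_Mo (e : G.E) : Θ.T e ∈ Mo Θ (-1) :=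
  Submodule.subset_span ⟨[], [e], G.r e, by simp, by
    rw [Sl_nil, Tl_cons, Tl_nil, Θ.PT, Θ.PT]⟩

theorem ArC_mon {j k : ℤ} (l l' m m' : List G.E) (u w : G.V) (hj : (l.length : ℤ) - l'.length = j)
    (hk : (m.length : ℤ) - m'.length = k) :
    Sl Θ l u * Tl Θ l' u * (Sl Θ m w * Tl Θ m' w) ∈ Mo Θ (j + k) := by
  have e0 : Sl Θ l u * Tl Θ l' u * (Sl Θ m w * Tl Θ m' w) =
      Sl Θ l u * (Tl Θ l' u * Sl Θ m w) * Tl Θ m' w := by
    simp only [mul_assoc]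
  rw [e0]
  rcases Tl_mul_Sl Θ l' m u w with h | ⟨m2, hm, hp, h⟩ | ⟨l2, hl, hp, h⟩
  · rw [h, mul_zero, zero_mul]
    exact Submodule.zero_mem _
  · rw [h, ← Sl_append Θ hp]
    refine Submodule.subset_span ⟨l ++ m2, m', w, ?_, rfl⟩
    rw [hm] at hk
    simp only [List.length_append, Nat.cast_add] at hk ⊢
    omega
  · rw [h, mul_assoc, ← Tl_append Θ hp]
    refine Submodule.subset_span ⟨l, m' ++ l2, u, ?_, rfl⟩
    rw [hl] at hj
    simp only [List.length_append, Nat.cast_add] at hj ⊢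
    omega

theorem Mo_mul {j k : ℤ} {x y : M} (hx : x ∈ Mo Θ j) (hy : y ∈ Mo Θ k) : x * y ∈ Mo Θ (j + k) := by
  have h1 : Mo Θ j ≤ Submodule.comap (LinearMap.mulRight ℂ y) (Mo Θ (j + k)) := by
    refine Submodule.span_le.2 ?_
    rintro _ ⟨l, l', u, hj, rfl⟩
    have h2 : Mo Θ k ≤ Submodule.comap (LinearMap.mulLeft ℂ (Sl Θ l u * Tl Θ l' u))
        (Mo Θ (j + k)) := by
      refine Submodule.span_le.2 ?_
      rintro _ ⟨m, m', w, hk, rfl⟩
      exact ArC_mon Θ l l' m m' u w hj hk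
    exact h2 hy
  exact h1 hx

theorem ArC_left (w : G.V) (l : List G.E) (u : G.V) :
    Θ.P w * Sl Θ l u = 0 ∨ (IsPath G w l u ∧ Θ.P w * Sl Θ l u = Sl Θ l u) := by
  rcases Sl_path_or Θ l u with ⟨v, hv⟩ | h
  · by_cases hvw : w = v
    · subst hvw
      exact Or.inr ⟨hv, P_Sl Θ hv⟩
    · left
      rw [← P_Sl Θ hv, ← mul_assoc, Θ.PPo w v hvw, zero_mul]
  · left
    rw [h, mul_zero]

theorem ArC_right (w : G.V) (l : List G.E) (u : G.V) :
    Tl Θ l u * Θ.P w = 0 ∨ (IsPath G w l u ∧ Tl Θ l u * Θ.P w = Tl Θ l u) := by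
  rcases Tl_path_or Θ l u with ⟨v, hv⟩ | h
  · by_cases hvw : v = w
    · subst hvw
      exact Or.inr ⟨hv, Tl_P Θ hv⟩
    · left
      rw [← Tl_P Θ hv, mul_assoc, Θ.PPo v w hvw, mul_zero]
  · left
    rw [h, zero_mul]

theorem corner_span {Θ : LFam G M} (hsp : Spn Θ) (w : G.V) (z : M) :
    Θ.P w * z * Θ.P w ∈ Submodule.span ℂ {y | ∃ (l l' : List G.E) (u : G.V),
      IsPath G w l u ∧ IsPath G w l' u ∧ y = Sl Θ l u * Tl Θ l' u} := by
  obtain ⟨c, hc⟩ := hsp z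
  have h1 : (⨆ k, Mo Θ k) ≤ Submodule.comap
      ((LinearMap.mulRight ℂ (Θ.P w)).comp (LinearMap.mulLeft ℂ (Θ.P w)))
      (Submodule.span ℂ {y | ∃ (l l' : List G.E) (u : G.V),
        IsPath G w l u ∧ IsPath G w l' u ∧ y = Sl Θ l u * Tl Θ l' u}) := by
    refine iSup_le fun k => Submodule.span_le.2 ?_
    rintro _ ⟨l, l', u, -, rfl⟩
    show Θ.P w * (Sl Θ l u * Tl Θ l' u) * Θ.P w ∈ Submodule.span ℂ _
    have e0 : Θ.P w * (Sl Θ l u * Tl Θ l' u) * Θ.P w =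
        (Θ.P w * Sl Θ l u) * (Tl Θ l' u * Θ.P w) := by simp only [mul_assoc]
    rw [e0]
    rcases ArC_left Θ w l u with h | ⟨hp, h⟩
    · rw [h, zero_mul]
      exact Submodule.zero_mem _
    · rcases ArC_right Θ w l' u with h' | ⟨hp', h'⟩
      · rw [h', mul_zero]
        exact Submodule.zero_mem _
      · rw [h, h']
        exact Submodule.subset_span ⟨l, l', u, hp, hp', rfl⟩
  have h2 : Θ.P w * (z - c • (1 : M)) * Θ.P w ∈ Submodule.span ℂ {y | ∃ (l l' : List G.E)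
      (u : G.V), IsPath G w l u ∧ IsPath G w l' u ∧ y = Sl Θ l u * Tl Θ l' u} := h1 hc
  have h3 : Θ.P w ∈ Submodule.span ℂ {y | ∃ (l l' : List G.E)
      (u : G.V), IsPath G w l u ∧ IsPath G w l' u ∧ y = Sl Θ l u * Tl Θ l' u} :=
    Submodule.subset_span ⟨[], [], w, rfl, rfl, by rw [Sl_nil, Tl_nil, Θ.PP]⟩
  have e1 : Θ.P w * z * Θ.P w = Θ.P w * (z - c • (1 : M)) * Θ.P w + c • Θ.P w := by
    rw [mul_sub, sub_mul, mul_smul_comm, mul_one, smul_mul_assoc, Θ.PP, sub_add_cancel]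
  rw [e1]
  exact Submodule.add_mem _ h2 (Submodule.smul_mem _ _ h3)

end alg

end Pool.Agent.RGD
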