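import Pool.Agent.RGD.Defs

/-!
# ArI: two-sided ideals generated by one element

`y ∈ InI x` iff `y = ∑ m_i x n_i`. `add`: `Fin.append` (or first show that `InI x y` iff `y` is in the
`AddSubgroup.closure`/`Submodule.span` of the `m * x * n`). `trans`: `z = ∑ m_i y n_i`, each
`m_i y n_i` is in `InI x` by `mul_left`, `mul_right`; then `sum`.
-/

set_option linter.unusedSectionVars false

namespace Pool.Agent.RGD

open Pool.Agent.GHT Pool.Agent.AUE
open scoped LaurentPolynomial

section alg

variable {M : Type} [Ring M] [Algebra ℂ M]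

theorem InI.refl (x : M) : InI x x :=
  ⟨1, fun _ => 1, fun _ => 1, by simp⟩

theorem InI.zero (x : M) : InI x (0 : M) :=
  ⟨0, fun _ => 0, fun _ => 0, by simp⟩

theorem InI.add {x y z : M} (hy : InI x y) (hz : InI x z) : InI x (y + z) := by
  obtain ⟨s, m, n, h⟩ := hy
  obtain ⟨s', m', n', h'⟩ := hz
  refine ⟨s + s', Fin.append m m', Fin.append n n', ?_⟩
  rw [Fin.sum_univ_add]
  simp only [Fin.append_left, Fin.append_right]
  rw [← h, ← h']

theorem InI.mul_left {x y : M} (hy : InI x y) (z : M) : InI x (z * y) := by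
  obtain ⟨s, m, n, h⟩ := hy
  refine ⟨s, fun i => z * m i, n, ?_⟩
  rw [h, Finset.mul_sum]
  refine Finset.sum_congr rfl fun i _ => ?_
  simp only [mul_assoc]

theorem InI.mul_right {x y : M} (hy : InI x y) (z : M) : InI x (y * z) := by
  obtain ⟨s, m, n, h⟩ := hy
  refine ⟨s, m, fun i => n i * z, ?_⟩
  rw [h, Finset.sum_mul]
  refine Finset.sum_congr rfl fun i _ => ?_
  simp only [mul_assoc]

theorem InI.sub {x y z : M} (hy : InI x y) (hz : InI x z) : InI x (y - z) := by
  have h := hy.add (hz.mul_left (-1))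
  rwa [neg_one_mul, ← sub_eq_add_neg] at h

theorem InI.smul {x y : M} (hy : InI x y) (c : ℂ) : InI x (c • y) := by
  have h := hy.mul_left (c • (1 : M))
  rwa [smul_mul_assoc, one_mul] at h

theorem InI.sum {x : M} {ι : Type} (s : Finset ι) {y : ι → M} (hy : ∀ i ∈ s, InI x (y i)) :
    InI x (∑ i ∈ s, y i) := by
  classical
  induction s using Finset.induction_on with
  | empty => rw [Finset.sum_empty]; exact InI.zero x
  | insert a s ha ih =>
    rw [Finset.sum_insert ha]
    exact (hy a (Finset.mem_insert_self a s)).add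
      (ih fun i hi => hy i (Finset.mem_insert_of_mem hi))

theorem InI.trans {x y z : M} (hy : InI x y) (hz : InI y z) : InI x z := by
  obtain ⟨s, m, n, h⟩ := hz
  rw [h]
  exact InI.sum Finset.univ fun i _ => (hy.mul_left (m i)).mul_right (n i)

end alg

end Pool.Agent.RGD
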