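import Pool.Agent.RGD.NoE

/-!
# Cyc: the corner at a cycle with `P_{s(e)} = S_e T_e`
-/

set_option linter.unusedSectionVars false

namespace Pool.Agent.RGD

open Pool.Agent.GHT Pool.Agent.AUE
open scoped LaurentPolynomial

theorem Cyc_pl_add {E : Type} (e : ℕ → E) (m : ℕ) : ∀ (i n : ℕ),
    NoE_pl e i (m + n) = NoE_pl e i m ++ NoE_pl e (i + m) n := by
  induction m with
  | zero => intro i n; simp [NoE_pl]
  | succ m ih =>
    intro i n
    rw [show m + 1 + n = (m + n) + 1 by ring]
    show e i :: NoE_pl e (i + 1) (m + n) = (e i :: NoE_pl e (i + 1) m) ++ NoE_pl e (i + (m + 1)) n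
    rw [ih (i + 1) n, show i + 1 + m = i + (m + 1) by ring]
    rfl

theorem Cyc_pl_getElem {E : Type} (e : ℕ → E) (n : ℕ) : ∀ (i k : ℕ) (h : k < (NoE_pl e i n).length),
    (NoE_pl e i n)[k] = e (i + k) := by
  induction n with
  | zero => intro i k h; simp [NoE_pl] at h
  | succ n ih =>
    intro i k h
    cases k with
    | zero => rfl
    | succ k =>
      show (NoE_pl e (i + 1) n)[k]'_ = _
      rw [ih (i + 1) k]
      congr 1; ring

theorem Cyc_path_src {G : DGraph} (d : List G.E) : ∀ (u v : G.V), IsPath G u d v →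
    ∀ (k : ℕ) (h : k + 1 < d.length), G.r (d[k]) = G.s (d[k + 1]) := by
  induction d with
  | nil => intro u v _ k h; simp at h
  | cons e d ih =>
    intro u v hp k h
    obtain ⟨h1, h2⟩ := hp
    cases k with
    | zero =>
      cases d with
      | nil => simp at h
      | cons f d => exact h2.1.symm
    | succ k =>
      have := ih _ _ h2 k (by simpa using h)
      simpa using this

theorem Cyc_path_last {G : DGraph} (d : List G.E) : ∀ (u v : G.V), IsPath G u d v →
    ∀ (k : ℕ) (h : k + 1 = d.length), G.r (d[k]'(by omega)) = v := by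
  induction d with
  | nil => intro u v _ k h; simp at h
  | cons e d ih =>
    intro u v hp k h
    obtain ⟨h1, h2⟩ := hp
    cases k with
    | zero =>
      cases d with
      | nil => exact h2
      | cons f d => simp at h
    | succ k =>
      have := ih _ _ h2 k (by simpa using h)
      simpa using this

theorem cyc {G : DGraph} {M : Type} [Ring M] [Algebra ℂ M] {Θ : LFam G M} (hsp : Spn Θ) {w : G.V}
    {d : List G.E} (hd : IsReturn G w d) (hq : ∀ e ∈ d, Θ.P (G.s e) = Θ.S e * Θ.T e) (z : M) :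
    Θ.P w * z * Θ.P w ∈ Submodule.span ℂ ({Θ.P w} ∪
      {y | ∃ k : ℕ, y = Sl Θ d w ^ (k + 1) ∨ y = Tl Θ d w ^ (k + 1)}) := by
  obtain ⟨hne, hdp, hret⟩ := hd
  set L := d.length with hL
  have hL0 : 0 < L := List.length_pos_iff.2 hne
  have hmod : ∀ i, i % L < d.length := fun i => Nat.mod_lt _ hL0
  let e : ℕ → G.E := fun i => d[i % L]'(hmod i)
  let ω : ℕ → G.V := fun i => G.s (e i)
  have hs : ∀ i, G.s (e i) = ω i := fun i => rfl
  have hper : ∀ i, e (i + L) = e i := by
    intro i
    show d[(i + L) % L]'_ = d[i % L]'_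
    congr 1
    exact Nat.add_mod_right i L
  have he0 : e 0 = d[0]'hL0 := by
    show d[0 % L]'_ = _
    congr 1
  have hω0 : ω 0 = w := by
    show G.s (e 0) = w
    rw [he0]
    cases d with
    | nil => exact absurd rfl hne
    | cons f d => exact hdp.1
  have hr : ∀ i, G.r (e i) = ω (i + 1) := by
    intro i
    show G.r (d[i % L]'_) = G.s (d[(i + 1) % L]'_)
    have hlt := Nat.mod_lt i hL0
    by_cases hi : i % L + 1 < L
    · have h1 : (i + 1) % L = i % L + 1 := by
        rw [Nat.add_mod]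
        rcases Nat.lt_or_ge 1 L with h1 | h1
        · rw [Nat.mod_eq_of_lt h1, Nat.mod_eq_of_lt hi]
        · omega
      have h2 := Cyc_path_src d _ _ hdp (i % L) (by omega)
      rw [h2]
      congr 1
      congr 1
      exact h1.symm
    · have h1 : i % L + 1 = L := by omega
      have h2 : (i + 1) % L = 0 := by
        have := Nat.div_add_mod i L
        have h3 : i + 1 = L * (i / L + 1) := by
          rw [Nat.mul_add, Nat.mul_one]; omega
        rw [h3]; exact Nat.mul_mod_right _ _
      have h3 := Cyc_path_last d _ _ hdp (i % L) (by omega)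
      rw [h3, ← hω0]
      show G.s (d[0 % L]'_) = _
      congr 1
      congr 1
      rw [h2, Nat.zero_mod]
  have hpl : NoE_pl e 0 L = d := by
    apply List.ext_getElem
    · rw [NoE_pl_length]
    · intro k h1 h2
      rw [Cyc_pl_getElem]
      show d[(0 + k) % L]'_ = _
      congr 1
      rw [Nat.zero_add]
      exact Nat.mod_eq_of_lt h2
  have hshift : ∀ n i, NoE_pl e (i + L) n = NoE_pl e i n := by
    intro n
    induction n with
    | zero => intro i; rfl
    | succ n ih =>
      intro i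
      show e (i + L) :: NoE_pl e (i + L + 1) n = e i :: NoE_pl e (i + 1) n
      rw [hper, show i + L + 1 = (i + 1) + L by ring, ih]
  have hshift' : ∀ a, NoE_pl e (a * L) L = d := by
    intro a
    induction a with
    | zero => rw [Nat.zero_mul]; exact hpl
    | succ a ih => rw [Nat.succ_mul, hshift]; exact ih
  have hwmod : ∀ i, ω i = w → i % L = 0 := by
    intro i hi
    by_contra h0
    have hlt := Nat.mod_lt i hL0
    have h1 := hret (d.take (i % L)) (d.drop (i % L)) (List.take_append_drop _ _).symm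
      (by
        intro h
        have := congrArg List.length h
        rw [List.length_take, List.length_nil] at this
        omega)
      (by
        intro h
        have := congrArg List.length h
        rw [List.length_drop, List.length_nil] at this
        omega)
    apply h1
    have h2 : d = d.take (i % L) ++ d.drop (i % L) := (List.take_append_drop _ _).symm
    have h3 := hdp
    rw [h2, CondK_app] at h3
    obtain ⟨v, h4, h5⟩ := h3
    have h6 : v = w := by
      have h7 : (d.drop (i % L)) = d[i % L]'(hmod i) :: d.drop (i % L + 1) :=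
        List.drop_eq_getElem_cons (hmod i)
      rw [h7] at h5
      have h8 : G.s (d[i % L]'(hmod i)) = v := h5.1
      rw [← h8]
      exact hi
    rw [h6] at h4
    exact h4
  have hωper : ∀ a, ω (a * L) = w := by
    intro a
    induction a with
    | zero => rw [Nat.zero_mul]; exact hω0
    | succ a ih =>
      rw [Nat.succ_mul]
      show G.s (e (a * L + L)) = w
      rw [hper]; exact ih
  have hqe : ∀ i, Θ.P (ω i) = Θ.S (e i) * Θ.T (e i) := fun i => hq _ (List.getElem_mem _)
  have hqs : ∀ i n, ∀ f ∈ NoE_pl e i n, Θ.P (G.s f) = Θ.S f * Θ.T f := by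
    intro i n f hf
    obtain ⟨j, rfl⟩ := NoE_pl_mem _ _ _ _ hf
    exact hqe j
  have hpath := NoE_pl_path (G := G) hs hr
  have hpathL : ∀ a, IsPath G w (NoE_pl e 0 (a * L)) w := by
    intro a
    have := hpath (a * L) 0
    rwa [hω0, Nat.zero_add, hωper] at this
  have hX : ∀ a, Sl Θ (NoE_pl e 0 ((a + 1) * L)) w = Sl Θ (NoE_pl e 0 (a * L)) w * Sl Θ d w := by
    intro a
    rw [Nat.succ_mul, Cyc_pl_add, Nat.zero_add, hshift', Sl_append Θ hdp]
  have hY : ∀ a, Tl Θ (NoE_pl e 0 ((a + 1) * L)) w = Tl Θ d w * Tl Θ (NoE_pl e 0 (a * L)) w := by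
    intro a
    rw [Nat.succ_mul, Cyc_pl_add, Nat.zero_add, hshift', Tl_append Θ hdp]
  have hDD : Sl Θ d w * Tl Θ d w = Θ.P w := Sl_Tl Θ hdp hq
  have hX1 : ∀ a, Sl Θ (NoE_pl e 0 ((a + 1) * L)) w = Sl Θ d w ^ (a + 1) := by
    intro a
    induction a with
    | zero =>
      rw [hX, Nat.zero_mul, Nat.zero_add, pow_one]
      show Θ.P w * _ = _
      exact P_Sl Θ hdp
    | succ a ih => rw [hX, ih, ← pow_succ]
  have hY1 : ∀ a, Tl Θ (NoE_pl e 0 ((a + 1) * L)) w = Tl Θ d w ^ (a + 1) := by
    intro a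
    induction a with
    | zero =>
      rw [hY, Nat.zero_mul, Nat.zero_add, pow_one]
      show _ * Θ.P w = _
      exact Tl_P Θ hdp
    | succ a ih => rw [hY, ih, ← pow_succ']
  set Sp := Submodule.span ℂ ({Θ.P w} ∪
      {y | ∃ k : ℕ, y = Sl Θ d w ^ (k + 1) ∨ y = Tl Θ d w ^ (k + 1)}) with hSp
  have hprod : ∀ a b, Sl Θ (NoE_pl e 0 (a * L)) w * Tl Θ (NoE_pl e 0 (b * L)) w ∈ Sp := by
    intro a
    induction a with
    | zero =>
      intro b
      rw [Nat.zero_mul]
      show Θ.P w * _ ∈ _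
      cases b with
      | zero =>
        rw [Nat.zero_mul]
        show Θ.P w * Θ.P w ∈ _
        rw [Θ.PP]
        exact Submodule.subset_span (Or.inl rfl)
      | succ b =>
        rw [P_Tl, hY1]
        exact Submodule.subset_span (Or.inr ⟨b, Or.inr rfl⟩)
    | succ a ih =>
      intro b
      cases b with
      | zero =>
        rw [Nat.zero_mul]
        show _ * Θ.P w ∈ _
        rw [Sl_P, hX1]
        exact Submodule.subset_span (Or.inr ⟨a, Or.inl rfl⟩)
      | succ b =>
        rw [hX, hY]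
        have : Sl Θ (NoE_pl e 0 (a * L)) w * Sl Θ d w * (Tl Θ d w * Tl Θ (NoE_pl e 0 (b * L)) w) =
            Sl Θ (NoE_pl e 0 (a * L)) w * Tl Θ (NoE_pl e 0 (b * L)) w := by
          calc _ = Sl Θ (NoE_pl e 0 (a * L)) w * (Sl Θ d w * Tl Θ d w) *
                Tl Θ (NoE_pl e 0 (b * L)) w := by noncomm_ring
            _ = _ := by rw [hDD, Sl_P]
        rw [this]
        exact ih b
  have h1 := corner_span hsp w z
  refine (Submodule.span_le.2 ?_ : _ ≤ Sp) h1
  rintro y ⟨l, l', u, hl, hl', rfl⟩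
  show _ ∈ Sp
  by_cases hz : Sl Θ l u * Tl Θ l' u = 0
  · rw [hz]; exact Submodule.zero_mem _
  have hl0 : IsPath G (ω 0) l u := by rw [hω0]; exact hl
  have hl0' : IsPath G (ω 0) l' u := by rw [hω0]; exact hl'
  have hS : Sl Θ l u ≠ 0 := fun h => hz (by rw [h, zero_mul])
  have hT : Tl Θ l' u ≠ 0 := fun h => hz (by rw [h, mul_zero])
  obtain ⟨e1, e2⟩ := NoE_det hs hr hqe l 0 u hl0 (Or.inl hS)
  obtain ⟨e3, e4⟩ := NoE_det hs hr hqe l' 0 u hl0' (Or.inr hT)
  set n := l.length with hn
  set n' := l'.length with hn'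
  have hj : n' ≤ n' * L := Nat.le_mul_of_pos_right _ hL0
  obtain ⟨j, hj⟩ := Nat.exists_eq_add_of_le hj
  have hc : IsPath G u (NoE_pl e n' j) w := by
    have := hpath j n'
    rw [← hj, hωper] at this
    rw [Nat.zero_add] at e4
    rwa [← e4] at this
  have hSc : Sl Θ (NoE_pl e n' j) w * Tl Θ (NoE_pl e n' j) w = Θ.P u := Sl_Tl Θ hc (hqs _ _)
  have hT2 : Tl Θ (NoE_pl e n' j) w * Tl Θ l' u = Tl Θ (NoE_pl e 0 (n' * L)) w := by
    rw [hj, Cyc_pl_add, Nat.zero_add, Tl_append Θ hc, ← e3]
  have hS2 : Sl Θ l u * Sl Θ (NoE_pl e n' j) w = Sl Θ (l ++ NoE_pl e n' j) w :=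
    (Sl_append Θ hc).symm
  have hmain : Sl Θ l u * Tl Θ l' u =
      Sl Θ (l ++ NoE_pl e n' j) w * Tl Θ (NoE_pl e 0 (n' * L)) w := by
    rw [← hT2, ← hS2]
    calc Sl Θ l u * Tl Θ l' u = Sl Θ l u * Θ.P u * Tl Θ l' u := by rw [Sl_P]
      _ = _ := by rw [← hSc]; noncomm_ring
  have hS3 : Sl Θ (l ++ NoE_pl e n' j) w ≠ 0 := by
    intro h; apply hz; rw [hmain, h, zero_mul]
  have hp3 : IsPath G (ω 0) (l ++ NoE_pl e n' j) w := by
    rw [CondK_app]; exact ⟨u, hl0, hc⟩
  obtain ⟨e5, e6⟩ := NoE_det hs hr hqe _ 0 w hp3 (Or.inl hS3)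
  rw [Nat.zero_add] at e6
  have h7 := hwmod _ e6.symm
  obtain ⟨a, ha⟩ := Nat.dvd_of_mod_eq_zero h7
  rw [hmain, e5, ha, mul_comm L a]
  exact hprod a n'

end Pool.Agent.RGD
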