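import Pool.Agent.RGD.Bnd

/-!
# Mini: vertices with a minimal number of orthogonal subidempotents

For a vertex `w` with `P_w ≠ 0`, `InI ε P_w` let `t(w)` be the largest `t` such that there are nonzero
orthogonal idempotents `g_1, …, g_t` with `P_w g_i = g_i = g_i P_w` (bounded by `bnd`). Let `N` be the
minimum of the `t(w)`, and `W` the set of these vertices with `t(w) = N`. Let `w ∈ W` and `e` an edge with
source `w` and `P_{r(e)} ≠ 0` (if there is none: first alternative). `P_{r(e)} = T_e P_w S_e`, so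
`InI ε P_{r(e)}` and `t(r(e)) ≥ N`. If `h_1, …, h_t` are orthogonal nonzero idempotents below `P_{r(e)}`
then the `S_e h_i T_e` are orthogonal nonzero idempotents below `P_w` (`T_e (S_e h_i T_e) S_e = h_i`). If
`P_w ≠ S_e T_e` then `P_w - S_e T_e` is one more, orthogonal to them: `t(w) ≥ t(r(e)) + 1 > N`,
contradiction. So `P_w = S_e T_e`, and `t(r(e)) ≤ t(w) = N`, `r(e) ∈ W`.
-/

set_option linter.unusedSectionVars false

namespace Pool.Agent.RGD

open Pool.Agent.GHT Pool.Agent.AUE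
open scoped LaurentPolynomial

/-- There are `t` nonzero orthogonal idempotents below `p`. -/
def Mini_Sys {M : Type} [Ring M] (p : M) (t : ℕ) : Prop :=
  ∃ g : Fin t → M, (∀ i, g i ≠ 0) ∧ (∀ i, g i * g i = g i) ∧ (∀ i j, i ≠ j → g i * g j = 0) ∧
    (∀ i, p * g i = g i) ∧ ∀ i, g i * p = g i

theorem Mini_zero {M : Type} [Ring M] (p : M) : Mini_Sys p 0 :=
  ⟨fun i => i.elim0, fun i => i.elim0, fun i => i.elim0, fun i => i.elim0, fun i => i.elim0,
    fun i => i.elim0⟩

theorem Mini_step {M : Type} [Ring M] {p r S T : M} (hpS : p * S = S) (hTp : T * p = T)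
    (hTS : T * S = r) {t : ℕ} (h : Mini_Sys r t) : Mini_Sys p t := by
  obtain ⟨g, h0, h1, h2, h3, h4⟩ := h
  refine ⟨fun i => S * g i * T, ?_, ?_, ?_, ?_, ?_⟩
  · intro i hi
    apply h0 i
    calc g i = r * g i * r := by rw [h3, h4]
      _ = T * (S * g i * T) * S := by rw [← hTS]; noncomm_ring
      _ = 0 := by
        have hi' : S * g i * T = 0 := hi
        rw [hi', mul_zero, zero_mul]
  · intro i
    calc S * g i * T * (S * g i * T) = S * (g i * (T * S) * g i) * T := by noncomm_ring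
      _ = S * g i * T := by rw [hTS, h4, h1]
  · intro i j hij
    calc S * g i * T * (S * g j * T) = S * (g i * (T * S) * g j) * T := by noncomm_ring
      _ = 0 := by rw [hTS, h4, h2 i j hij, mul_zero, zero_mul]
  · intro i
    calc p * (S * g i * T) = (p * S) * g i * T := by noncomm_ring
      _ = S * g i * T := by rw [hpS]
  · intro i
    calc S * g i * T * p = S * g i * (T * p) := by noncomm_ring
      _ = S * g i * T := by rw [hTp]

theorem Mini_succ {M : Type} [Ring M] {p r S T : M} (hpp : p * p = p) (hpS : p * S = S)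
    (hTp : T * p = T) (hTS : T * S = r) (hSr : S * r = S) (hne : p ≠ S * T) {t : ℕ}
    (h : Mini_Sys r t) : Mini_Sys p (t + 1) := by
  obtain ⟨g, h0, h1, h2, h3, h4⟩ := h
  have hg0 : ∀ i, S * g i * T ≠ 0 := by
    intro i hi
    apply h0 i
    calc g i = r * g i * r := by rw [h3, h4]
      _ = T * (S * g i * T) * S := by rw [← hTS]; noncomm_ring
      _ = 0 := by rw [hi, mul_zero, zero_mul]
  have hgg : ∀ i j, S * g i * T * (S * g j * T) = S * (g i * g j) * T := by
    intro i j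
    calc S * g i * T * (S * g j * T) = S * (g i * (T * S) * g j) * T := by noncomm_ring
      _ = _ := by rw [hTS, h4]
  have hpg : ∀ i, p * (S * g i * T) = S * g i * T := by
    intro i
    calc p * (S * g i * T) = (p * S) * g i * T := by noncomm_ring
      _ = S * g i * T := by rw [hpS]
  have hgp : ∀ i, S * g i * T * p = S * g i * T := by
    intro i
    calc S * g i * T * p = S * g i * (T * p) := by noncomm_ring
      _ = S * g i * T := by rw [hTp]
  have hSTg : ∀ i, S * T * (S * g i * T) = S * g i * T := by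
    intro i
    calc S * T * (S * g i * T) = S * ((T * S) * g i) * T := by noncomm_ring
      _ = S * g i * T := by rw [hTS, h3]
  have hgST : ∀ i, S * g i * T * (S * T) = S * g i * T := by
    intro i
    calc S * g i * T * (S * T) = S * (g i * (T * S)) * T := by noncomm_ring
      _ = S * g i * T := by rw [hTS, h4]
  have hpST : p * (S * T) = S * T := by rw [← mul_assoc, hpS]
  have hSTp : S * T * p = S * T := by rw [mul_assoc, hTp]
  have hSTST : S * T * (S * T) = S * T := by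
    calc S * T * (S * T) = S * (T * S) * T := by noncomm_ring
      _ = S * T := by rw [hTS, hSr]
  refine ⟨Fin.cons (p - S * T) (fun i => S * g i * T), ?_, ?_, ?_, ?_, ?_⟩
  · intro i
    refine Fin.cases ?_ (fun i => ?_) i
    · rw [Fin.cons_zero]; exact sub_ne_zero.2 hne
    · rw [Fin.cons_succ]; exact hg0 i
  · intro i
    refine Fin.cases ?_ (fun i => ?_) i
    · rw [Fin.cons_zero, mul_sub, sub_mul, sub_mul, hpp, hpST, hSTp, hSTST, sub_self, sub_zero]
    · rw [Fin.cons_succ, hgg, h1]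
  · intro i j
    refine Fin.cases ?_ (fun i => ?_) i
    · refine Fin.cases ?_ (fun j => ?_) j
      · intro h; exact absurd rfl h
      · intro _
        rw [Fin.cons_zero, Fin.cons_succ, sub_mul, hpg, hSTg, sub_self]
    · refine Fin.cases ?_ (fun j => ?_) j
      · intro _
        rw [Fin.cons_zero, Fin.cons_succ, mul_sub, hgp, hgST, sub_self]
      · intro hij
        rw [Fin.cons_succ, Fin.cons_succ, hgg, h2 i j (fun h => hij (by rw [h])), mul_zero, zero_mul]
  · intro i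
    refine Fin.cases ?_ (fun i => ?_) i
    · rw [Fin.cons_zero, mul_sub, hpp, hpST]
    · rw [Fin.cons_succ]; exact hpg i
  · intro i
    refine Fin.cases ?_ (fun i => ?_) i
    · rw [Fin.cons_zero, sub_mul, hpp, hSTp]
    · rw [Fin.cons_succ]; exact hgp i

/-- `N` is the largest number of nonzero orthogonal idempotents below `p`. -/
def Mini_Max {M : Type} [Ring M] (p : M) (N : ℕ) : Prop :=
  Mini_Sys p N ∧ ∀ t, Mini_Sys p t → t ≤ N

theorem Mini_exists {M : Type} [Ring M] [Algebra ℂ M] {ε : M} {ι : ℂ[T;T⁻¹] →ₙₐ[ℂ] M}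
    (C : Cor ε ι) {p : M} (hp : p * p = p) (hI : InI ε p) : ∃ N, Mini_Max p N := by
  obtain ⟨s, hs⟩ := bnd C hp hI
  have hb : ∀ t, Mini_Sys p t → t ≤ s := by
    rintro t ⟨g, h0, h1, h2, h3, h4⟩
    exact hs t g h0 h1 h2 h3 h4
  have hbdd : BddAbove {t | Mini_Sys p t} := ⟨s, hb⟩
  exact ⟨sSup {t | Mini_Sys p t}, Nat.sSup_mem ⟨0, Mini_zero p⟩ hbdd, fun t ht => le_csSup hbdd ht⟩

theorem mini {G : DGraph} {M : Type} [Ring M] [Algebra ℂ M] (Θ : LFam G M) {ε : M}
    {ι : ℂ[T;T⁻¹] →ₙₐ[ℂ] M} (C : Cor ε ι) (hw : ∃ w, Θ.P w ≠ 0 ∧ InI ε (Θ.P w)) :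
    ∃ W : Set G.V, W.Nonempty ∧ (∀ w ∈ W, Θ.P w ≠ 0 ∧ InI ε (Θ.P w)) ∧
      ∀ w ∈ W, (∀ e, G.s e = w → Θ.P (G.r e) = 0) ∨
        ∃ e, G.s e = w ∧ G.r e ∈ W ∧ Θ.P w = Θ.S e * Θ.T e := by
  classical
  have hex : ∃ N, ∃ w, (Θ.P w ≠ 0 ∧ InI ε (Θ.P w)) ∧ Mini_Max (Θ.P w) N := by
    obtain ⟨w, h1, h2⟩ := hw
    obtain ⟨N, hN⟩ := Mini_exists C (Θ.PP w) h2
    exact ⟨N, w, ⟨h1, h2⟩, hN⟩
  refine ⟨{w | (Θ.P w ≠ 0 ∧ InI ε (Θ.P w)) ∧ Mini_Max (Θ.P w) (Nat.find hex)}, Nat.find_spec hex,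
    fun w h => h.1, ?_⟩
  rintro w ⟨⟨h1, h2⟩, h3, h4⟩
  by_cases h5 : ∃ e, G.s e = w ∧ Θ.P (G.r e) ≠ 0
  · right
    obtain ⟨e, he, he0⟩ := h5
    subst he
    have hI : InI ε (Θ.P (G.r e)) := by
      obtain ⟨s, m, n, hmn⟩ := h2
      refine ⟨s, fun i => Θ.T e * m i, fun i => n i * Θ.S e, ?_⟩
      calc Θ.P (G.r e) = Θ.T e * Θ.P (G.s e) * Θ.S e := by rw [Θ.TP, Θ.TS]
        _ = Θ.T e * (∑ i, m i * ε * n i) * Θ.S e := by rw [← hmn]
        _ = _ := by
          rw [Finset.mul_sum, Finset.sum_mul]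
          refine Finset.sum_congr rfl ?_
          intro i _
          noncomm_ring
    obtain ⟨N', hN'⟩ := Mini_exists C (Θ.PP (G.r e)) hI
    have h6 : Nat.find hex ≤ N' := Nat.find_min' hex ⟨G.r e, ⟨he0, hI⟩, hN'⟩
    have h7 : N' ≤ Nat.find hex := h4 _ (Mini_step (Θ.PS e) (Θ.TP e) (Θ.TS e) hN'.1)
    have h8 : N' = Nat.find hex := le_antisymm h7 h6
    refine ⟨e, rfl, ⟨⟨he0, hI⟩, h8 ▸ hN'⟩, ?_⟩
    by_contra h9
    have h10 := h4 _ (Mini_succ (Θ.PP _) (Θ.PS e) (Θ.TP e) (Θ.TS e) (Θ.SP e) h9 hN'.1)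
    omega
  · left
    intro e he
    by_contra h6
    exact h5 ⟨e, he, h6⟩

end Pool.Agent.RGD
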