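import Pool.Agent.RGD.LaR
import Pool.Agent.RGD.ArI

/-!
# MnF: a minimal idempotent is not in the ideal of `ε`

`ε * ε = ε` (`C.one`, `ι 1 * ι 1 = ι 1`). `q = ∑ m_i ε n_i`; put `m_i' = q m_i ε`, `n_i' = ε n_i q`:
`q = q q q = ∑ m_i' n_i'`, `q = q q = ∑_{i,j} m_i' (n_i' m_j') n_j' ≠ 0`, so `n m ≠ 0` for some `n = n_i'`,
`m = m_j'` (`n = ε n = n q`, `m = q m = m ε`). `m n = q (m n) q = c q`, so `(n m)(n m) = n (m n) m = c (n m)`.
`n m = ε (n m) ε = ι r`, `r ≠ 0`, `r * r = c • r`, `ℂ[T;T⁻¹]` is a domain: `r = c • 1`, `n m = c ε`, `c ≠ 0`.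
`x = ι (T 1) = ε x ε`: `c² x = (n m) x (n m) = n (m x n) m = n (q (m x n) q) m = c' n m = c' c ε`. So
`c² • T 1 = (c' c) • 1`: contradiction to `lp_T_ne`.
-/

set_option linter.unusedSectionVars false

namespace Pool.Agent.RGD

open Pool.Agent.GHT Pool.Agent.AUE
open scoped LaurentPolynomial

theorem mnl_false {M : Type} [Ring M] [Algebra ℂ M] {ε : M} {ι : ℂ[T;T⁻¹] →ₙₐ[ℂ] M} (C : Cor ε ι)
    {q : M} (hq : Mnl q) (hI : InI ε q) : False := by
  obtain ⟨hq0, hqq, hqc⟩ := hq
  have hεε : ε * ε = ε := by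
    rw [← C.one, ← map_mul, mul_one]
  obtain ⟨s, m, n, hmn⟩ := hI
  have h1 : q = ∑ i, (q * m i * ε) * (ε * n i * q) := by
    calc q = q * q * q := by rw [hqq, hqq]
      _ = q * (∑ i, m i * ε * n i) * q := by rw [← hmn]
      _ = ∑ i, (q * m i * ε) * (ε * n i * q) := by
        rw [Finset.mul_sum, Finset.sum_mul]
        refine Finset.sum_congr rfl ?_
        intro i _
        calc q * (m i * ε * n i) * q = q * m i * ε * (n i * q) := by noncomm_ring
          _ = q * m i * (ε * ε) * (n i * q) := by rw [hεε]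
          _ = _ := by noncomm_ring
  have h2 : ∃ i j, (ε * n i * q) * (q * m j * ε) ≠ 0 := by
    by_contra h
    push Not at h
    apply hq0
    calc q = q * q := hqq.symm
      _ = (∑ i, (q * m i * ε) * (ε * n i * q)) * (∑ j, (q * m j * ε) * (ε * n j * q)) := by
        rw [← h1]
      _ = 0 := by
        rw [Finset.sum_mul]
        refine Finset.sum_eq_zero ?_
        intro i _
        rw [Finset.mul_sum]
        refine Finset.sum_eq_zero ?_
        intro j _
        calc q * m i * ε * (ε * n i * q) * (q * m j * ε * (ε * n j * q))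
            = q * m i * ε * ((ε * n i * q) * (q * m j * ε)) * (ε * n j * q) := by noncomm_ring
          _ = 0 := by rw [h i j, mul_zero, zero_mul]
  obtain ⟨i, j, hij⟩ := h2
  set A := q * m j * ε with hA
  set B := ε * n i * q with hB
  have hBq : B * q = B := by rw [hB, mul_assoc, hqq]
  obtain ⟨r, hr⟩ := C.surj (n i * q * q * m j)
  have hBA : ι r = B * A := by
    rw [hr, hA, hB]; noncomm_ring
  obtain ⟨c, hc⟩ := hqc (m j * ε * ε * n i)
  have hAB : A * B = c • q := by
    rw [← hc, hA, hB]; noncomm_ring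
  have hr0 : r ≠ 0 := by
    intro h
    apply hij
    rw [← hBA, h, map_zero]
  have hrr : r * r = c • r := by
    apply C.inj
    rw [map_mul, map_smul, hBA]
    calc B * A * (B * A) = B * (A * B) * A := by noncomm_ring
      _ = c • (B * q * A) := by rw [hAB, mul_smul_comm, smul_mul_assoc]
      _ = _ := by rw [hBq]
  have hrc : r = c • (1 : ℂ[T;T⁻¹]) := by
    have h3 : r * (r - c • (1 : ℂ[T;T⁻¹])) = 0 := by
      rw [mul_sub, hrr, mul_smul_comm, mul_one, sub_self]
    rcases mul_eq_zero.1 h3 with h4 | h4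
    · exact absurd h4 hr0
    · exact sub_eq_zero.1 h4
  have hc0 : c ≠ 0 := by
    intro h
    apply hr0
    rw [hrc, h, zero_smul]
  have hBA2 : B * A = c • ε := by
    rw [← hBA, hrc, map_smul, C.one]
  set x := ι (LaurentPolynomial.T 1) with hx
  have hx1 : ε * x = x := by
    rw [hx, ← C.one, ← map_mul, one_mul]
  have hx2 : x * ε = x := by
    rw [hx, ← C.one, ← map_mul, mul_one]
  obtain ⟨c', hc'⟩ := hqc (m j * ε * x * ε * n i)
  have hAxB : A * x * B = c' • q := by
    rw [← hc', hA, hB]; noncomm_ring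
  have h5 : (c * c) • x = (c' * c) • ε := by
    calc (c * c) • x = (c • ε) * x * (c • ε) := by
          rw [smul_mul_assoc, hx1, smul_mul_smul_comm, hx2]
      _ = (B * A) * x * (B * A) := by rw [hBA2]
      _ = B * (A * x * B) * A := by noncomm_ring
      _ = c' • (B * q * A) := by rw [hAxB, mul_smul_comm, smul_mul_assoc]
      _ = (c' * c) • ε := by rw [hBq, hBA2, smul_smul]
  have h6 : (c * c) • (LaurentPolynomial.T 1 : ℂ[T;T⁻¹]) = (c' * c) • (1 : ℂ[T;T⁻¹]) := by
    apply C.inj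
    rw [map_smul, map_smul, C.one]
    exact h5
  apply lp_T_ne ((c * c)⁻¹ * (c' * c))
  rw [mul_smul, ← h6, smul_smul, inv_mul_cancel₀ (mul_ne_zero hc0 hc0), one_smul]

end Pool.Agent.RGD
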