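import Pool.Agent.RGD.ArC

/-!
# NoE: two cases in which `P_w M P_w = ℂ P_w`
-/

set_option linter.unusedSectionVars false

namespace Pool.Agent.RGD

open Pool.Agent.GHT Pool.Agent.AUE
open scoped LaurentPolynomial

/-- The list `[e i, …, e (i + n - 1)]`. -/
def NoE_pl {E : Type} (e : ℕ → E) : ℕ → ℕ → List E
  | _, 0 => []
  | i, n + 1 => e i :: NoE_pl e (i + 1) n

theorem NoE_pl_length {E : Type} (e : ℕ → E) (n : ℕ) : ∀ i, (NoE_pl e i n).length = n := by
  induction n with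
  | zero => intro i; rfl
  | succ n ih => intro i; simp only [NoE_pl, List.length_cons, ih]

theorem NoE_pl_mem {E : Type} (e : ℕ → E) (n : ℕ) : ∀ i, ∀ x ∈ NoE_pl e i n, ∃ j, x = e j := by
  induction n with
  | zero => intro i x hx; simp [NoE_pl] at hx
  | succ n ih =>
    intro i x hx
    simp only [NoE_pl, List.mem_cons] at hx
    rcases hx with rfl | hx
    · exact ⟨i, rfl⟩
    · exact ih _ _ hx

theorem NoE_pl_path {G : DGraph} {ω : ℕ → G.V} {e : ℕ → G.E} (hs : ∀ i, G.s (e i) = ω i)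
    (hr : ∀ i, G.r (e i) = ω (i + 1)) (n : ℕ) : ∀ i, IsPath G (ω i) (NoE_pl e i n) (ω (i + n)) := by
  induction n with
  | zero => intro i; rfl
  | succ n ih =>
    intro i
    refine ⟨hs i, ?_⟩
    rw [hr i]
    have := ih (i + 1)
    rwa [show i + 1 + n = i + (n + 1) by ring] at this

theorem NoE_Tzero {G : DGraph} {M : Type} [NonUnitalRing M] {Θ : LFam G M} {f : G.E}
    (h : Θ.S f = 0) : Θ.T f = 0 := by
  have h1 := Θ.PT f
  rw [← Θ.TS f, h, mul_zero, zero_mul] at h1
  exact h1.symm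

theorem NoE_det {G : DGraph} {M : Type} [NonUnitalRing M] {Θ : LFam G M}
    {ω : ℕ → G.V} {e : ℕ → G.E} (hs : ∀ i, G.s (e i) = ω i) (hr : ∀ i, G.r (e i) = ω (i + 1))
    (hq : ∀ i, Θ.P (ω i) = Θ.S (e i) * Θ.T (e i)) (l : List G.E) : ∀ (i : ℕ) (u : G.V),
    IsPath G (ω i) l u → (Sl Θ l u ≠ 0 ∨ Tl Θ l u ≠ 0) →
      l = NoE_pl e i l.length ∧ u = ω (i + l.length) := by
  induction l with
  | nil =>
    intro i u h _
    exact ⟨rfl, h.symm⟩
  | cons f l ih =>
    intro i u h hne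
    obtain ⟨h1, h2⟩ := h
    have hf : f = e i := by
      by_contra hfe
      have hS : Θ.S f = 0 := by
        apply S_zero Θ (e := e i) (f := f)
        · rw [hs i]; exact hq i
        · rw [h1, hs i]
        · exact hfe
      have hT : Θ.T f = 0 := NoE_Tzero hS
      rcases hne with hne | hne
      · apply hne; rw [Sl_cons, hS, zero_mul]
      · apply hne; rw [Tl_cons, hT, mul_zero]
    subst hf
    rw [hr i] at h2
    have h3 := ih (i + 1) u h2 (by
      rcases hne with hne | hne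
      · left; intro h0; apply hne; rw [Sl_cons, h0, mul_zero]
      · right; intro h0; apply hne; rw [Tl_cons, h0, zero_mul])
    refine ⟨?_, ?_⟩
    · show e i :: l = e i :: NoE_pl e (i + 1) l.length
      rw [← h3.1]
    · rw [h3.2, List.length_cons]; congr 1; ring

theorem noedge {G : DGraph} {M : Type} [Ring M] [Algebra ℂ M] {Θ : LFam G M} (hsp : Spn Θ) {w : G.V}
    (h0 : Θ.P w ≠ 0) (h : ∀ e, G.s e = w → Θ.P (G.r e) = 0) : Mnl (Θ.P w) := by
  refine ⟨h0, Θ.PP w, fun z => ?_⟩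
  have h1 := corner_span hsp w z
  have h2 : Submodule.span ℂ {y | ∃ (l l' : List G.E) (u : G.V),
      IsPath G w l u ∧ IsPath G w l' u ∧ y = Sl Θ l u * Tl Θ l' u} ≤ Submodule.span ℂ {Θ.P w} := by
    rw [Submodule.span_le]
    rintro y ⟨l, l', u, hl, hl', rfl⟩
    have hS : ∀ e, G.s e = w → Θ.S e = 0 := by
      intro e he
      have := Θ.SP e
      rw [h e he, mul_zero] at this
      exact this.symm
    cases l with
    | nil =>
      cases l' with
      | nil =>
        have hl : w = u := hl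
        subst hl
        rw [Sl_nil, Tl_nil, Θ.PP]
        exact Submodule.mem_span_singleton_self _
      | cons e l' =>
        have hT : Θ.T e = 0 := NoE_Tzero (hS e hl'.1)
        rw [Tl_cons, hT, mul_zero, mul_zero]
        exact Submodule.zero_mem _
    | cons e l =>
      rw [Sl_cons, hS e hl.1, zero_mul, zero_mul]
      exact Submodule.zero_mem _
  obtain ⟨c, hc⟩ := Submodule.mem_span_singleton.1 (h2 h1)
  exact ⟨c, hc.symm⟩

theorem injpath {G : DGraph} {M : Type} [Ring M] [Algebra ℂ M] {Θ : LFam G M} (hsp : Spn Θ)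
    {ω : ℕ → G.V} {e : ℕ → G.E} (hs : ∀ i, G.s (e i) = ω i) (hr : ∀ i, G.r (e i) = ω (i + 1))
    (hq : ∀ i, Θ.P (ω i) = Θ.S (e i) * Θ.T (e i)) (hinj : Function.Injective ω)
    (h0 : Θ.P (ω 0) ≠ 0) : Mnl (Θ.P (ω 0)) := by
  refine ⟨h0, Θ.PP _, fun z => ?_⟩
  have h1 := corner_span hsp (ω 0) z
  have h2 : Submodule.span ℂ {y | ∃ (l l' : List G.E) (u : G.V),
      IsPath G (ω 0) l u ∧ IsPath G (ω 0) l' u ∧ y = Sl Θ l u * Tl Θ l' u} ≤
      Submodule.span ℂ {Θ.P (ω 0)} := by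
    rw [Submodule.span_le]
    rintro y ⟨l, l', u, hl, hl', rfl⟩
    by_cases hz : Sl Θ l u * Tl Θ l' u = 0
    · rw [hz]; exact Submodule.zero_mem _
    have hS : Sl Θ l u ≠ 0 := fun h => hz (by rw [h, zero_mul])
    have hT : Tl Θ l' u ≠ 0 := fun h => hz (by rw [h, mul_zero])
    obtain ⟨e1, e2⟩ := NoE_det hs hr hq l 0 u hl (Or.inl hS)
    obtain ⟨e3, e4⟩ := NoE_det hs hr hq l' 0 u hl' (Or.inr hT)
    have e5 : l.length = l'.length := by
      have := hinj (e2.symm.trans e4)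
      omega
    have e6 : l = l' := by rw [e1, e3, e5]
    subst e6
    have h3 : Sl Θ l u * Tl Θ l u = Θ.P (ω 0) := by
      apply Sl_Tl Θ hl
      intro f hf
      rw [e1] at hf
      obtain ⟨j, rfl⟩ := NoE_pl_mem _ _ _ _ hf
      rw [hs j]; exact hq j
    rw [h3]
    exact Submodule.mem_span_singleton_self _
  obtain ⟨c, hc⟩ := Submodule.mem_span_singleton.1 (h2 h1)
  exact ⟨c, hc.symm⟩

end Pool.Agent.RGD
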