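import Pool.Agent.RGD.LaR
import Pool.Agent.RGD.ArI

/-!
# PidA: an idempotent with commutative corner in the ideal of `ε` is equivalent to `ε`

`ε * ε = ε`. `p = ∑ m_i n_i`, `m_i = p m_i ε`, `n_i = ε n_i p` (as in `MnF`). Let `P` be the set of the
`m = p m ε`, `Q` the set of the `n = ε n p`. For `n ∈ Q`, `m ∈ P`: `n m ∈ ε M ε = ι(R)`, `R = ℂ[T;T⁻¹]`.
(1) The set `I` of the `r` such that `ι r` is a finite sum of products `n m` is an ideal of `R`
(`ι s (n m) = (ι s n) m`), `I * I = I`: a product `n m = n p m = ∑ (n m_i)(n_i m)`. `I ≠ 0` (otherwise all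
`n m = 0` and `p = p p = ∑ m_i (n_i m_j) n_j = 0`). So `I = R` by `lp_idem`: `ε = ∑ n'_k m'_k`.
(2) `R` is a domain: take `n ∈ Q`, `n ≠ 0` (`n = n_i` for some `i`). Then `m ↦ n m` is injective on `P`: let
`n m = 0`, `m ∈ P`. For `n' ∈ Q`, `m' ∈ P`: `(m' n)(m n') = m' (n m) n' = 0`, and `m' n, m n' ∈ p M p`
commute: `(m n')(m' n) = 0`; sum over `(n', m') = (n'_k, m'_k)`: `m ε n = m n = 0`. So for all
`n'', m''`: `(n'' m)(n m'') = 0` in `R`, so either `n'' m = 0` for all `n''`, and then `m = p m =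
∑ m_i (n_i m) = 0`, or `n m'' = 0` for all `m''`, and then `n = n p = ∑ (n m_i) n_i = 0`, contradiction.
(3) `J = {r | ι r = n m for some m ∈ P}` is an ideal of the PID `R` (`lp_pid`; `(n m) ι s = n (m ι s)`):
`J = (c)`, `ι c = n a`, `a ∈ P`. For `m ∈ P`: `n m = ι (c r) = n (a ι r)`, so `m = a ι r`.
(4) `m_i = a ι r_i`, so `p = ∑ m_i n_i = a b` with `b = ∑ ι r_i n_i ∈ Q`. `(b a)(b a) = b p a = b a` is an
idempotent of `ι(R)`, so it is `0` or `ε`; `0` is impossible (`p = p p = a (b a) b`). So `b a = ε`. In the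
statement `a := b`, `b := a`.
-/

set_option linter.unusedSectionVars false

namespace Pool.Agent.RGD

open Pool.Agent.GHT Pool.Agent.AUE
open scoped LaurentPolynomial

section

variable {M : Type} [Ring M] [Algebra ℂ M]

def PidA_P (ε p : M) : Set M := {m | p * m = m ∧ m * ε = m}

def PidA_Q (ε p : M) : Set M := {n | ε * n = n ∧ n * p = n}

theorem PidA_Psub {ε p m m' : M} (h : m ∈ PidA_P ε p) (h' : m' ∈ PidA_P ε p) :
    m - m' ∈ PidA_P ε p := by
  refine ⟨?_, ?_⟩
  · rw [mul_sub, h.1, h'.1]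
  · rw [sub_mul, h.2, h'.2]

theorem PidA_Padd {ε p m m' : M} (h : m ∈ PidA_P ε p) (h' : m' ∈ PidA_P ε p) :
    m + m' ∈ PidA_P ε p := by
  refine ⟨?_, ?_⟩
  · rw [mul_add, h.1, h'.1]
  · rw [add_mul, h.2, h'.2]

/-- the sums of the products `n m` -/
def PidA_A (ε p : M) : AddSubmonoid M :=
  AddSubmonoid.closure {z | ∃ n ∈ PidA_Q ε p, ∃ m ∈ PidA_P ε p, z = n * m}

theorem PidA_ιP {ε p : M} {ι : ℂ[T;T⁻¹] →ₙₐ[ℂ] M} (C : Cor ε ι) {m : M} (h : m ∈ PidA_P ε p)
    (r : ℂ[T;T⁻¹]) : m * ι r ∈ PidA_P ε p := by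
  refine ⟨?_, ?_⟩
  · rw [← mul_assoc, h.1]
  · rw [mul_assoc, ← C.one, ← map_mul, mul_one]

theorem PidA_ιQ {ε p : M} {ι : ℂ[T;T⁻¹] →ₙₐ[ℂ] M} (C : Cor ε ι) {n : M} (h : n ∈ PidA_Q ε p)
    (r : ℂ[T;T⁻¹]) : ι r * n ∈ PidA_Q ε p := by
  refine ⟨?_, ?_⟩
  · rw [← mul_assoc, ← C.one, ← map_mul, one_mul]
  · rw [mul_assoc, h.2]

theorem PidA_ex {ε p : M} {ι : ℂ[T;T⁻¹] →ₙₐ[ℂ] M} (C : Cor ε ι) {n m : M} (hn : n ∈ PidA_Q ε p)
    (hm : m ∈ PidA_P ε p) : ∃ r, ι r = n * m := by
  obtain ⟨r, hr⟩ := C.surj (n * m)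
  refine ⟨r, ?_⟩
  rw [hr, ← mul_assoc, hn.1, mul_assoc, hm.2]

def PidA_I {ε : M} {ι : ℂ[T;T⁻¹] →ₙₐ[ℂ] M} (C : Cor ε ι) (p : M) : Ideal ℂ[T;T⁻¹] where
  carrier := {r | ι r ∈ PidA_A ε p}
  zero_mem' := by
    show ι 0 ∈ PidA_A ε p
    rw [map_zero]
    exact zero_mem _
  add_mem' := by
    intro a b ha hb
    show ι (a + b) ∈ PidA_A ε p
    rw [map_add]
    exact add_mem ha hb
  smul_mem' := by
    intro c x hx
    show ι (c * x) ∈ PidA_A ε p
    rw [map_mul]
    have key : ∀ z ∈ PidA_A ε p, ι c * z ∈ PidA_A ε p := by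
      intro z hz
      unfold PidA_A at hz
      induction hz using AddSubmonoid.closure_induction with
      | mem z h =>
        obtain ⟨n, hn, m, hm, rfl⟩ := h
        refine AddSubmonoid.subset_closure ⟨ι c * n, PidA_ιQ C hn c, m, hm, ?_⟩
        rw [mul_assoc]
      | zero => rw [mul_zero]; exact zero_mem _
      | add z w _ _ h1 h2 => rw [mul_add]; exact add_mem h1 h2
    exact key _ hx

theorem PidA_fac {ε : M} (hε : ε * ε = ε) {p : M} (hp : p * p = p) (hI : InI ε p) :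
    ∃ (s : ℕ) (m n : Fin s → M), (∀ i, m i ∈ PidA_P ε p) ∧ (∀ i, n i ∈ PidA_Q ε p) ∧
      p = ∑ i, m i * n i := by
  obtain ⟨s, m, n, h⟩ := hI
  refine ⟨s, fun i => p * m i * ε, fun i => ε * n i * p, ?_, ?_, ?_⟩
  · intro i
    refine ⟨?_, ?_⟩
    · simp only [← mul_assoc, hp]
    · simp only [mul_assoc, hε]
  · intro i
    refine ⟨?_, ?_⟩
    · simp only [← mul_assoc, hε]
    · simp only [mul_assoc, hp]
  · have h1 : p = p * p * p := by rw [hp, hp]
    calc p = p * p * p := h1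
      _ = p * (∑ i, m i * ε * n i) * p := by rw [← h]
      _ = ∑ i, p * m i * ε * (ε * n i * p) := by
        rw [Finset.mul_sum, Finset.sum_mul]
        apply Finset.sum_congr rfl
        intro i _
        calc p * (m i * ε * n i) * p = p * m i * ε * n i * p := by simp only [mul_assoc]
          _ = p * m i * (ε * ε) * n i * p := by rw [hε]
          _ = p * m i * ε * (ε * n i * p) := by simp only [mul_assoc]

end

theorem pid_ab {M : Type} [Ring M] [Algebra ℂ M] {ε : M} {ι : ℂ[T;T⁻¹] →ₙₐ[ℂ] M} (C : Cor ε ι)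
    {p : M} (hp : p * p = p) (hp0 : p ≠ 0) (hI : InI ε p) (hc : ComC p) :
    ∃ a b : M, ε * a = a ∧ a * p = a ∧ p * b = b ∧ b * ε = b ∧ a * b = ε ∧ b * a = p := by
  have hε : ε * ε = ε := by rw [← C.one, ← map_mul, one_mul]
  obtain ⟨s, m, n, hm, hn, hmn⟩ := PidA_fac hε hp hI
  have hι0 : ∀ r, ι r = 0 → r = 0 := fun r h => C.inj (h.trans (map_zero ι).symm)
  -- expansions
  have exl : ∀ x ∈ PidA_P ε p, x = ∑ i, m i * (n i * x) := by
    intro x hx
    calc x = p * x := hx.1.symm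
      _ = (∑ i, m i * n i) * x := by rw [← hmn]
      _ = _ := by
        rw [Finset.sum_mul]
        exact Finset.sum_congr rfl (fun i _ => mul_assoc _ _ _)
  have exr : ∀ x ∈ PidA_Q ε p, x = ∑ i, (x * m i) * n i := by
    intro x hx
    calc x = x * p := hx.2.symm
      _ = x * (∑ i, m i * n i) := by rw [← hmn]
      _ = _ := by
        rw [Finset.mul_sum]
        exact Finset.sum_congr rfl (fun i _ => (mul_assoc _ _ _).symm)
  have memA : ∀ x ∈ PidA_Q ε p, ∀ y ∈ PidA_P ε p, x * y ∈ PidA_A ε p := fun x hx y hy =>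
    AddSubmonoid.subset_closure ⟨x, hx, y, hy, rfl⟩
  -- step 1
  have h1 : ε ∈ PidA_A ε p := by
    have hmem : ∀ r, r ∈ PidA_I C p ↔ ι r ∈ PidA_A ε p := fun r => Iff.rfl
    have key : ∀ z ∈ PidA_A ε p, ∃ r ∈ PidA_I C p * PidA_I C p, ι r = z := by
      intro z hz
      unfold PidA_A at hz
      induction hz using AddSubmonoid.closure_induction with
      | mem z h =>
        obtain ⟨x, hx, y, hy, rfl⟩ := h
        have h2 : ∀ i, ∃ r ∈ PidA_I C p * PidA_I C p, ι r = (x * m i) * (n i * y) := by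
          intro i
          obtain ⟨a, ha⟩ := PidA_ex C hx (hm i)
          obtain ⟨b, hb⟩ := PidA_ex C (hn i) hy
          refine ⟨a * b, Ideal.mul_mem_mul ?_ ?_, ?_⟩
          · rw [hmem, ha]
            exact memA x hx _ (hm i)
          · rw [hmem, hb]
            exact memA _ (hn i) y hy
          · rw [map_mul, ha, hb]
        choose r hr hr' using h2
        refine ⟨∑ i, r i, Ideal.sum_mem _ (fun i _ => hr i), ?_⟩
        rw [map_sum]
        calc ∑ i, ι (r i) = ∑ i, (x * m i) * (n i * y) := Finset.sum_congr rfl (fun i _ => hr' i)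
          _ = (∑ i, (x * m i) * n i) * y := by
            rw [Finset.sum_mul]
            exact Finset.sum_congr rfl (fun i _ => (mul_assoc _ _ _).symm)
          _ = x * y := by rw [← exr x hx]
      | zero => exact ⟨0, zero_mem _, map_zero ι⟩
      | add z w _ _ h1 h2 =>
        obtain ⟨a, ha, ha'⟩ := h1
        obtain ⟨b, hb, hb'⟩ := h2
        exact ⟨a + b, add_mem ha hb, by rw [map_add, ha', hb']⟩
    have hII : PidA_I C p * PidA_I C p = PidA_I C p := by
      apply le_antisymm Ideal.mul_le_left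
      intro r hr
      obtain ⟨r', h2, h3⟩ := key _ ((hmem r).mp hr)
      rwa [← C.inj h3]
    rcases lp_idem _ hII with h2 | h2
    · exfalso
      apply hp0
      have h3 : ∀ x ∈ PidA_Q ε p, ∀ y ∈ PidA_P ε p, x * y = 0 := by
        intro x hx y hy
        obtain ⟨r, hr⟩ := PidA_ex C hx hy
        have h4 : r ∈ PidA_I C p := by
          rw [hmem, hr]
          exact memA x hx y hy
        rw [h2] at h4
        rw [← hr, (Submodule.mem_bot _).mp h4, map_zero]
      have h4 : ∀ i, m i = 0 := by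
        intro i
        rw [exl _ (hm i)]
        apply Finset.sum_eq_zero
        intro j _
        rw [h3 _ (hn j) _ (hm i), mul_zero]
      rw [hmn]
      apply Finset.sum_eq_zero
      intro i _
      rw [h4 i, zero_mul]
    · have h3 : (1 : ℂ[T;T⁻¹]) ∈ PidA_I C p := by
        rw [h2]
        trivial
      rw [hmem, C.one] at h3
      exact h3
  -- step 2
  have hne : ∃ i, n i ≠ 0 := by
    by_contra h
    push Not at h
    apply hp0
    rw [hmn]
    apply Finset.sum_eq_zero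
    intro i _
    rw [h i, mul_zero]
  obtain ⟨i0, hi0⟩ := hne
  have hinj : ∀ x ∈ PidA_P ε p, n i0 * x = 0 → x = 0 := by
    intro x hx h0
    have h2 : ∀ z ∈ PidA_A ε p, x * z * n i0 = 0 := by
      intro z hz
      unfold PidA_A at hz
      induction hz using AddSubmonoid.closure_induction with
      | mem z h =>
        obtain ⟨n', hn', m', hm', rfl⟩ := h
        have e1 : m' * n i0 = p * (m' * n i0) * p := by
          rw [← mul_assoc, hm'.1, mul_assoc, (hn i0).2]
        have e2 : x * n' = p * (x * n') * p := by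
          rw [← mul_assoc, hx.1, mul_assoc, hn'.2]
        have e3 := hc (m' * n i0) (x * n')
        rw [← e1, ← e2] at e3
        calc x * (n' * m') * n i0 = (x * n') * (m' * n i0) := by simp only [mul_assoc]
          _ = (m' * n i0) * (x * n') := e3.symm
          _ = m' * (n i0 * x) * n' := by simp only [mul_assoc]
          _ = 0 := by rw [h0, mul_zero, zero_mul]
      | zero => rw [mul_zero, zero_mul]
      | add z w _ _ h1 h2 => rw [mul_add, add_mul, h1, h2, add_zero]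
    have h3 : x * n i0 = 0 := by
      have := h2 ε h1
      rwa [hx.2] at this
    by_cases h4 : ∀ n' ∈ PidA_Q ε p, n' * x = 0
    · rw [exl x hx]
      apply Finset.sum_eq_zero
      intro j _
      rw [h4 _ (hn j), mul_zero]
    · exfalso
      push Not at h4
      obtain ⟨n', hn', hnx⟩ := h4
      have h5 : ∀ m' ∈ PidA_P ε p, n i0 * m' = 0 := by
        intro m' hm'
        obtain ⟨a, ha⟩ := PidA_ex C hn' hx
        obtain ⟨b, hb⟩ := PidA_ex C (hn i0) hm'
        have h6 : ι (a * b) = 0 := by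
          rw [map_mul, ha, hb]
          calc n' * x * (n i0 * m') = n' * (x * n i0) * m' := by simp only [mul_assoc]
            _ = 0 := by rw [h3, mul_zero, zero_mul]
        rcases mul_eq_zero.mp (hι0 _ h6) with h7 | h7
        · rw [h7, map_zero] at ha
          exact absurd ha.symm hnx
        · rw [← hb, h7, map_zero]
      apply hi0
      rw [exr _ (hn i0)]
      apply Finset.sum_eq_zero
      intro j _
      rw [h5 _ (hm j), zero_mul]
  -- step 3
  let J : Ideal ℂ[T;T⁻¹] :=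
    { carrier := {r | ∃ x ∈ PidA_P ε p, ι r = n i0 * x}
      zero_mem' := ⟨0, ⟨mul_zero _, zero_mul _⟩, by rw [map_zero, mul_zero]⟩
      add_mem' := by
        rintro a b ⟨x, hx, hx'⟩ ⟨y, hy, hy'⟩
        exact ⟨x + y, PidA_Padd hx hy, by rw [map_add, hx', hy', mul_add]⟩
      smul_mem' := by
        rintro c r ⟨x, hx, hx'⟩
        refine ⟨x * ι c, PidA_ιP C hx c, ?_⟩
        show ι (c * r) = _
        rw [mul_comm, map_mul, hx', mul_assoc] }
  haveI := lp_pid
  obtain ⟨c, hcJ⟩ := (inferInstance : Submodule.IsPrincipal J).principal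
  have hcm : c ∈ J := by
    rw [hcJ]
    exact Submodule.mem_span_singleton_self c
  obtain ⟨a, ha, hca⟩ : ∃ x ∈ PidA_P ε p, ι c = n i0 * x := hcm
  have h5 : ∀ x ∈ PidA_P ε p, ∃ r, x = a * ι r := by
    intro x hx
    obtain ⟨r0, hr0⟩ := PidA_ex C (hn i0) hx
    have h6 : r0 ∈ J := ⟨x, hx, hr0⟩
    rw [hcJ] at h6
    obtain ⟨r, hr⟩ := Submodule.mem_span_singleton.mp h6
    refine ⟨r, ?_⟩
    have h7 : n i0 * (x - a * ι r) = 0 := by
      rw [mul_sub, ← mul_assoc, ← hca, ← map_mul, ← hr0, ← hr, smul_eq_mul, mul_comm, sub_self]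
    exact sub_eq_zero.mp (hinj _ (PidA_Psub hx (PidA_ιP C ha r)) h7)
  -- step 4
  choose r hr using fun i => h5 (m i) (hm i)
  have hb : (∑ i, ι (r i) * n i) ∈ PidA_Q ε p := by
    refine ⟨?_, ?_⟩
    · rw [Finset.mul_sum]
      exact Finset.sum_congr rfl (fun i _ => (PidA_ιQ C (hn i) (r i)).1)
    · rw [Finset.sum_mul]
      exact Finset.sum_congr rfl (fun i _ => (PidA_ιQ C (hn i) (r i)).2)
  have hab : a * (∑ i, ι (r i) * n i) = p := by
    rw [Finset.mul_sum]
    rw [hmn]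
    apply Finset.sum_congr rfl
    intro i _
    rw [← mul_assoc, ← hr i]
  obtain ⟨t, ht⟩ := PidA_ex C hb ha
  have htt : t * t = t := by
    apply C.inj
    rw [map_mul, ht]
    calc (∑ i, ι (r i) * n i) * a * ((∑ i, ι (r i) * n i) * a) =
        (∑ i, ι (r i) * n i) * (a * (∑ i, ι (r i) * n i)) * a := by simp only [mul_assoc]
      _ = (∑ i, ι (r i) * n i) * a := by rw [hab, hb.2]
  refine ⟨∑ i, ι (r i) * n i, a, hb.1, hb.2, ha.1, ha.2, ?_, hab⟩
  rcases IsIdempotentElem.iff_eq_zero_or_one.mp htt with h6 | h6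
  · exfalso
    apply hp0
    rw [h6, map_zero] at ht
    calc p = p * p := hp.symm
      _ = a * ((∑ i, ι (r i) * n i) * a) * (∑ i, ι (r i) * n i) := by
        conv_lhs => rw [← hab]
        simp only [mul_assoc]
      _ = 0 := by rw [← ht, mul_zero, zero_mul]
  · rw [← ht, h6, C.one]

end Pool.Agent.RGD
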