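import Pool.Agent.RGD.ArC
import Pool.Agent.RGD.ArI

/-!
# Red: reduction of homogeneous elements

Let `N n k` be the span of the monomials `S_l T_l'` (`l, l'` paths with the same range `u`; the others
are `0` by `Sl_path_or`, `Tl_path_or`) with `|l'| ≤ n`, `|l| - |l'| = k`. By induction on `n`: the theorem
holds for all `k` and all `h ∈ N n k`, `h ≠ 0`.
First: `h = ∑_{w ∈ W} h P_w` for a finite set `W`, so `h P_w ≠ 0` for some `w`, and `h P_w ∈ N n k`; replace
`h` by `h P_w` (`y' := P_w * y'` at the end), so `h = h P_w`.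
`n = 0`: `h = ∑_{l ∈ Λ} c_l S_l` (`Λ` a finite set of paths of length `k` with range `w`); some `c_l ≠ 0`,
`T_l h = c_l P_w` (`T_l S_m = 0` for `l ≠ m` of the same length: `Tl_mul_Sl`), `P_w ≠ 0` as `h = h P_w ≠ 0`:
first alternative.
`n + 1`, case A: there is an edge `f` with `h S_f ≠ 0`. `h S_f ∈ N n (k+1)`: for a monomial with `l' = []`:
`S_l P_u S_f = S_{l f}` or `0`; with `l' = f' l''`: `S_l T_l'' T_f' S_f = S_l T_l''` or `0`. Use the induction
hypothesis.
Case B: `h S_f = 0` for all `f`. Sort the monomials by the first edge of `l'`: `h = z₀ + ∑_{f ∈ A} z_f T_f`,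
`z₀ = ∑_{l ∈ Λ} c_l S_l` (the monomials with `l' = []`, range `w`, as `h = h P_w`), `A` a finite set of edges
with source `w`, `z_f = z_f P_{r(f)}`. For `f ∈ A`: `0 = h S_f = z₀ S_f + z_f`. So `h = z₀ q`,
`q = P_w - ∑_{f ∈ A} S_f T_f`, an idempotent (the `S_f T_f` are orthogonal idempotents below `P_w`). For
`f ∉ A`: `0 = h S_f = z₀ S_f`. `z₀ ≠ 0`, so some `c_l ≠ 0` (and `S_l ≠ 0`), `T_l z₀ = c_l P_w`, `T_l h = c_l q`.
`q ≠ 0`, otherwise `h = z₀ q = 0`. For `f ∉ A` with source `w`: `S_f = P_w S_f = c_l⁻¹ T_l z₀ S_f = 0`, and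
`T_f = P_{r(f)} T_f = T_f S_f T_f = 0`. So `q S_f = 0`, `T_f q = 0` for all edges `f` with source `w`, and
`q z q = q (P_w z P_w) q` is a multiple of `q` by `corner_span` (all monomials except `P_w` begin with an
`S_f` or end with a `T_f`). So `Mnl q`: second alternative.
-/

set_option linter.unusedSectionVars false

namespace Pool.Agent.RGD

open Pool.Agent.GHT Pool.Agent.AUE
open scoped LaurentPolynomial

section

variable {G : DGraph} {M : Type} [Ring M] [Algebra ℂ M]

/-- monomials of degree `k` with `|l'| ≤ n` -/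
def Red_N (Θ : LFam G M) (n : ℕ) (k : ℤ) : Submodule ℂ M :=
  Submodule.span ℂ {y | ∃ (l l' : List G.E) (u : G.V), (l.length : ℤ) - l'.length = k ∧
    l'.length ≤ n ∧ y = Sl Θ l u * Tl Θ l' u}

/-- the span of the `S_l P_w` -/
def Red_Z (Θ : LFam G M) (w : G.V) (k : ℤ) : Submodule ℂ M :=
  Submodule.span ℂ {y | ∃ l : List G.E, (l.length : ℤ) = k ∧ y = Sl Θ l w}

theorem Red_mono (Θ : LFam G M) {n n' : ℕ} (h : n ≤ n') (k : ℤ) : Red_N Θ n k ≤ Red_N Θ n' k := by
  apply Submodule.span_mono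
  rintro y ⟨l, l', u, h1, h2, h3⟩
  exact ⟨l, l', u, h1, h2.trans h, h3⟩

theorem Red_ex {Θ : LFam G M} {k : ℤ} {h : M} (hh : h ∈ Mo Θ k) : ∃ n, h ∈ Red_N Θ n k := by
  unfold Mo at hh
  induction hh using Submodule.span_induction with
  | mem y hy =>
    obtain ⟨l, l', u, h1, h2⟩ := hy
    exact ⟨l'.length, Submodule.subset_span ⟨l, l', u, h1, le_rfl, h2⟩⟩
  | zero => exact ⟨0, zero_mem _⟩
  | add x y _ _ h1 h2 =>
    obtain ⟨n1, h1⟩ := h1
    obtain ⟨n2, h2⟩ := h2
    exact ⟨max n1 n2, add_mem (Red_mono Θ (le_max_left _ _) k h1)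
      (Red_mono Θ (le_max_right _ _) k h2)⟩
  | smul c x _ h =>
    obtain ⟨n, h⟩ := h
    exact ⟨n, Submodule.smul_mem _ c h⟩

/-- `T_l P_w` is `T_l` or `0` -/
theorem Red_TP (Θ : LFam G M) (l : List G.E) (u w : G.V) :
    Tl Θ l u * Θ.P w = 0 ∨ (IsPath G w l u ∧ Tl Θ l u * Θ.P w = Tl Θ l u) := by
  rcases Tl_path_or Θ l u with ⟨u', h⟩ | h
  · by_cases hw : u' = w
    · subst hw
      exact Or.inr ⟨h, Tl_P Θ h⟩
    · left
      rw [← Tl_P Θ h, mul_assoc, Θ.PPo _ _ hw, mul_zero]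
  · left
    rw [h, zero_mul]

theorem Red_NP {Θ : LFam G M} {n : ℕ} {k : ℤ} {h : M} (hh : h ∈ Red_N Θ n k) (w : G.V) :
    h * Θ.P w ∈ Red_N Θ n k := by
  unfold Red_N at hh
  induction hh using Submodule.span_induction with
  | mem y hy =>
    obtain ⟨l, l', u, h1, h2, rfl⟩ := hy
    rw [mul_assoc]
    rcases Red_TP Θ l' u w with h3 | ⟨_, h3⟩
    · rw [h3, mul_zero]
      exact zero_mem _
    · rw [h3]
      exact Submodule.subset_span ⟨l, l', u, h1, h2, rfl⟩
  | zero => rw [zero_mul]; exact zero_mem _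
  | add x y _ _ h1 h2 => rw [add_mul]; exact add_mem h1 h2
  | smul c x _ h => rw [smul_mul_assoc]; exact Submodule.smul_mem _ c h

theorem Red_sumP {Θ : LFam G M} {n : ℕ} {k : ℤ} {h : M} (hh : h ∈ Red_N Θ n k) :
    ∃ W : Finset G.V, ∀ W' : Finset G.V, W ⊆ W' → h * ∑ w ∈ W', Θ.P w = h := by
  classical
  unfold Red_N at hh
  induction hh using Submodule.span_induction with
  | mem y hy =>
    obtain ⟨l, l', u, h1, h2, rfl⟩ := hy
    rcases Tl_path_or Θ l' u with ⟨u', h⟩ | h
    · refine ⟨{u'}, fun W' hW => ?_⟩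
      have hu : u' ∈ W' := hW (Finset.mem_singleton_self _)
      rw [mul_assoc, Finset.mul_sum, Finset.sum_eq_single_of_mem u' hu, Tl_P Θ h]
      intro v _ hv
      rw [← Tl_P Θ h, mul_assoc, Θ.PPo _ _ hv.symm, mul_zero]
    · refine ⟨∅, fun W' _ => ?_⟩
      rw [h, mul_zero, zero_mul]
  | zero => exact ⟨∅, fun W' _ => zero_mul _⟩
  | add x y _ _ h1 h2 =>
    obtain ⟨W1, h1⟩ := h1
    obtain ⟨W2, h2⟩ := h2
    refine ⟨W1 ∪ W2, fun W' hW => ?_⟩
    rw [add_mul, h1 W' (Finset.union_subset_left hW), h2 W' (Finset.union_subset_right hW)]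
  | smul c x _ h =>
    obtain ⟨W, h⟩ := h
    exact ⟨W, fun W' hW => by rw [smul_mul_assoc, h W' hW]⟩

theorem Red_hP {Θ : LFam G M} {n : ℕ} {k : ℤ} {h : M} (hh : h ∈ Red_N Θ n k) (h0 : h ≠ 0) :
    ∃ w, h * Θ.P w ≠ 0 := by
  obtain ⟨W, hW⟩ := Red_sumP hh
  by_contra hc
  push Not at hc
  apply h0
  rw [← hW W (Finset.Subset.refl _), Finset.mul_sum]
  exact Finset.sum_eq_zero (fun w _ => hc w)

/-- `h S_f` -/
theorem Red_hS {Θ : LFam G M} {n : ℕ} {k : ℤ} {h : M} (hh : h ∈ Red_N Θ (n + 1) k) (f : G.E) :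
    h * Θ.S f ∈ Red_N Θ n (k + 1) := by
  unfold Red_N at hh
  induction hh using Submodule.span_induction with
  | mem y hy =>
    obtain ⟨l, l', u, h1, h2, rfl⟩ := hy
    rcases l' with _ | ⟨g, l''⟩
    · rw [Tl_nil]
      by_cases hu : u = G.s f
      · subst hu
        rw [Sl_P]
        have e1 : Sl Θ l (G.s f) * Θ.S f = Sl Θ (l ++ [f]) (G.r f) * Tl Θ [] (G.r f) := by
          have hp : IsPath G (G.s f) [f] (G.r f) := ⟨rfl, rfl⟩
          rw [Sl_append Θ hp, Sl_cons, Sl_nil, Tl_nil, Θ.SP, mul_assoc, Θ.SP]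
        rw [e1]
        refine Submodule.subset_span ⟨l ++ [f], [], G.r f, ?_, ?_, rfl⟩
        · simp only [List.length_append, List.length_cons, List.length_nil] at h1 ⊢
          push_cast at h1 ⊢
          linarith
        · simp
      · have e1 : Sl Θ l u * Θ.P u * Θ.S f = 0 := by
          rw [← Θ.PS f, mul_assoc, ← mul_assoc (Θ.P u), Θ.PPo _ _ hu, zero_mul, mul_zero]
        rw [e1]
        exact zero_mem _
    · rw [Tl_cons]
      by_cases hg : g = f
      · subst hg
        have e1 : Sl Θ l u * (Tl Θ l'' u * Θ.T g) * Θ.S g = Sl Θ l u * (Tl Θ l'' u * Θ.P (G.r g)) := by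
          rw [mul_assoc, mul_assoc, Θ.TS]
        rw [e1]
        rcases Red_TP Θ l'' u (G.r g) with h3 | ⟨_, h3⟩
        · rw [h3, mul_zero]
          exact zero_mem _
        · rw [h3]
          refine Submodule.subset_span ⟨l, l'', u, ?_, ?_, rfl⟩
          · simp only [List.length_cons] at h1
            push_cast at h1
            linarith
          · simp only [List.length_cons] at h2
            omega
      · have e1 : Sl Θ l u * (Tl Θ l'' u * Θ.T g) * Θ.S f = 0 := by
          rw [mul_assoc, mul_assoc, Θ.TSo _ _ hg, mul_zero, mul_zero]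
        rw [e1]
        exact zero_mem _
  | zero => rw [zero_mul]; exact zero_mem _
  | add x y _ _ h1 h2 => rw [add_mul]; exact add_mem h1 h2
  | smul c x _ h => rw [smul_mul_assoc]; exact Submodule.smul_mem _ c h

/-- the case `n = 0` -/
theorem Red_N0 {Θ : LFam G M} {k : ℤ} {h : M} (hh : h ∈ Red_N Θ 0 k) (w : G.V) :
    h * Θ.P w ∈ Red_Z Θ w k := by
  unfold Red_N at hh
  induction hh using Submodule.span_induction with
  | mem y hy =>
    obtain ⟨l, l', u, h1, h2, rfl⟩ := hy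
    have h3 : l' = [] := List.length_eq_zero_iff.mp (Nat.le_zero.mp h2)
    subst h3
    rw [Tl_nil, Sl_P]
    by_cases hu : u = w
    · subst hu
      rw [Sl_P]
      refine Submodule.subset_span ⟨l, ?_, rfl⟩
      simpa using h1
    · rw [← Sl_P, mul_assoc, Θ.PPo _ _ hu, mul_zero]
      exact zero_mem _
  | zero => rw [zero_mul]; exact zero_mem _
  | add x y _ _ h1 h2 => rw [add_mul]; exact add_mem h1 h2
  | smul c x _ h => rw [smul_mul_assoc]; exact Submodule.smul_mem _ c h

/-- the decomposition by the first edge -/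
theorem Red_dec {Θ : LFam G M} {n : ℕ} {k : ℤ} {h : M} (hh : h ∈ Red_N Θ n k) (w : G.V) :
    ∃ z ∈ Red_Z Θ w k, ∃ A : Finset G.E, (∀ f ∈ A, G.s f = w) ∧
      ∀ A' : Finset G.E, A ⊆ A' → (h * Θ.P w - z) * ∑ f ∈ A', Θ.S f * Θ.T f = h * Θ.P w - z := by
  classical
  unfold Red_N at hh
  induction hh using Submodule.span_induction with
  | mem y hy =>
    obtain ⟨l, l', u, h1, h2, rfl⟩ := hy
    rcases l' with _ | ⟨f, l''⟩
    · refine ⟨Sl Θ l u * Tl Θ [] u * Θ.P w, ?_, ∅, by simp, fun A' _ => by simp⟩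
      exact Red_N0 (Submodule.subset_span ⟨l, [], u, h1, by simp, rfl⟩) w
    · refine ⟨0, zero_mem _, ?_⟩
      rcases Red_TP Θ (f :: l'') u w with h3 | ⟨h4, h3⟩
      · refine ⟨∅, by simp, fun A' _ => ?_⟩
        rw [mul_assoc, h3, mul_zero, sub_zero, zero_mul]
      · refine ⟨{f}, by simpa using h4.1, fun A' hA => ?_⟩
        have hf : f ∈ A' := hA (Finset.mem_singleton_self _)
        rw [sub_zero, mul_assoc (Sl Θ l u), h3, mul_assoc, Finset.mul_sum,
          Finset.sum_eq_single_of_mem f hf]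
        · rw [Tl_cons, mul_assoc, ← mul_assoc (Θ.T f), Θ.TS, Θ.PT]
        · intro g _ hg
          rw [Tl_cons, mul_assoc, ← mul_assoc (Θ.T f), Θ.TSo _ _ hg.symm, zero_mul, mul_zero]
  | zero => exact ⟨0, zero_mem _, ∅, by simp, fun A' _ => by simp⟩
  | add x y _ _ h1 h2 =>
    obtain ⟨z1, hz1, A1, hA1, h1⟩ := h1
    obtain ⟨z2, hz2, A2, hA2, h2⟩ := h2
    refine ⟨z1 + z2, add_mem hz1 hz2, A1 ∪ A2, ?_, fun A' hA => ?_⟩
    · intro f hf
      rcases Finset.mem_union.mp hf with hf | hf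
      · exact hA1 f hf
      · exact hA2 f hf
    · have e : (x + y) * Θ.P w - (z1 + z2) = (x * Θ.P w - z1) + (y * Θ.P w - z2) := by
        rw [add_mul]; abel
      rw [e, add_mul, h1 A' (Finset.union_subset_left hA), h2 A' (Finset.union_subset_right hA)]
  | smul c x _ h =>
    obtain ⟨z, hz, A, hA, h⟩ := h
    refine ⟨c • z, Submodule.smul_mem _ c hz, A, hA, fun A' hA' => ?_⟩
    rw [smul_mul_assoc, ← smul_sub, smul_mul_assoc, h A' hA']

/-- a nonzero element of `Z` has a nonzero coefficient -/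
theorem Red_coef {Θ : LFam G M} {w : G.V} {k : ℤ} {z : M} (hz : z ∈ Red_Z Θ w k) (h0 : z ≠ 0) :
    ∃ (l : List G.E) (c : ℂ), c ≠ 0 ∧ Tl Θ l w * z = c • Θ.P w := by
  classical
  have hr : Red_Z Θ w k = Submodule.span ℂ (Set.range
      (fun l : {l : List G.E // (l.length : ℤ) = k} => Sl Θ l.1 w)) := by
    unfold Red_Z
    congr 1
    ext y
    constructor
    · rintro ⟨l, h1, h2⟩
      exact ⟨⟨l, h1⟩, h2.symm⟩
    · rintro ⟨⟨l, h1⟩, h2⟩
      exact ⟨l, h1, h2.symm⟩
  rw [hr, Finsupp.mem_span_range_iff_exists_finsupp] at hz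
  obtain ⟨c, hc⟩ := hz
  have hex : ∃ l ∈ c.support, c l • Sl Θ l.1 w ≠ 0 := by
    by_contra h
    push Not at h
    apply h0
    rw [← hc, Finsupp.sum]
    exact Finset.sum_eq_zero h
  obtain ⟨⟨l, hl⟩, hls, hne⟩ := hex
  have hc0 : c ⟨l, hl⟩ ≠ 0 := Finsupp.mem_support_iff.mp hls
  have hS : Sl Θ l w ≠ 0 := by
    intro h
    apply hne
    simp [h]
  obtain ⟨u, hu⟩ : ∃ u, IsPath G u l w := by
    rcases Sl_path_or Θ l w with h | h
    · exact h
    · exact absurd h hS
  refine ⟨l, c ⟨l, hl⟩, hc0, ?_⟩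
  rw [← hc, Finsupp.sum, Finset.mul_sum, Finset.sum_eq_single_of_mem (⟨l, hl⟩ : {l : List G.E //
    (l.length : ℤ) = k}) hls]
  · rw [mul_smul_comm, Tl_Sl Θ hu]
  · rintro ⟨m, hm⟩ _ hml
    have hml' : m ≠ l := fun h => hml (Subtype.ext h)
    have hlen : m.length = l.length := by
      have : (m.length : ℤ) = l.length := hm.trans hl.symm
      exact_mod_cast this
    rw [mul_smul_comm]
    rcases Tl_mul_Sl Θ l m w w with h | ⟨m', h, _⟩ | ⟨l', h, _⟩
    · rw [h, smul_zero]
    · exfalso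
      have : m'.length = 0 := by
        have := congrArg List.length h
        rw [List.length_append] at this
        omega
      rw [List.length_eq_zero_iff.mp this, List.append_nil] at h
      exact hml' h
    · exfalso
      have : l'.length = 0 := by
        have := congrArg List.length h
        rw [List.length_append] at this
        omega
      rw [List.length_eq_zero_iff.mp this, List.append_nil] at h
      exact hml' h.symm

/-- the idempotent `q` -/
theorem Red_q {Θ : LFam G M} (hsp : Spn Θ) {w : G.V} {q : M} (hq0 : q ≠ 0) (hPq : Θ.P w * q = q)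
    (hqP : q * Θ.P w = q) (hqq : q * q = q) (hS : ∀ f, G.s f = w → q * Θ.S f = 0)
    (hT : ∀ f, G.s f = w → Θ.T f * q = 0) : Mnl q := by
  refine ⟨hq0, hqq, fun z => ?_⟩
  have key : ∀ y ∈ Submodule.span ℂ {y | ∃ (l l' : List G.E) (u : G.V),
      IsPath G w l u ∧ IsPath G w l' u ∧ y = Sl Θ l u * Tl Θ l' u}, ∃ c : ℂ, q * y * q = c • q := by
    intro y hy
    induction hy using Submodule.span_induction with
    | mem y hy =>
      obtain ⟨l, l', u, h1, h2, rfl⟩ := hy
      rcases l with _ | ⟨f, l⟩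
      · rcases l' with _ | ⟨g, l'⟩
        · have hu : w = u := h1
          subst hu
          refine ⟨1, ?_⟩
          rw [Sl_nil, Tl_nil, Θ.PP, hqP, hqq, one_smul]
        · refine ⟨0, ?_⟩
          rw [zero_smul, Tl_cons, mul_assoc, mul_assoc, mul_assoc, hT g h2.1, mul_zero, mul_zero,
            mul_zero]
      · refine ⟨0, ?_⟩
        rw [zero_smul, Sl_cons, ← mul_assoc, ← mul_assoc, hS f h1.1, zero_mul, zero_mul, zero_mul]
    | zero => exact ⟨0, by simp⟩
    | add x y _ _ h1 h2 =>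
      obtain ⟨c1, h1⟩ := h1
      obtain ⟨c2, h2⟩ := h2
      exact ⟨c1 + c2, by rw [mul_add, add_mul, h1, h2, add_smul]⟩
    | smul c x _ h =>
      obtain ⟨c1, h⟩ := h
      exact ⟨c * c1, by rw [mul_smul_comm, smul_mul_assoc, h, smul_smul]⟩
  obtain ⟨c, hc⟩ := key _ (corner_span hsp w z)
  refine ⟨c, ?_⟩
  rw [← hc]
  calc q * z * q = (q * Θ.P w) * z * (Θ.P w * q) := by rw [hqP, hPq]
    _ = q * (Θ.P w * z * Θ.P w) * q := by simp only [mul_assoc]

theorem Red_main {Θ : LFam G M} (hsp : Spn Θ) : ∀ (n : ℕ) (k : ℤ) (h : M), h ∈ Red_N Θ n k →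
    h ≠ 0 → (∃ (y y' : M) (w : G.V), Θ.P w ≠ 0 ∧ y * h * y' = Θ.P w) ∨
      ∃ y y' q : M, Mnl q ∧ y * h * y' = q := by
  classical
  intro n
  induction n with
  | zero =>
    intro k h hh h0
    obtain ⟨w, hw⟩ := Red_hP hh h0
    obtain ⟨l, c, hc, hl⟩ := Red_coef (Red_N0 hh w) hw
    left
    refine ⟨c⁻¹ • Tl Θ l w, Θ.P w, w, ?_, ?_⟩
    · intro hP
      apply hw
      rw [hP, mul_zero]
    · rw [smul_mul_assoc, smul_mul_assoc, mul_assoc, hl, smul_smul, inv_mul_cancel₀ hc, one_smul]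
  | succ n ih =>
    intro k h' hh' h0'
    obtain ⟨w, hw⟩ := Red_hP hh' h0'
    by_cases hA : ∃ f, h' * Θ.P w * Θ.S f ≠ 0
    · obtain ⟨f, hf⟩ := hA
      rcases ih (k + 1) _ (Red_hS (Red_NP hh' w) f) hf with ⟨y, y', v, h1, h2⟩ | ⟨y, y', q, h1, h2⟩
      · left
        refine ⟨y, Θ.P w * (Θ.S f * y'), v, h1, ?_⟩
        rw [← h2]
        simp only [mul_assoc]
      · right
        refine ⟨y, Θ.P w * (Θ.S f * y'), q, h1, ?_⟩
        rw [← h2]
        simp only [mul_assoc]
    · push Not at hA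
      obtain ⟨z, hz, A, hAw, hdec⟩ := Red_dec hh' w
      have hd := hdec A (Finset.Subset.refl _)
      set h := h' * Θ.P w with hh
      set E := ∑ f ∈ A, Θ.S f * Θ.T f with hE
      have hhE : h * E = 0 := by
        rw [hE, Finset.mul_sum]
        apply Finset.sum_eq_zero
        intro f _
        rw [← mul_assoc, hA f, zero_mul]
      have hzP : z * Θ.P w = z := by
        clear hdec hd
        unfold Red_Z at hz
        induction hz using Submodule.span_induction with
        | mem y hy =>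
          obtain ⟨l, _, rfl⟩ := hy
          exact Sl_P Θ l w
        | zero => exact zero_mul _
        | add x y _ _ h1 h2 => rw [add_mul, h1, h2]
        | smul c x _ h => rw [smul_mul_assoc, h]
      have hzq : h = z * (Θ.P w - E) := by
        rw [sub_mul, hhE, zero_sub] at hd
        rw [mul_sub, hzP]
        rw [← sub_eq_zero]
        have : h - (z - z * E) = (h - z) - (- (z * E)) := by abel
        rw [this, hd, sub_self]
      have hz0 : z ≠ 0 := by
        intro hc
        apply hw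
        rw [hzq, hc, zero_mul]
      obtain ⟨l, c, hc, hl⟩ := Red_coef hz hz0
      have hPE : Θ.P w * E = E := by
        rw [hE, Finset.mul_sum]
        apply Finset.sum_congr rfl
        intro f hf
        rw [← mul_assoc, ← hAw f hf, Θ.PS]
      have hEP : E * Θ.P w = E := by
        rw [hE, Finset.sum_mul]
        apply Finset.sum_congr rfl
        intro f hf
        rw [mul_assoc, ← hAw f hf, Θ.TP]
      have hES : ∀ f ∈ A, E * Θ.S f = Θ.S f := by
        intro f hf
        rw [hE, Finset.sum_mul, Finset.sum_eq_single_of_mem f hf]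
        · rw [mul_assoc, Θ.TS, Θ.SP]
        · intro g _ hg
          rw [mul_assoc, Θ.TSo _ _ hg, mul_zero]
      have hES' : ∀ f, f ∉ A → E * Θ.S f = 0 := by
        intro f hf
        rw [hE, Finset.sum_mul]
        apply Finset.sum_eq_zero
        intro g hg
        rw [mul_assoc, Θ.TSo _ _ (fun h : g = f => hf (h ▸ hg)), mul_zero]
      have hTE : ∀ f ∈ A, Θ.T f * E = Θ.T f := by
        intro f hf
        rw [hE, Finset.mul_sum, Finset.sum_eq_single_of_mem f hf]
        · rw [← mul_assoc, Θ.TS, Θ.PT]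
        · intro g _ hg
          rw [← mul_assoc, Θ.TSo _ _ hg.symm, zero_mul]
      have hTE' : ∀ f, f ∉ A → Θ.T f * E = 0 := by
        intro f hf
        rw [hE, Finset.mul_sum]
        apply Finset.sum_eq_zero
        intro g hg
        rw [← mul_assoc, Θ.TSo _ _ (fun h : f = g => hf (h ▸ hg)), zero_mul]
      have hEE : E * E = E := by
        conv_lhs => rw [hE]
        rw [Finset.sum_mul]
        conv_rhs => rw [hE]
        apply Finset.sum_congr rfl
        intro f hf
        rw [mul_assoc, hTE f hf]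
      have hq0 : Θ.P w - E ≠ 0 := by
        intro hc
        apply hw
        rw [hzq, hc, mul_zero]
      have hTh : Tl Θ l w * h = c • (Θ.P w - E) := by
        rw [hzq, ← mul_assoc, hl, smul_mul_assoc, mul_sub, Θ.PP, hPE]
      have hqS : ∀ f, G.s f = w → (Θ.P w - E) * Θ.S f = 0 := by
        intro f _
        have h1 : c • ((Θ.P w - E) * Θ.S f) = 0 := by
          rw [← smul_mul_assoc, ← hTh, mul_assoc, hA f, mul_zero]
        rcases smul_eq_zero.mp h1 with h2 | h2
        · exact absurd h2 hc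
        · exact h2
      have hTq : ∀ f, G.s f = w → Θ.T f * (Θ.P w - E) = 0 := by
        intro f hf
        have e1 : Θ.T f * Θ.P w = Θ.T f := by rw [← hf, Θ.TP]
        have e2 : Θ.P w * Θ.S f = Θ.S f := by rw [← hf, Θ.PS]
        by_cases hfA : f ∈ A
        · rw [mul_sub, e1, hTE f hfA, sub_self]
        · rw [mul_sub, e1, hTE' f hfA, sub_zero]
          have h2 := hqS f hf
          rw [sub_mul, e2, hES' f hfA, sub_zero] at h2
          rw [← Θ.PT f, ← Θ.TS f, h2, mul_zero, zero_mul]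
      right
      refine ⟨c⁻¹ • Tl Θ l w, Θ.P w, Θ.P w - E, ?_, ?_⟩
      · refine Red_q hsp hq0 ?_ ?_ ?_ hqS hTq
        · rw [mul_sub, Θ.PP, hPE]
        · rw [sub_mul, Θ.PP, hEP]
        · rw [mul_sub, sub_mul, sub_mul, Θ.PP, hEP, hPE, hEE]
          abel
      · rw [smul_mul_assoc, smul_mul_assoc, mul_assoc, ← hh, hTh, smul_smul, inv_mul_cancel₀ hc,
          one_smul]

end

theorem red {G : DGraph} {M : Type} [Ring M] [Algebra ℂ M] {Θ : LFam G M} (hsp : Spn Θ) {k : ℤ}
    {h : M} (hh : h ∈ Mo Θ k) (h0 : h ≠ 0) :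
    (∃ (y y' : M) (w : G.V), Θ.P w ≠ 0 ∧ y * h * y' = Θ.P w) ∨
      ∃ y y' q : M, Mnl q ∧ y * h * y' = q := by
  obtain ⟨n, hn⟩ := Red_ex hh
  exact Red_main hsp n k h hn h0

end Pool.Agent.RGD
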