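import Pool.Agent.RGD.LaR
import Pool.Agent.RGD.ArI

/-!
# Unt: the generator of the corner

`p D = p (D D') D = (p p) D`... first: `p = D D' = D' D`, `hD : p * D = D`, `D * p = D`, the same for `D'`.
`a D b`, `a D' b ∈ ε M ε`: `a D b = ι u`, `a D' b = ι u'`; `(a D b)(a D' b) = a D p D' b = a p b = ε`, so
`u * u' = 1`, and by `lp_unit` `u = κ • T k`, `κ ≠ 0`; `u' = κ⁻¹ • T (-k)`. `ι (T 1) = ε ι(T 1) ε =
a (b ι(T 1) a) b`, `b ι(T 1) a ∈ p M p` is in the span of `p`, `D^(j+1)`, `D'^(j+1)`, and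
`a D^(j+1) b = (a D b)^(j+1) = ι (u^(j+1))` etc. So `T 1` is in the span of the powers of `u`, `u'`, i.e. of
the `T (k * j)`, `j : ℤ`; by `lp_gen` `k = 1` or `k = -1`: `T 1 = κ⁻¹ • u` or `T 1 = κ • u'`.
-/

set_option linter.unusedSectionVars false

namespace Pool.Agent.RGD

open Pool.Agent.GHT Pool.Agent.AUE
open scoped LaurentPolynomial

theorem Unt_pow {M : Type} [Ring M] [Algebra ℂ M] {ι : ℂ[T;T⁻¹] →ₙₐ[ℂ] M} {p a b D : M} {u : ℂ[T;T⁻¹]}
    (hba : b * a = p) (hD : p * D = D) (hu : ι u = a * D * b) (j : ℕ) : a * D ^ (j + 1) * b = ι (u ^ (j + 1)) := by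
  induction j with
  | zero => rw [zero_add, pow_one, pow_one, hu]
  | succ j ih =>
    have h1 : ι (u ^ (j + 1 + 1)) = ι (u ^ (j + 1)) * ι u := by
      rw [pow_succ u (j + 1)]
      exact map_mul ι _ _
    rw [h1, ← ih, hu, pow_succ D (j + 1)]
    calc a * (D ^ (j + 1) * D) * b = a * D ^ (j + 1) * (p * D) * b := by rw [hD]; noncomm_ring
      _ = a * D ^ (j + 1) * b * (a * D * b) := by rw [← hba]; noncomm_ring

theorem unt {M : Type} [Ring M] [Algebra ℂ M] {ε : M} {ι : ℂ[T;T⁻¹] →ₙₐ[ℂ] M} (C : Cor ε ι)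
    {p a b D D' : M} (ha : ε * a = a) (ha' : a * p = a) (hb : p * b = b) (hb' : b * ε = b)
    (hab : a * b = ε) (hba : b * a = p) (h1 : D * D' = p) (h2 : D' * D = p) (hD : p * D = D)
    (hD' : D * p = D) (hE : p * D' = D') (hE' : D' * p = D')
    (hs : ∀ z, p * z * p ∈ Submodule.span ℂ ({p} ∪
      {y | ∃ k : ℕ, y = D ^ (k + 1) ∨ y = D' ^ (k + 1)})) :
    ∃ κ : ℂ, κ ≠ 0 ∧ (ι (LaurentPolynomial.T 1) = κ • (a * D * b) ∨
      ι (LaurentPolynomial.T 1) = κ • (a * D' * b)) := by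
  have hcor : ∀ y : M, ε * (a * y * b) * ε = a * y * b := by
    intro y
    calc ε * (a * y * b) * ε = (ε * a) * y * (b * ε) := by noncomm_ring
      _ = a * y * b := by rw [ha, hb']
  obtain ⟨u, hu⟩ := C.surj (a * D * b)
  obtain ⟨u', hu'⟩ := C.surj (a * D' * b)
  rw [hcor] at hu hu'
  have huu : u * u' = 1 := by
    apply C.inj
    have e : ι (u * u') = ι u * ι u' := map_mul ι _ _
    rw [e, hu, hu', C.one]
    calc a * D * b * (a * D' * b) = a * D * (b * a) * D' * b := by noncomm_ring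
      _ = a * (D * p) * D' * b := by rw [hba]; noncomm_ring
      _ = a * (D * D') * b := by rw [hD']; noncomm_ring
      _ = a * p * b := by rw [h1]
      _ = ε := by rw [ha', hab]
  obtain ⟨κ, k, hκ, hk⟩ := lp_unit huu
  have hk' : u' = κ⁻¹ • (LaurentPolynomial.T (-k) : ℂ[T;T⁻¹]) := by
    have e : (κ⁻¹ • (LaurentPolynomial.T (-k) : ℂ[T;T⁻¹])) * u = 1 := by
      rw [hk, smul_mul_smul_comm, inv_mul_cancel₀ hκ, ← LaurentPolynomial.T_add, neg_add_cancel,
        LaurentPolynomial.T_zero, one_smul]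
    calc u' = ((κ⁻¹ • (LaurentPolynomial.T (-k) : ℂ[T;T⁻¹])) * u) * u' := by rw [e, one_mul]
      _ = κ⁻¹ • (LaurentPolynomial.T (-k) : ℂ[T;T⁻¹]) := by rw [mul_assoc, huu, mul_one]
  have hx : ε * ι (LaurentPolynomial.T 1) * ε = ι (LaurentPolynomial.T 1) := by
    rw [← C.one]
    have e1 : ι 1 * ι (LaurentPolynomial.T 1) = ι (LaurentPolynomial.T 1) := by
      have e : ι (1 * LaurentPolynomial.T 1) = ι 1 * ι (LaurentPolynomial.T 1) := map_mul ι _ _
      rw [← e, one_mul]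
    have e2 : ι (LaurentPolynomial.T 1) * ι 1 = ι (LaurentPolynomial.T 1) := by
      have e : ι (LaurentPolynomial.T 1 * 1) = ι (LaurentPolynomial.T 1) * ι 1 := map_mul ι _ _
      rw [← e, mul_one]
    rw [e1, e2]
  -- the span
  obtain ⟨S, hS⟩ : ∃ S : Submodule ℂ ℂ[T;T⁻¹],
      S = Submodule.span ℂ (Set.range fun j : ℤ => (LaurentPolynomial.T (k * j) : ℂ[T;T⁻¹])) := ⟨_, rfl⟩
  have hmem : ∀ (c : ℂ) (j : ℤ), c • (LaurentPolynomial.T (k * j) : ℂ[T;T⁻¹]) ∈ S := by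
    intro c j
    rw [hS]
    exact Submodule.smul_mem _ _ (Submodule.subset_span ⟨j, rfl⟩)
  have hsp : ∀ y ∈ Submodule.span ℂ ({p} ∪ {y | ∃ k : ℕ, y = D ^ (k + 1) ∨ y = D' ^ (k + 1)}),
      ∃ r ∈ S, ι r = a * y * b := by
    intro y hy
    induction hy using Submodule.span_induction with
    | mem y hy =>
      rcases hy with hy | ⟨j, hy | hy⟩
      · rw [Set.mem_singleton_iff] at hy
        refine ⟨1, ?_, ?_⟩
        · have h := hmem 1 0
          rwa [one_smul, mul_zero, LaurentPolynomial.T_zero] at h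
        · rw [hy, ha', hab, C.one]
      · refine ⟨u ^ (j + 1), ?_, ?_⟩
        · rw [hk, smul_pow, LaurentPolynomial.T_pow]
          have h := hmem (κ ^ (j + 1)) ((j + 1 : ℕ) : ℤ)
          rwa [mul_comm k] at h
        · rw [hy, Unt_pow hba hD hu]
      · refine ⟨u' ^ (j + 1), ?_, ?_⟩
        · rw [hk', smul_pow, LaurentPolynomial.T_pow]
          have h := hmem (κ⁻¹ ^ (j + 1)) (-((j + 1 : ℕ) : ℤ))
          have e : k * -((j + 1 : ℕ) : ℤ) = ((j + 1 : ℕ) : ℤ) * -k := by ring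
          rwa [e] at h
        · rw [hy, Unt_pow hba hE hu']
    | zero => exact ⟨0, S.zero_mem, by rw [mul_zero, zero_mul]; exact map_zero ι⟩
    | add y z _ _ hy hz =>
      obtain ⟨r, hr, er⟩ := hy
      obtain ⟨r', hr', er'⟩ := hz
      refine ⟨r + r', S.add_mem hr hr', ?_⟩
      have e : ι (r + r') = ι r + ι r' := map_add ι _ _
      rw [e, er, er']
      noncomm_ring
    | smul c y _ hy =>
      obtain ⟨r, hr, er⟩ := hy
      refine ⟨c • r, S.smul_mem c hr, ?_⟩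
      have e : ι (c • r) = c • ι r := map_smul ι c r
      rw [e, er, mul_smul_comm, smul_mul_assoc]
  obtain ⟨r, hr, er⟩ := hsp _ (hs (b * ι (LaurentPolynomial.T 1) * a))
  have hT : ι r = ι (LaurentPolynomial.T 1) := by
    rw [er]
    calc a * (p * (b * ι (LaurentPolynomial.T 1) * a) * p) * b =
        a * (p * b) * ι (LaurentPolynomial.T 1) * ((a * p) * b) := by noncomm_ring
      _ = (a * b) * ι (LaurentPolynomial.T 1) * (a * b) := by rw [hb, ha']
      _ = ι (LaurentPolynomial.T 1) := by rw [hab, hx]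
  rw [C.inj hT, hS] at hr
  rcases lp_gen hr with h3 | h3
  · subst h3
    refine ⟨κ⁻¹, inv_ne_zero hκ, Or.inl ?_⟩
    rw [← hu, hk]
    have e : ι (κ • (LaurentPolynomial.T 1 : ℂ[T;T⁻¹])) = κ • ι (LaurentPolynomial.T 1) := map_smul ι κ _
    rw [e, smul_smul, inv_mul_cancel₀ hκ, one_smul]
  · subst h3
    refine ⟨κ, hκ, Or.inr ?_⟩
    rw [← hu', hk', neg_neg]
    have e : ι (κ⁻¹ • (LaurentPolynomial.T 1 : ℂ[T;T⁻¹])) = κ⁻¹ • ι (LaurentPolynomial.T 1) := map_smul ι κ⁻¹ _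
    rw [e, smul_smul, mul_inv_cancel₀ hκ, one_smul]

end Pool.Agent.RGD
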