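import Pool.Agent.RGD.Mom
import Pool.Agent.RGD.Red
import Pool.Agent.RGD.MnF
import Pool.Agent.RGD.Mini
import Pool.Agent.RGD.NoE
import Pool.Agent.RGD.Cyc
import Pool.Agent.RGD.PidA
import Pool.Agent.RGD.Unt

/-!
# ArM: the abstract theorem of block R1

`x k ≠ 0` for some `k` (`ε = ι 1 ≠ 0`). By `red`: second alternative: `Mnl q`, `q = y (x k) y'`,
`InI ε (x k)` (`mom`), so `InI ε q`, contradiction to `mnl_false`. First alternative: `P_w ≠ 0`,
`InI ε P_w`. Take `W` from `mini`. In `W` the first alternative is impossible (`noedge`, `mnl_false`). So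
there is a sequence `ω i ∈ W` with edges `e i` from `ω i` to `ω (i+1)`, `P_{ω i} = S_{e i} T_{e i}`. It is
not injective (`injpath`, `mnl_false`): `ω i = ω j`, `i < j`; for this `i` choose `j > i` minimal with
`ω j = ω i`; `d = [e i, …, e (j-1)]` is a return path at `w = ω i`. `D = S_d`, `D' = T_d`: `D D' = P_w`
(`Sl_Tl`), `D' D = P_w` (`Tl_Sl`). `ComC (P_w)` by `cyc` (powers of `D` and `D'` commute). `pid_ab`, `unt`.
-/

set_option linter.unusedSectionVars false

namespace Pool.Agent.RGD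

open Pool.Agent.GHT Pool.Agent.AUE
open scoped LaurentPolynomial

section ArM

variable {G : DGraph}

theorem ArM_path {ω : ℕ → G.V} {e : ℕ → G.E} (hs : ∀ i, G.s (e i) = ω i)
    (hr : ∀ i, G.r (e i) = ω (i + 1)) (n : ℕ) : ∀ i,
    IsPath G (ω i) ((List.range n).map fun k => e (i + k)) (ω (i + n)) := by
  induction n with
  | zero => intro i; exact rfl
  | succ n ih =>
    intro i
    rw [List.range_succ_eq_map, List.map_cons, List.map_map]
    refine ⟨by rw [add_zero]; exact hs i, ?_⟩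
    have h := ih (i + 1)
    have e1 : (fun k => e (i + 1 + k)) = (fun k => e (i + k)) ∘ Nat.succ := by
      funext k
      show e (i + 1 + k) = e (i + (k + 1))
      congr 1; omega
    rw [e1] at h
    have e2 : i + 1 + n = i + (n + 1) := by omega
    rw [e2] at h
    rw [add_zero, hr i]
    exact h

theorem ArM_path_end (l : List G.E) : ∀ (u v w : G.V), IsPath G u l v → IsPath G u l w → v = w := by
  induction l with
  | nil => intro u v w h1 h2; exact (show u = v from h1).symm.trans h2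
  | cons e l ih => intro u v w h1 h2; exact ih _ v w h1.2 h2.2

theorem ArM_ret {ω : ℕ → G.V} {e : ℕ → G.E} (hs : ∀ i, G.s (e i) = ω i)
    (hr : ∀ i, G.r (e i) = ω (i + 1)) {i n : ℕ} (hn : 0 < n) (h1 : ω (i + n) = ω i)
    (h2 : ∀ k, 0 < k → k < n → ω (i + k) ≠ ω i) :
    IsReturn G (ω i) ((List.range n).map fun k => e (i + k)) := by
  refine ⟨?_, ?_, ?_⟩
  · intro h
    have := congrArg List.length h
    simp at this
    omega
  · have := ArM_path hs hr n i
    rwa [h1] at this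
  · intro l₁ l₂ hl hl1 hl2 hp
    have hlen : l₁.length + l₂.length = n := by
      have := congrArg List.length hl
      simpa using this.symm
    have hp1 : 0 < l₁.length := List.length_pos_iff.2 hl1
    have hp2 : 0 < l₂.length := List.length_pos_iff.2 hl2
    have e1 : l₁ = (List.range l₁.length).map fun k => e (i + k) := by
      have h3 : l₁ = ((List.range n).map fun k => e (i + k)).take l₁.length := by
        rw [hl, List.take_left']
        rfl
      conv_lhs => rw [h3]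
      rw [← List.map_take, List.take_range]
      congr 2
      omega
    have h4 := ArM_path hs hr l₁.length i
    rw [← e1] at h4
    exact h2 l₁.length hp1 (by omega) (ArM_path_end _ _ _ _ h4 hp)

end ArM

theorem ar_main {G : DGraph} {M : Type} [Ring M] [Algebra ℂ M] {Θ : LFam G M} (hsp : Spn Θ) {ε : M}
    {ι : ℂ[T;T⁻¹] →ₙₐ[ℂ] M} (C : Cor ε ι) {K : Finset ℤ} {x : ℤ → M} (h0 : ∀ k ∉ K, x k = 0)
    (hc : ∀ k, x k = ∑ a ∈ K, x a * x (k - a)) (hx : ∑ a ∈ K, x a = ε)
    (hM : ∀ k, x k ∈ Mo Θ k) :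
    ∃ (w : G.V) (d : List G.E) (a b : M) (κ : ℂ), IsReturn G w d ∧
      (∀ e ∈ d, Θ.P (G.s e) = Θ.S e * Θ.T e) ∧ κ ≠ 0 ∧ ε * a = a ∧ a * Θ.P w = a ∧
      Θ.P w * b = b ∧ b * ε = b ∧ a * b = ε ∧ b * a = Θ.P w ∧
      (ι (LaurentPolynomial.T 1) = κ • (a * Sl Θ d w * b) ∨
        ι (LaurentPolynomial.T 1) = κ • (a * Tl Θ d w * b)) := by
  classical
  have hε : ε ≠ 0 := by
    intro h
    have h1 : ι 1 = ι 0 := by rw [C.one, map_zero, h]
    exact one_ne_zero (C.inj h1)
  have hk : ∃ k, x k ≠ 0 := by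
    by_contra hcon
    push Not at hcon
    apply hε
    rw [← hx]
    exact Finset.sum_eq_zero fun a _ => hcon a
  obtain ⟨k, hk⟩ := hk
  have hkI : InI ε (x k) := by
    have := mom h0 hc k
    rwa [hx] at this
  have hw : ∃ w, Θ.P w ≠ 0 ∧ InI ε (Θ.P w) := by
    rcases red hsp (hM k) hk with ⟨y, y', w, hw, hy⟩ | ⟨y, y', q, hq, hy⟩
    · exact ⟨w, hw, by rw [← hy]; exact (hkI.mul_left y).mul_right y'⟩
    · exact absurd (show InI ε q by rw [← hy]; exact (hkI.mul_left y).mul_right y')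
        fun h => mnl_false C hq h
  obtain ⟨W, ⟨w0, hw0⟩, hW, hWe⟩ := mini Θ C hw
  have hWe' : ∀ w : W, ∃ e : G.E, G.s e = w.1 ∧ G.r e ∈ W ∧ Θ.P w.1 = Θ.S e * Θ.T e := by
    intro w
    rcases hWe w.1 w.2 with h | h
    · exact absurd (hW w.1 w.2).2 fun h' => mnl_false C (noedge hsp (hW w.1 w.2).1 h) h'
    · exact h
  choose ed hed1 hed2 hed3 using hWe'
  let nx : W → W := fun w => ⟨G.r (ed w), hed2 w⟩
  let ω' : ℕ → W := fun n => nx^[n] ⟨w0, hw0⟩
  have hω' : ∀ n, ω' (n + 1) = nx (ω' n) := fun n => Function.iterate_succ_apply' nx n _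
  let ω : ℕ → G.V := fun n => (ω' n).1
  let e : ℕ → G.E := fun n => ed (ω' n)
  have hs : ∀ i, G.s (e i) = ω i := fun i => hed1 _
  have hr : ∀ i, G.r (e i) = ω (i + 1) := by
    intro i
    show G.r (ed (ω' i)) = (ω' (i + 1)).1
    rw [hω']
  have hq : ∀ i, Θ.P (ω i) = Θ.S (e i) * Θ.T (e i) := fun i => hed3 _
  have hni : ¬ Function.Injective ω := by
    intro hinj
    have h1 := injpath hsp hs hr hq hinj (hW _ (ω' 0).2).1
    exact mnl_false C h1 (hW _ (ω' 0).2).2
  have hex : ∃ i, ∃ n, 0 < n ∧ ω (i + n) = ω i := by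
    unfold Function.Injective at hni
    push Not at hni
    obtain ⟨i, j, hij, hne⟩ := hni
    rcases lt_or_gt_of_ne hne with h | h
    · exact ⟨i, j - i, by omega, by rw [show i + (j - i) = j by omega, hij]⟩
    · exact ⟨j, i - j, by omega, by rw [show j + (i - j) = i by omega, hij]⟩
  obtain ⟨i, hi⟩ := hex
  obtain ⟨hn0, hn1⟩ := Nat.find_spec hi
  set n := Nat.find hi with hn
  have hmin : ∀ k, 0 < k → k < n → ω (i + k) ≠ ω i := fun k hk0 hkn h =>
    Nat.find_min hi hkn ⟨hk0, h⟩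
  set w := ω i with hwdef
  set d : List G.E := (List.range n).map fun k => e (i + k) with hd
  have hret : IsReturn G w d := ArM_ret hs hr hn0 hn1 hmin
  have hqd : ∀ e' ∈ d, Θ.P (G.s e') = Θ.S e' * Θ.T e' := by
    intro e' he'
    rw [hd, List.mem_map] at he'
    obtain ⟨k, _, rfl⟩ := he'
    show Θ.P (G.s (e (i + k))) = _
    rw [hs]
    exact hq _
  have hPw : Θ.P w ≠ 0 := (hW _ (ω' i).2).1
  have hPI : InI ε (Θ.P w) := (hW _ (ω' i).2).2
  have hD1 : Sl Θ d w * Tl Θ d w = Θ.P w := Sl_Tl Θ hret.2.1 hqd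
  have hD2 : Tl Θ d w * Sl Θ d w = Θ.P w := Tl_Sl Θ hret.2.1
  have hcy := cyc hsp hret hqd
  have hPD : Θ.P w * Sl Θ d w = Sl Θ d w := P_Sl Θ hret.2.1
  have hDP : Sl Θ d w * Θ.P w = Sl Θ d w := Sl_P Θ d w
  have hPE : Θ.P w * Tl Θ d w = Tl Θ d w := P_Tl Θ d w
  have hEP : Tl Θ d w * Θ.P w = Tl Θ d w := Tl_P Θ hret.2.1
  have hcom : ComC (Θ.P w) := by
    -- all elements of the set commute with each other
    have key : ∀ a ∈ ({Θ.P w} ∪ {y | ∃ k : ℕ, y = Sl Θ d w ^ (k + 1) ∨ y = Tl Θ d w ^ (k + 1)} : Set M),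
        ∀ b ∈ ({Θ.P w} ∪ {y | ∃ k : ℕ, y = Sl Θ d w ^ (k + 1) ∨ y = Tl Θ d w ^ (k + 1)} : Set M),
        a * b = b * a := by
      have hDD : Commute (Sl Θ d w) (Tl Θ d w) := by
        show _ = _
        rw [hD1, hD2]
      have hPD' : Commute (Θ.P w) (Sl Θ d w) := by
        show _ = _
        rw [hPD, hDP]
      have hPE' : Commute (Θ.P w) (Tl Θ d w) := by
        show _ = _
        rw [hPE, hEP]
      rintro a (ha | ⟨k, ha | ha⟩) b (hb | ⟨k', hb | hb⟩)
      · rw [Set.mem_singleton_iff] at ha hb; rw [ha, hb]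
      · rw [Set.mem_singleton_iff] at ha; rw [ha, hb]; exact hPD'.pow_right _
      · rw [Set.mem_singleton_iff] at ha; rw [ha, hb]; exact hPE'.pow_right _
      · rw [Set.mem_singleton_iff] at hb; rw [ha, hb]; exact (hPD'.pow_right _).symm
      · rw [ha, hb]; exact (Commute.refl _).pow_pow _ _
      · rw [ha, hb]; exact hDD.pow_pow _ _
      · rw [Set.mem_singleton_iff] at hb; rw [ha, hb]; exact (hPE'.pow_right _).symm
      · rw [ha, hb]; exact (hDD.pow_pow _ _).symm
      · rw [ha, hb]; exact (Commute.refl _).pow_pow _ _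
    intro y z
    have h1 := hcy y
    have h2 := hcy z
    revert h1 h2
    generalize Θ.P w * y * Θ.P w = a
    generalize Θ.P w * z * Θ.P w = b
    intro h1 h2
    induction h1 using Submodule.span_induction with
    | mem a ha =>
      induction h2 using Submodule.span_induction with
      | mem b hb => exact key a ha b hb
      | zero => simp
      | add b b' _ _ ih ih' => rw [mul_add, add_mul, ih, ih']
      | smul c b _ ih => rw [mul_smul_comm, smul_mul_assoc, ih]
    | zero => simp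
    | add a a' _ _ ih ih' => rw [mul_add, add_mul, ih, ih']
    | smul c a _ ih => rw [mul_smul_comm, smul_mul_assoc, ih]
  obtain ⟨a, b, ha, ha', hb, hb', hab, hba⟩ := pid_ab C (Θ.PP w) hPw hPI hcom
  obtain ⟨κ, hκ, hu⟩ := unt C ha ha' hb hb' hab hba hD1 hD2 hPD hDP hPE hEP hcy
  exact ⟨w, d, a, b, κ, hret, hqd, hκ, ha, ha', hb, hb', hab, hba, hu⟩

end Pool.Agent.RGD
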