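import Pool.Agent.RGD.LaR
import Pool.Agent.RGD.ArI

/-!
# Bnd: an idempotent in the ideal of `ε` has only boundedly many orthogonal subidempotents

`p = p p p = ∑_{i < s} m_i n_i` with `m_i = p m_i ε`, `n_i = ε n_i p` (as in `MnF`). For `g = p g p` let
`A(g)` be the `s × s` matrix over `R = ℂ[T;T⁻¹]` with `ι (A(g) i j) = n_i g m_j` (`C.surj`:
`n_i g m_j = ε (n_i g m_j) ε`). By injectivity of `ι`: `A(g) A(g') = A(g g')`
(`∑_j n_i g m_j n_j g' m_l = n_i g p g' m_l`), and `A(g) ≠ 0` for `g ≠ 0` (`g = p g p = ∑ m_i (n_i g m_j) n_j`).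
So `A(g_1), …, A(g_t)` are nonzero orthogonal idempotent matrices over the domain `R`; view them over the
field `K = FractionRing R`. Let `v_k` be a nonzero column of `A(g_k)`: `A(g_l) v_k = δ_{lk} v_k`. The
`v_k` are linearly independent (apply `A(g_l)` to a relation), so `t ≤ s`
(`LinearIndependent.fintype_card_le_finrank`, `Module.finrank_fin_fun`).
-/

set_option linter.unusedSectionVars false

namespace Pool.Agent.RGD

open Pool.Agent.GHT Pool.Agent.AUE
open scoped LaurentPolynomial

theorem bnd {M : Type} [Ring M] [Algebra ℂ M] {ε : M} {ι : ℂ[T;T⁻¹] →ₙₐ[ℂ] M} (C : Cor ε ι)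
    {p : M} (hp : p * p = p) (hI : InI ε p) :
    ∃ s : ℕ, ∀ (t : ℕ) (g : Fin t → M), (∀ i, g i ≠ 0) → (∀ i, g i * g i = g i) →
      (∀ i j, i ≠ j → g i * g j = 0) → (∀ i, p * g i = g i) → (∀ i, g i * p = g i) → t ≤ s := by
  classical
  obtain ⟨s, m, n, hmn⟩ := hI
  have hεε : ε * ε = ε := by rw [← C.one, ← map_mul, one_mul]
  obtain ⟨m', hm'⟩ : ∃ m' : Fin s → M, ∀ i, m' i = p * m i * ε := ⟨_, fun _ => rfl⟩
  obtain ⟨n', hn'⟩ : ∃ n' : Fin s → M, ∀ i, n' i = ε * n i * p := ⟨_, fun _ => rfl⟩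
  have hmε : ∀ i, m' i * ε = m' i := fun i => by rw [hm', mul_assoc, hεε]
  have hεn : ∀ i, ε * n' i = n' i := fun i => by
    rw [hn', ← mul_assoc, ← mul_assoc, hεε]
  have hpsum : ∑ i, m' i * n' i = p := by
    have h1 : p * p * p = p := by rw [hp, hp]
    have h2 : p * (∑ i, m i * ε * n i) * p = ∑ i, m' i * n' i := by
      rw [Finset.mul_sum, Finset.sum_mul]
      refine Finset.sum_congr rfl (fun i _ => ?_)
      rw [hm', hn']
      calc p * (m i * ε * n i) * p = p * m i * ε * n i * p := by noncomm_ring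
        _ = p * m i * (ε * ε) * n i * p := by rw [hεε]
        _ = p * m i * ε * (ε * n i * p) := by noncomm_ring
    rw [← h2, ← hmn, h1]
  choose ρ hρ using C.surj
  obtain ⟨A, hA⟩ : ∃ A : M → Matrix (Fin s) (Fin s) ℂ[T;T⁻¹],
      ∀ g i j, ι (A g i j) = n' i * g * m' j := by
    refine ⟨fun g => Matrix.of fun i j => ρ (n' i * g * m' j), fun g i j => ?_⟩
    show ι (ρ (n' i * g * m' j)) = _
    rw [hρ]
    calc ε * (n' i * g * m' j) * ε = (ε * n' i) * g * (m' j * ε) := by noncomm_ring
      _ = n' i * g * m' j := by rw [hmε, hεn]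
  have hmul : ∀ g g' : M, g * p = g → A g * A g' = A (g * g') := by
    intro g g' hg
    ext1 i k
    apply C.inj
    rw [Matrix.mul_apply, map_sum, hA]
    have : ∀ j ∈ Finset.univ, ι (A g i j * A g' j k) = n' i * g * (m' j * n' j) * (g' * m' k) := by
      intro j _
      rw [map_mul, hA, hA]
      noncomm_ring
    rw [Finset.sum_congr rfl this, ← Finset.sum_mul, ← Finset.mul_sum, hpsum]
    calc n' i * g * p * (g' * m' k) = n' i * (g * p) * g' * m' k := by noncomm_ring
      _ = n' i * (g * g') * m' k := by rw [hg]; noncomm_ring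
  have hne : ∀ g : M, g ≠ 0 → p * g = g → g * p = g → ∃ i j, A g i j ≠ 0 := by
    intro g hg h1 h2
    by_contra hcon
    push Not at hcon
    apply hg
    have h3 : (∑ i, m' i * n' i) * g * (∑ j, m' j * n' j) = g := by rw [hpsum, h1, h2]
    rw [← h3, Finset.sum_mul, Finset.sum_mul]
    refine Finset.sum_eq_zero (fun i _ => ?_)
    rw [Finset.mul_sum]
    refine Finset.sum_eq_zero (fun j _ => ?_)
    calc m' i * n' i * g * (m' j * n' j) = m' i * (n' i * g * m' j) * n' j := by noncomm_ring
      _ = 0 := by rw [← hA, hcon, map_zero]; noncomm_ring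
  have hA0 : A 0 = 0 := by
    ext1 i j
    apply C.inj
    rw [hA, Matrix.zero_apply, map_zero]
    noncomm_ring
  refine ⟨s, fun t g h0 hid hort hpl hpr => ?_⟩
  choose a c hac using fun k => hne (g k) (h0 k) (hpl k) (hpr k)
  have hv : LinearIndependent ℂ[T;T⁻¹] (fun k : Fin t => fun i : Fin s => A (g k) i (c k)) := by
    rw [Fintype.linearIndependent_iff]
    intro w hw l
    have h1 : (A (g l)).mulVec (∑ k, w k • fun i : Fin s => A (g k) i (c k)) = 0 := by
      rw [hw, Matrix.mulVec_zero]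
    rw [Matrix.mulVec_sum] at h1
    have h2 : ∀ k, (A (g l)).mulVec (w k • fun i : Fin s => A (g k) i (c k)) =
        w k • fun i : Fin s => A (g l * g k) i (c k) := by
      intro k
      rw [Matrix.mulVec_smul]
      congr 1
      funext i
      rw [← hmul _ _ (hpr l), Matrix.mul_apply]
      rfl
    rw [Finset.sum_congr rfl (fun k _ => h2 k), Finset.sum_eq_single l] at h1
    · rw [hid] at h1
      have h3 := congrFun h1 (a l)
      rw [Pi.smul_apply, smul_eq_mul, Pi.zero_apply] at h3
      rcases mul_eq_zero.1 h3 with h4 | h4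
      · exact h4
      · exact absurd h4 (hac l)
    · intro k _ hkl
      rw [hort l k (Ne.symm hkl), hA0]
      funext i
      simp
    · intro h
      exact absurd (Finset.mem_univ l) h
  have := hv.fintype_card_le_finrank
  rwa [Fintype.card_fin, Module.finrank_fin_fun] at this

end Pool.Agent.RGD
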