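import Pool.Agent.RGD.ArB

/-!
# ComT: commutative corners, unitaries in corners

`comC_equiv`: `p' = a b`, `p = b a`: `p' y p' = p' p' y p' p' = a (b y' a) b`: precisely
`(p' y p')(p' z p') = a (p (b y a) p)(p (b z a) p) b` (use `p' = a b`, `p' p' = p'`, `p p = p`).
`unit_conj`: `(A z B)* (A z B) = B* z* (A* A) z B`, `A* A` and `z` are in `p D p`, so they commute:
`= B* z* z A* A B = B* p A* A B = (A B)* (A B) = p'`. The same for the other product with `B B*`.
`polar_one`: `p = star S * S = |κ|² c² (star Z * Z) c² = (|κ| c²)²`; `|κ| c² = star c₁ * c₁` with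
`c₁ = √|κ| c`; `ksq p = |κ| c²` (`ksq_unique`) and `ksq p = p` (`ksq_proj`), so `|κ| c² = p` and
`|κ| S = κ Z (|κ| c²) = κ Z p = κ Z`.
`star_Sl`: induction; `star (Sl l) = Tl l` for a Cuntz-Krieger family.
-/

set_option linter.unusedSectionVars false

namespace Pool.Agent.RGD

open Pool.Agent.GHT Pool.Agent.AUE
open scoped LaurentPolynomial

theorem comC_equiv {D : Type} [NonUnitalRing D] {p p' a b : D} (hp : p * p = p)
    (hp' : p' * p' = p') (hc : ComC p) (hab : a * b = p') (hba : b * a = p) : ComC p' := by
  have e : p' = a * p * b := by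
    rw [← hba, mul_assoc a, mul_assoc b, ← mul_assoc a, hab, hp']
  have key : ∀ y z : D, (p' * y * p') * (p' * z * p') =
      a * ((p * (b * y * a) * p) * (p * (b * z * a) * p)) * b := by
    intro y z
    have h1 : (p' * y * p') * (p' * z * p') = p' * y * p' * z * p' := by
      calc (p' * y * p') * (p' * z * p') = p' * y * (p' * p') * z * p' := by
            simp only [mul_assoc]
        _ = _ := by rw [hp']
    have h2 : (p * (b * y * a) * p) * (p * (b * z * a) * p) =
        p * (b * y * a) * p * (b * z * a) * p := by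
      calc (p * (b * y * a) * p) * (p * (b * z * a) * p) =
            p * (b * y * a) * (p * p) * (b * z * a) * p := by simp only [mul_assoc]
        _ = _ := by rw [hp]
    rw [h1, h2, e]
    simp only [mul_assoc]
  intro y z
  rw [key, key, hc]

theorem ComC.comm {D : Type} [NonUnitalRing D] {p y z : D} (hc : ComC p) (h1 : p * y = y)
    (h2 : y * p = y) (h3 : p * z = z) (h4 : z * p = z) : y * z = z * y := by
  have h := hc y z
  rwa [h1, h2, h3, h4] at h

theorem unit_conj {D : Type} [NonUnitalCStarAlgebra D] {p p' A B z : D} (hp : star p = p)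
    (hp' : star p' = p') (hc : ComC p) (hA : A * p = A) (hA' : p' * A = A) (hB : p * B = B)
    (hB' : B * p' = B) (hAB : A * B = p') (hz : p * z = z) (hz' : z * p = z)
    (h1 : star z * z = p) (h2 : z * star z = p) :
    star (A * z * B) * (A * z * B) = p' ∧ (A * z * B) * star (A * z * B) = p' := by
  have sA : p * star A = star A := by
    have h := congrArg star hA
    rwa [star_mul, hp] at h
  have sB : star B * p = star B := by
    have h := congrArg star hB
    rwa [star_mul, hp] at h
  have hpp : p' * p' = p' := by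
    calc p' * p' = p' * (A * B) := by rw [hAB]
      _ = p' * A * B := by rw [mul_assoc]
      _ = p' := by rw [hA', hAB]
  have hsAB : star B * star A = p' := by
    rw [← star_mul, hAB, hp']
  have c1 : star A * A * z = z * (star A * A) :=
    hc.comm (by rw [← mul_assoc, sA]) (by rw [mul_assoc, hA]) hz hz'
  have c2 : z * (B * star B) = B * star B * z :=
    hc.comm hz hz' (by rw [← mul_assoc, hB]) (by rw [mul_assoc, sB])
  rw [star_mul, star_mul]
  constructor
  · calc star B * (star z * star A) * (A * z * B)
        = star B * star z * (star A * A * z) * B := by simp only [mul_assoc]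
      _ = star B * (star z * z) * (star A * A) * B := by
          rw [c1]
          simp only [mul_assoc]
      _ = star B * (p * star A) * (A * B) := by
          rw [h1]
          simp only [mul_assoc]
      _ = p' := by rw [sA, hsAB, hAB, hpp]
  · calc A * z * B * (star B * (star z * star A))
        = A * (z * (B * star B)) * (star z * star A) := by simp only [mul_assoc]
      _ = A * B * star B * (z * star z) * star A := by
          rw [c2]
          simp only [mul_assoc]
      _ = A * B * (star B * p) * star A := by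
          rw [h2]
          simp only [mul_assoc]
      _ = p' := by rw [sB, mul_assoc, hsAB, hAB, hpp]

theorem polar_one {D : Type} [NonUnitalCStarAlgebra D] {p Z S c : D} {κ : ℂ} (hp : star p = p)
    (hpp : p * p = p) (hZ : Z * p = Z) (h1 : star Z * Z = p) (h3 : star S * S = p)
    (hc : star c = c) (hc1 : p * c = c) (hc2 : c * p = c) (h : S = κ • (Z * (c * c))) :
    ((‖κ‖ : ℝ) : ℂ) • S = κ • Z := by
  have hz : (star κ * κ : ℂ) = ((‖κ‖ : ℝ) : ℂ) * ((‖κ‖ : ℝ) : ℂ) := by
    have h4 := Complex.conj_mul' κ
    rw [sq] at h4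
    exact h4
  have hsc : star (c * c) = c * c := by rw [star_mul, hc]
  have hcp : p * (c * c) = c * c := by rw [← mul_assoc, hc1]
  have hSS : star S * S = (star κ * κ) • ((c * c) * (c * c)) := by
    rw [h, star_smul, star_mul, hsc, smul_mul_smul_comm]
    congr 1
    calc c * c * star Z * (Z * (c * c)) = c * c * ((star Z * Z) * (c * c)) := by
          simp only [mul_assoc]
      _ = _ := by rw [h1, hcp]
  -- `q = |κ| c²`
  have hc₁ : star (((Real.sqrt ‖κ‖ : ℝ) : ℂ) • c) * (((Real.sqrt ‖κ‖ : ℝ) : ℂ) • c) =
      ((‖κ‖ : ℝ) : ℂ) • (c * c) := by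
    rw [star_smul, hc, smul_mul_smul_comm]
    congr 1
    rw [Complex.star_def, Complex.conj_ofReal, ← Complex.ofReal_mul,
      Real.mul_self_sqrt (norm_nonneg κ)]
  have hqq : (((‖κ‖ : ℝ) : ℂ) • (c * c)) * (((‖κ‖ : ℝ) : ℂ) • (c * c)) = p := by
    rw [smul_mul_smul_comm, ← hz, ← hSS, h3]
  have hpp' : p * star p = p := by rw [hp, hpp]
  have k1 : ksq p = ((‖κ‖ : ℝ) : ℂ) • (c * c) := by
    rw [← hc₁]
    apply ksq_unique
    rw [hc₁, hqq, hpp']
  have k2 : ksq p = p := ksq_proj p p hpp' hp hpp
  rw [k1] at k2
  rw [h, smul_comm, ← mul_smul_comm, k2, hZ]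

theorem star_Sl {G : DGraph} {D : Type} [NonUnitalCStarAlgebra D] (X : CKFam G D) (l : List G.E)
    (v : G.V) : star (Sl X.toL l v) = Tl X.toL l v := by
  induction l with
  | nil => exact X.p_star v
  | cons e l ih =>
    show star (X.s e * Sl X.toL l v) = Tl X.toL l v * star (X.s e)
    rw [star_mul, ih]

end Pool.Agent.RGD
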