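import Pool.Agent.GHT.MainC
import Pool.Agent.AUE.CondK

/-!
# RGD: rigidity of cycles without a second return path (definitions)

`Θ : LFam G M` is a Leavitt family of the graph `G` in a ring `M`.
-/

set_option linter.unusedSectionVars false

namespace Pool.Agent.RGD

open Pool.Agent.GHT Pool.Agent.AUE
open scoped LaurentPolynomial

/-- `S_{e_1} ⋯ S_{e_n} P_v` for `l = [e_1, …, e_n]`. -/
def Sl {G : DGraph} {M : Type} [NonUnitalRing M] (Θ : LFam G M) (l : List G.E) (v : G.V) : M :=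
  l.foldr (fun e y => Θ.S e * y) (Θ.P v)

/-- `P_v T_{e_n} ⋯ T_{e_1}` for `l = [e_1, …, e_n]`. -/
def Tl {G : DGraph} {M : Type} [NonUnitalRing M] (Θ : LFam G M) (l : List G.E) (v : G.V) : M :=
  l.foldr (fun e y => y * Θ.T e) (Θ.P v)

section alg

variable {G : DGraph} {M : Type} [Ring M] [Algebra ℂ M]

/-- The span of the monomials `S_l T_l'` of degree `|l| - |l'| = k`. -/
def Mo (Θ : LFam G M) (k : ℤ) : Submodule ℂ M :=
  Submodule.span ℂ {y | ∃ (l l' : List G.E) (u : G.V), (l.length : ℤ) - l'.length = k ∧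
    y = Sl Θ l u * Tl Θ l' u}

/-- `M` is spanned by `1` and the monomials. -/
def Spn (Θ : LFam G M) : Prop := ∀ y : M, ∃ c : ℂ, y - c • (1 : M) ∈ ⨆ k, Mo Θ k

/-- `y` is in the two-sided ideal generated by `x`. -/
def InI (x y : M) : Prop := ∃ (s : ℕ) (m n : Fin s → M), y = ∑ i, m i * x * n i

/-- The corner `ε M ε` is the algebra of Laurent polynomials, by `ι`. -/
structure Cor (ε : M) (ι : ℂ[T;T⁻¹] →ₙₐ[ℂ] M) : Prop where
  one : ι 1 = ε
  inj : Function.Injective ι
  surj : ∀ y, ∃ r, ι r = ε * y * ε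

/-- `q` is a nonzero idempotent with `q M q = ℂ q`. -/
def Mnl (q : M) : Prop := q ≠ 0 ∧ q * q = q ∧ ∀ z, ∃ c : ℂ, q * z * q = c • q

/-- The Leavitt family `P`, `S T`, `T T⁻¹` in the Laurent polynomials over `M`. -/
noncomputable def twist (Θ : LFam G M) : LFam G M[T;T⁻¹] where
  P v := AddMonoidAlgebra.single 0 (Θ.P v)
  S e := AddMonoidAlgebra.single 1 (Θ.S e)
  T e := AddMonoidAlgebra.single (-1) (Θ.T e)
  PP v := by rw [AddMonoidAlgebra.single_mul_single, Θ.PP, add_zero]
  PPo v w h := by rw [AddMonoidAlgebra.single_mul_single, Θ.PPo v w h]; simp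
  PS e := by rw [AddMonoidAlgebra.single_mul_single, Θ.PS, zero_add]
  SP e := by rw [AddMonoidAlgebra.single_mul_single, Θ.SP, add_zero]
  PT e := by rw [AddMonoidAlgebra.single_mul_single, Θ.PT, zero_add]
  TP e := by rw [AddMonoidAlgebra.single_mul_single, Θ.TP, add_zero]
  TS e := by rw [AddMonoidAlgebra.single_mul_single, Θ.TS]; rfl
  TSo e f h := by rw [AddMonoidAlgebra.single_mul_single, Θ.TSo e f h]; simp
  CK v h := by
    have h1 : ∀ e : G.E, (AddMonoidAlgebra.single (1 : ℤ) (Θ.S e) : M[T;T⁻¹]) *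
        AddMonoidAlgebra.single (-1 : ℤ) (Θ.T e) =
        AddMonoidAlgebra.singleAddHom (0 : ℤ) (Θ.S e * Θ.T e) := by
      intro e
      rw [AddMonoidAlgebra.single_mul_single]; rfl
    rw [Finset.sum_congr rfl (fun e _ => h1 e), ← map_sum, ← Θ.CK v h]
    rfl

end alg

/-! ## The quotient by the exits of a cycle -/

/-- The relations `P_{s(e)} = S_e T_e` for the edges `e ∈ l`. -/
inductive QRel (G : DGraph) (l : List G.E) : LU G → LU G → Prop
  | mk (e : G.E) (he : e ∈ l) :
    QRel G l (gen G (Gen.vert (G.s e))) (gen G (Gen.edge e) * gen G (Gen.ghost e))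

/-- The quotient of (the unitization of) `L(G)` by the relations `P_{s(e)} = S_e T_e`, `e ∈ l`. -/
abbrev QL (G : DGraph) (l : List G.E) : Type := RingQuot (QRel G l)

/-- The canonical map `L(G) → QL G l`. -/
noncomputable def qcan (G : DGraph) (l : List G.E) : Leavitt G →ₙₐ[ℂ] QL G l where
  toFun x := RingQuot.mkAlgHom ℂ (QRel G l) (x : LU G)
  map_smul' c x := map_smul (RingQuot.mkAlgHom ℂ (QRel G l)) c (x : LU G)
  map_zero' := map_zero (RingQuot.mkAlgHom ℂ (QRel G l))
  map_add' x y := map_add (RingQuot.mkAlgHom ℂ (QRel G l)) (x : LU G) (y : LU G)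
  map_mul' x y := map_mul (RingQuot.mkAlgHom ℂ (QRel G l)) (x : LU G) (y : LU G)

/-- The canonical family in `QL G l`. -/
noncomputable def qfam (G : DGraph) (l : List G.E) : LFam G (QL G l) :=
  LFam.map (B := Leavitt G) (D := QL G l) (canL G) (qcan G l : Leavitt G →ₙ+* QL G l)

/-- The `F`-family in `QL E l` given by `g : L(F) → L(E)`. -/
noncomputable def qpull {E F : DGraph} (l : List E.E) (g : Leavitt F →ₙₐ[ℂ] Leavitt E) :
    LFam F (QL E l) :=
  LFam.map (B := Leavitt F) (D := QL E l) (canL F)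
    (((qcan E l).comp g : Leavitt F →ₙₐ[ℂ] QL E l) : Leavitt F →ₙ+* QL E l)

/-! ## The straightening -/

section str

variable {G : DGraph} [Encodable G.V] [Encodable G.E] {D : Type} [NonUnitalCStarAlgebra D]

/-- The equivalence from `Θ.P v` to `Θ.str.p v`. -/
noncomputable def UU (Θ : LFam G D) (v : G.V) : D := Θ.vF.GU (fun _ => 1) (Encodable.encode v)

/-- The equivalence from `Θ.str.p v` to `Θ.P v`. -/
noncomputable def WW (Θ : LFam G D) (v : G.V) : D := Θ.vF.GW (fun _ => 1) (Encodable.encode v)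

theorem WW_UU (Θ : LFam G D) (v : G.V) : WW Θ v * UU Θ v = Θ.P v := by
  have := Θ.vF.GW_GU_self (fun _ => 1) (Encodable.encode v)
  unfold WW UU
  rw [this]
  exact extN_encode Θ.P v

theorem UU_WW (Θ : LFam G D) (v : G.V) : UU Θ v * WW Θ v = Θ.str.p v := rfl

theorem UU_P (Θ : LFam G D) (v : G.V) : UU Θ v * Θ.P v = UU Θ v := by
  have := Θ.vF.GU_Q (fun _ => 1) (Encodable.encode v)
  have h2 : Θ.vF.Q (Encodable.encode v) = Θ.P v := extN_encode Θ.P v
  rwa [h2] at this

theorem P_WW (Θ : LFam G D) (v : G.V) : Θ.P v * WW Θ v = WW Θ v := by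
  have := Θ.vF.Q_GW (fun _ => 1) (Encodable.encode v)
  have h2 : Θ.vF.Q (Encodable.encode v) = Θ.P v := extN_encode Θ.P v
  rwa [h2] at this

end str

/-- The corner of the idempotent `p` is commutative. -/
def ComC {D : Type} [NonUnitalRing D] (p : D) : Prop :=
  ∀ y z : D, (p * y * p) * (p * z * p) = (p * z * p) * (p * y * p)

end Pool.Agent.RGD
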