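import Pool.Agent.RGD.ArB

/-!
# Idm: the exits of a cycle are mapped to zero after straightening
-/

set_option linter.unusedSectionVars false

namespace Pool.Agent.RGD

open Pool.Agent.GHT Pool.Agent.AUE
open scoped LaurentPolynomial

theorem lift_str_zero {G : DGraph} [Encodable G.V] [Encodable G.E] {D : Type}
    [NonUnitalCStarAlgebra D] (Θ : LFam G D) {x : Leavitt G} (hx : x * x = x) :
    Θ.lift x = 0 ↔ Θ.str.toL.lift x = 0 :=
  (algHomotopic_of_paths Θ.path_str).idem (NonUnitalStarAlgHom.id ℂ D) hx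

theorem idm_gen {R : Type} [NonUnitalRing R] [Module ℂ R] {p s t r : R} (h1 : p * p = p)
    (h2 : p * s = s) (h3 : t * p = t) (h4 : t * s = r) (h5 : s * r = s) :
    ∃ q : R, q * q = q ∧ ∀ (N : Type) [NonUnitalRing N] [Module ℂ N] (φ : R →ₙₐ[ℂ] N),
      φ q = φ p - φ s * φ t := by
  refine ⟨p - s * t, ?_, ?_⟩
  · have : (p - s * t) * (p - s * t) = p * p - (p * s) * t - s * (t * p) + s * (t * s) * t := by
      noncomm_ring
    rw [this, h1, h2, h3, h4, h5]; abel
  · intro N _ _ φ
    rw [map_sub, map_mul]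

theorem pull_str_q {E F : DGraph} [Encodable E.V] [Encodable E.E] [Encodable F.V] [Encodable F.E]
    {f : Leavitt E →ₙₐ[ℂ] Leavitt F} {g : Leavitt F →ₙₐ[ℂ] Leavitt E} (hgf : ∀ x, g (f x) = x)
    {D : Type} [NonUnitalCStarAlgebra D] (X : CKFam E D) {e : E.E}
    (he : X.p (E.s e) = X.s e * star (X.s e)) :
    (pull f (pull g X.toL).str.toL).P (E.s e) =
      (pull f (pull g X.toL).str.toL).S e * (pull f (pull g X.toL).str.toL).T e := by
  obtain ⟨q, hqq, hq⟩ := idm_gen (R := Leavitt E) ((canL E).PP (E.s e)) ((canL E).PS e)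
    ((canL E).TP e) ((canL E).TS e) ((canL E).SP e)
  have hfq : f q * f q = f q := by rw [← map_mul, hqq]
  have h6 : (pull g X.toL).lift (f q) = 0 := by
    rw [pull_lift, NonUnitalAlgHom.comp_apply, hgf]
    refine (hq D X.toL.lift).trans ?_
    have e1 : X.toL.lift ((canL E).P (E.s e)) = X.toL.P (E.s e) := X.toL.lift_vert _
    have e2 : X.toL.lift ((canL E).S e) = X.toL.S e := X.toL.lift_edge _
    have e3 : X.toL.lift ((canL E).T e) = X.toL.T e := X.toL.lift_ghost _
    rw [e1, e2, e3]
    exact sub_eq_zero.2 he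
  have h7 := (lift_str_zero (pull g X.toL) hfq).1 h6
  have h8 : (pull f (pull g X.toL).str.toL).lift q = 0 := by
    rw [pull_lift]; exact h7
  have h9 := (hq D (pull f (pull g X.toL).str.toL).lift).symm.trans h8
  have e1 : (pull f (pull g X.toL).str.toL).lift ((canL E).P (E.s e)) =
    (pull f (pull g X.toL).str.toL).P (E.s e) := (pull f (pull g X.toL).str.toL).lift_vert _
  have e2 : (pull f (pull g X.toL).str.toL).lift ((canL E).S e) =
    (pull f (pull g X.toL).str.toL).S e := (pull f (pull g X.toL).str.toL).lift_edge _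
  have e3 : (pull f (pull g X.toL).str.toL).lift ((canL E).T e) =
    (pull f (pull g X.toL).str.toL).T e := (pull f (pull g X.toL).str.toL).lift_ghost _
  rw [e1, e2, e3] at h9
  exact sub_eq_zero.1 h9

end Pool.Agent.RGD
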