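import Pool.Agent.RGD.Defs

/-!
# LaR: facts on the Laurent polynomials `R = ℂ[T;T⁻¹]`

PROOFS. `lp_pid`: `R` is the localization `IsLocalization.Away (X : ℂ[X]) R` (instance
`LaurentPolynomial.isLocalization`); for an ideal `I` of `R` the ideal `I.comap (algebraMap ℂ[X] R)` is
generated by one polynomial `p`, and `I` is generated by its image (`IsLocalization.map_comap`).
`lp_unit`: let `r * s = 1`. By `exists_T_pow` there are polynomials `f, g` and `m, n` with
`toLaurent f = r * T m`, `toLaurent g = s * T n`, so `toLaurent (f * g) = T (m + n) = toLaurent (X^(m+n))`,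
`f * g = X^(m+n)`, and so `f = c X^j` (`X` is prime: `(dvd_prime_pow Polynomial.prime_X ..)`, units of
`ℂ[X]` are constants), `r = c T (j - m)`.
`lp_gen`: compare the coefficient at `1`: if `k ∤ 1` all elements of the span have coefficient `0` at `1`.
`lp_idem`: `R` is noetherian by `lp_pid`, `Ideal.isIdempotentElem_iff_eq_bot_or_top`.
-/

namespace Pool.Agent.RGD

open scoped LaurentPolynomial

theorem lp_pid : IsPrincipalIdealRing ℂ[T;T⁻¹] := by
  constructor
  intro I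
  have h1 : (I.comap (algebraMap (Polynomial ℂ) ℂ[T;T⁻¹])).IsPrincipal :=
    IsPrincipalIdealRing.principal _
  obtain ⟨p, hp⟩ := h1
  have h2 : Ideal.map (algebraMap (Polynomial ℂ) ℂ[T;T⁻¹])
      (I.comap (algebraMap (Polynomial ℂ) ℂ[T;T⁻¹])) = I :=
    IsLocalization.map_under (Submonoid.powers (Polynomial.X : Polynomial ℂ)) ℂ[T;T⁻¹] I
  refine ⟨⟨algebraMap (Polynomial ℂ) ℂ[T;T⁻¹] p, ?_⟩⟩
  rw [← h2, hp]
  change Ideal.map _ (Ideal.span {p}) = Ideal.span {_}
  rw [Ideal.map_span, Set.image_singleton]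

theorem lp_idem (I : Ideal ℂ[T;T⁻¹]) (h : I * I = I) : I = ⊥ ∨ I = ⊤ := by
  have := lp_pid
  have hfg : I.FG := (isNoetherianRing_iff_ideal_fg _).1 inferInstance I
  exact (Ideal.isIdempotentElem_iff_eq_bot_or_top I hfg).1 h

theorem lp_unit {r s : ℂ[T;T⁻¹]} (h : r * s = 1) :
    ∃ (κ : ℂ) (k : ℤ), κ ≠ 0 ∧ r = κ • (LaurentPolynomial.T k : ℂ[T;T⁻¹]) := by
  obtain ⟨m, f, hf⟩ := LaurentPolynomial.exists_T_pow r
  obtain ⟨n, g, hg⟩ := LaurentPolynomial.exists_T_pow s
  have h1 : f * g = Polynomial.X ^ (m + n) := by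
    apply Polynomial.toLaurent_injective
    rw [map_mul, hf, hg, Polynomial.toLaurent_X_pow]
    calc r * LaurentPolynomial.T (m : ℤ) * (s * LaurentPolynomial.T (n : ℤ))
        = (r * s) * (LaurentPolynomial.T (m : ℤ) * LaurentPolynomial.T (n : ℤ)) := by ring
      _ = LaurentPolynomial.T ((m + n : ℕ) : ℤ) := by
        rw [h, one_mul, ← LaurentPolynomial.T_add]
        push_cast
        rfl
  have h2 : f ∣ Polynomial.X ^ (m + n) := ⟨g, h1.symm⟩
  obtain ⟨j, hj, u, hu⟩ := (dvd_prime_pow Polynomial.prime_X _).1 h2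
  obtain ⟨c, hc, hcu⟩ := Polynomial.isUnit_iff.1 (u⁻¹).isUnit
  have hf2 : f = Polynomial.X ^ j * Polynomial.C c := by
    rw [hcu, ← hu, mul_assoc, Units.mul_inv, mul_one]
  refine ⟨c, (j : ℤ) - m, hc.ne_zero, ?_⟩
  have h3 : r = Polynomial.toLaurent f * LaurentPolynomial.T (-(m : ℤ)) := by
    rw [hf, mul_assoc, ← LaurentPolynomial.T_add, add_neg_cancel, LaurentPolynomial.T_zero, mul_one]
  rw [h3, hf2, map_mul, Polynomial.toLaurent_X_pow, Polynomial.toLaurent_C,
    LaurentPolynomial.smul_eq_C_mul, sub_eq_add_neg, LaurentPolynomial.T_add]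
  ring

theorem lp_gen {k : ℤ} (h : (LaurentPolynomial.T 1 : ℂ[T;T⁻¹]) ∈
    Submodule.span ℂ (Set.range fun j : ℤ => (LaurentPolynomial.T (k * j) : ℂ[T;T⁻¹]))) :
    k = 1 ∨ k = -1 := by
  by_contra hk
  have h1 : ∀ x ∈ Submodule.span ℂ (Set.range fun j : ℤ =>
      (LaurentPolynomial.T (k * j) : ℂ[T;T⁻¹])), x.coeff 1 = 0 := by
    intro x hx
    induction hx using Submodule.span_induction with
    | mem x hx =>
      obtain ⟨j, rfl⟩ := hx
      dsimp only
      rw [LaurentPolynomial.T_apply, if_neg]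
      intro h2
      exact hk (Int.isUnit_iff.1 (IsUnit.of_mul_eq_one _ h2))
    | zero => rfl
    | add x y _ _ hx hy =>
      change x.coeff 1 + y.coeff 1 = 0
      rw [hx, hy, add_zero]
    | smul a x _ hx =>
      change a * x.coeff 1 = 0
      rw [hx, mul_zero]
  have h2 := h1 _ h
  rw [LaurentPolynomial.T_apply, if_pos rfl] at h2
  exact one_ne_zero h2

theorem lp_T_ne (c : ℂ) : (LaurentPolynomial.T 1 : ℂ[T;T⁻¹]) ≠ c • 1 := by
  intro h
  have h1 : (LaurentPolynomial.T 1 : ℂ[T;T⁻¹]).coeff 1 = (c • (1 : ℂ[T;T⁻¹])).coeff 1 := by rw [h]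
  rw [LaurentPolynomial.T_apply, if_pos rfl, ← LaurentPolynomial.T_zero] at h1
  have h2 : (c • (LaurentPolynomial.T 0 : ℂ[T;T⁻¹])).coeff 1 = c * 0 := by
    change c * (LaurentPolynomial.T 0 : ℂ[T;T⁻¹]).coeff 1 = _
    rw [LaurentPolynomial.T_apply, if_neg (by norm_num)]
  rw [h2, mul_zero] at h1
  exact one_ne_zero h1

end Pool.Agent.RGD
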