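import Pool.Agent.RGD.ArI

/-!
# Mom: the homogeneous components of an idempotent are in the ideal which it generates

Let `m n = ∑ k ∈ K, (k : ℂ)^n • x k` (`m 0 = ε`). For `a, b ∈ K`: with a finite set `K'` containing `K` and all
`a + b`, `m n = ∑ k ∈ K', k^n • x k = ∑ k ∈ K', k^n • ∑ a ∈ K, x a * x (k - a) =
∑ a ∈ K, ∑ b ∈ K, (a + b)^n • (x a * x b)` (for fixed `a` substitute `k = a + b`; `x b = 0` for `b ∉ K`)
`= ∑ l ≤ n, (n choose l) • (m l * m (n - l))` (binomial theorem). Strong induction: `m 0 = ε`; for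
`n ≥ 1` the terms `l = 0` and `l = n` are `ε * m n` and `m n * ε`, in the others `m l` with `0 < l < n`
is in the ideal. So all `m n` are in the ideal. For `k₀ ∈ K` let `p` be the Lagrange polynomial with
`p k₀ = 1`, `p k = 0` for `k ∈ K \ {k₀}` (`Lagrange.basis`, or the product of the `(X - k)/(k₀ - k)`):
`x k₀ = ∑ k ∈ K, p(k) • x k = ∑ n, (coeff p n) • m n`.
-/

set_option linter.unusedSectionVars false

namespace Pool.Agent.RGD

open Pool.Agent.GHT Pool.Agent.AUE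
open scoped LaurentPolynomial

section Mom_aux

variable {M : Type} [Ring M] [Algebra ℂ M] {K : Finset ℤ} {x : ℤ → M}

theorem Mom_rec (h0 : ∀ k ∉ K, x k = 0) (hc : ∀ k, x k = ∑ a ∈ K, x a * x (k - a)) (g : ℤ → ℂ) :
    ∑ k ∈ K, g k • x k = ∑ a ∈ K, ∑ b ∈ K, g (a + b) • (x a * x b) := by
  classical
  have hK : ∀ a ∈ K, ∀ b ∈ K, a + b ∈ K ∪ (K ×ˢ K).image (fun p : ℤ × ℤ => p.1 + p.2) := by
    intro a ha b hb
    exact Finset.mem_union_right _ (Finset.mem_image.2 ⟨(a, b), Finset.mem_product.2 ⟨ha, hb⟩, rfl⟩)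
  have h1 : ∑ k ∈ K, g k • x k =
      ∑ k ∈ K ∪ (K ×ˢ K).image (fun p : ℤ × ℤ => p.1 + p.2), g k • x k := by
    refine Finset.sum_subset Finset.subset_union_left ?_
    intro k _ hk
    rw [h0 k hk, smul_zero]
  have h2 : ∑ k ∈ K ∪ (K ×ˢ K).image (fun p : ℤ × ℤ => p.1 + p.2), g k • x k =
      ∑ k ∈ K ∪ (K ×ˢ K).image (fun p : ℤ × ℤ => p.1 + p.2), ∑ a ∈ K, g k • (x a * x (k - a)) := by
    refine Finset.sum_congr rfl ?_
    intro k _
    conv_lhs => rw [hc k]
    rw [Finset.smul_sum]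
  rw [h1, h2, Finset.sum_comm]
  refine Finset.sum_congr rfl ?_
  intro a ha
  have h3 : ∑ b ∈ K, g (a + b) • (x a * x b) =
      ∑ k ∈ K.map (addLeftEmbedding a), g k • (x a * x (k - a)) := by
    rw [Finset.sum_map]
    refine Finset.sum_congr rfl ?_
    intro b _
    simp
  rw [h3]
  symm
  refine Finset.sum_subset ?_ ?_
  · intro k hk
    obtain ⟨b, hb, rfl⟩ := Finset.mem_map.1 hk
    exact hK a ha b hb
  · intro k _ hk
    have h4 : k - a ∉ K := by
      intro h5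
      apply hk
      refine Finset.mem_map.2 ⟨k - a, h5, ?_⟩
      simp
    rw [h0 _ h4, mul_zero, smul_zero]

theorem Mom_binom (h0 : ∀ k ∉ K, x k = 0) (hc : ∀ k, x k = ∑ a ∈ K, x a * x (k - a)) (n : ℕ) :
    ∑ k ∈ K, ((k : ℂ) ^ n) • x k = ∑ m ∈ Finset.range (n + 1), (n.choose m : ℂ) •
      ((∑ k ∈ K, ((k : ℂ) ^ m) • x k) * ∑ k ∈ K, ((k : ℂ) ^ (n - m)) • x k) := by
  rw [Mom_rec h0 hc (fun k => (k : ℂ) ^ n)]
  have h1 : ∀ m : ℕ, (n.choose m : ℂ) •
      ((∑ k ∈ K, ((k : ℂ) ^ m) • x k) * ∑ k ∈ K, ((k : ℂ) ^ (n - m)) • x k) =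
      ∑ a ∈ K, ∑ b ∈ K, ((n.choose m : ℂ) * ((a : ℂ) ^ m * (b : ℂ) ^ (n - m))) • (x a * x b) := by
    intro m
    rw [Finset.sum_mul, Finset.smul_sum]
    refine Finset.sum_congr rfl ?_
    intro a _
    rw [Finset.mul_sum, Finset.smul_sum]
    refine Finset.sum_congr rfl ?_
    intro b _
    rw [smul_mul_smul_comm, smul_smul]
  simp only [h1]
  conv_rhs => rw [Finset.sum_comm]
  refine Finset.sum_congr rfl ?_
  intro a _
  conv_rhs => rw [Finset.sum_comm]
  refine Finset.sum_congr rfl ?_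
  intro b _
  rw [← Finset.sum_smul]
  congr 1
  show (((a + b : ℤ)) : ℂ) ^ n = _
  rw [Int.cast_add, add_pow]
  refine Finset.sum_congr rfl ?_
  intro m _
  ring

theorem Mom_mem (h0 : ∀ k ∉ K, x k = 0) (hc : ∀ k, x k = ∑ a ∈ K, x a * x (k - a)) (n : ℕ) :
    InI (∑ a ∈ K, x a) (∑ k ∈ K, ((k : ℂ) ^ n) • x k) := by
  induction n using Nat.strong_induction_on with
  | _ n ih =>
    have hz : ∑ k ∈ K, ((k : ℂ) ^ 0) • x k = ∑ a ∈ K, x a := by
      refine Finset.sum_congr rfl ?_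
      intro a _
      rw [pow_zero, one_smul]
    rw [Mom_binom h0 hc n]
    refine InI.sum _ ?_
    intro m hm
    refine InI.smul ?_ _
    rcases Nat.lt_or_ge m n with hlt | hge
    · exact InI.mul_right (ih m hlt) _
    · have hmn : m = n := by
        have := Finset.mem_range.1 hm
        omega
      rw [hmn, Nat.sub_self, hz]
      exact InI.mul_left (InI.refl _) _

end Mom_aux

theorem mom {M : Type} [Ring M] [Algebra ℂ M] {K : Finset ℤ} {x : ℤ → M} (h0 : ∀ k ∉ K, x k = 0)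
    (hc : ∀ k, x k = ∑ a ∈ K, x a * x (k - a)) (k : ℤ) : InI (∑ a ∈ K, x a) (x k) := by
  classical
  by_cases hk : k ∈ K
  · obtain ⟨p, hp⟩ : ∃ p : Polynomial ℂ,
        p = ∏ j ∈ K.erase k, (Polynomial.X - Polynomial.C (j : ℂ)) := ⟨_, rfl⟩
    have hev : ∀ z : ℂ, p.eval z = ∏ j ∈ K.erase k, (z - (j : ℂ)) := by
      intro z
      rw [hp, Polynomial.eval_prod]
      refine Finset.prod_congr rfl ?_
      intro j _
      rw [Polynomial.eval_sub, Polynomial.eval_X, Polynomial.eval_C]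
    have hk0 : p.eval (k : ℂ) ≠ 0 := by
      rw [hev, Finset.prod_ne_zero_iff]
      intro j hj h
      have h1 : (k : ℂ) = (j : ℂ) := sub_eq_zero.1 h
      exact (Finset.mem_erase.1 hj).1 (by exact_mod_cast h1.symm)
    have h1 : ∑ j ∈ K, p.eval (j : ℂ) • x j = p.eval (k : ℂ) • x k := by
      refine Finset.sum_eq_single_of_mem k hk ?_
      intro j hj hjk
      have : p.eval (j : ℂ) = 0 := by
        rw [hev]
        exact Finset.prod_eq_zero (Finset.mem_erase.2 ⟨hjk, hj⟩) (sub_self _)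
      rw [this, zero_smul]
    have h2 : ∑ j ∈ K, p.eval (j : ℂ) • x j =
        ∑ n ∈ Finset.range (p.natDegree + 1), p.coeff n • ∑ j ∈ K, ((j : ℂ) ^ n) • x j := by
      have h3 : ∀ n : ℕ, p.coeff n • ∑ j ∈ K, ((j : ℂ) ^ n) • x j =
          ∑ j ∈ K, (p.coeff n * (j : ℂ) ^ n) • x j := by
        intro n
        rw [Finset.smul_sum]
        refine Finset.sum_congr rfl ?_
        intro j _
        rw [smul_smul]
      simp only [h3]
      rw [Finset.sum_comm]
      refine Finset.sum_congr rfl ?_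
      intro j _
      rw [← Finset.sum_smul, Polynomial.eval_eq_sum_range]
    have h4 : x k = (p.eval (k : ℂ))⁻¹ •
        ∑ n ∈ Finset.range (p.natDegree + 1), p.coeff n • ∑ j ∈ K, ((j : ℂ) ^ n) • x j := by
      rw [← h2, h1, smul_smul, inv_mul_cancel₀ hk0, one_smul]
    rw [h4]
    refine InI.smul ?_ _
    refine InI.sum _ ?_
    intro n _
    exact InI.smul (Mom_mem h0 hc n) _
  · rw [h0 k hk]
    exact InI.zero _

end Pool.Agent.RGD
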