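import Pool.Agent.RGD.QHm
import Pool.Agent.RGD.Cyc

/-!
# QCo: the corner of `QL G l` at a return path is the algebra of Laurent polynomials

`Θ = qfam G l`, `ε = Θ.P v`, `D = Sl Θ l v`, `D' = Tl Θ l v`: `D D' = ε = D' D`. `U = D + (1 - ε)` is
invertible and commutes with `ε`. `ι r = ε * τ r`. `surj`: `cyc`. `inj`: by `exists_qhom` for the family
`twist Θ`.
-/

set_option linter.unusedSectionVars false

namespace Pool.Agent.RGD

open Pool.Agent.GHT Pool.Agent.AUE
open scoped LaurentPolynomial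

section gen

variable {M : Type} [Ring M] [Algebra ℂ M] {ε D D' : M}

/-- the unit `D + (1 - ε)` -/
def QCo_U (h1 : ε * ε = ε) (h2 : ε * D = D) (h3 : D * ε = D) (h4 : ε * D' = D') (h5 : D' * ε = D')
    (h6 : D * D' = ε) (h7 : D' * D = ε) : Mˣ where
  val := D + (1 - ε)
  inv := D' + (1 - ε)
  val_inv := by
    have : (D + (1 - ε)) * (D' + (1 - ε)) = D * D' + (D - D * ε) + (D' - ε * D') + (1 - ε - ε + ε * ε) := by
      noncomm_ring
    rw [this, h1, h3, h4, h6]
    abel
  inv_val := by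
    have : (D' + (1 - ε)) * (D + (1 - ε)) = D' * D + (D' - D' * ε) + (D - ε * D) + (1 - ε - ε + ε * ε) := by
      noncomm_ring
    rw [this, h1, h2, h5, h7]
    abel

theorem QCo_gen (h1 : ε * ε = ε) (h2 : ε * D = D) (h3 : D * ε = D) (h4 : ε * D' = D') (h5 : D' * ε = D')
    (h6 : D * D' = ε) (h7 : D' * D = ε) :
    ∃ ι : ℂ[T;T⁻¹] →ₙₐ[ℂ] M, ι 1 = ε ∧ ι (LaurentPolynomial.T 1) = D ∧
      ι (LaurentPolynomial.T (-1)) = D' ∧ ∀ r, ε * ι r * ε = ι r := by
  let U := QCo_U h1 h2 h3 h4 h5 h6 h7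
  have hU : (U : M) = D + (1 - ε) := rfl
  have hU' : ((U⁻¹ : Mˣ) : M) = D' + (1 - ε) := rfl
  let τ : ℂ[T;T⁻¹] →ₐ[ℂ] M := AddMonoidAlgebra.lift ℂ M ℤ ((Units.coeHom M).comp (zpowersHom Mˣ U))
  have hτ : ∀ k : ℤ, τ (LaurentPolynomial.T k) = ((U ^ k : Mˣ) : M) := by
    intro k
    have : τ (LaurentPolynomial.T k) = (1 : ℂ) • ((U ^ k : Mˣ) : M) := AddMonoidAlgebra.lift_single _ _ _
    rw [this, one_smul]
  have hcU : Commute ε (U : M) := by
    rw [hU, commute_iff_eq, mul_add, add_mul, h2, h3, mul_sub, sub_mul, mul_one, one_mul]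
  have hcU' : ∀ k : ℤ, Commute ε ((U ^ k : Mˣ) : M) := by
    intro k
    exact hcU.units_zpow_right k
  have hcomm : ∀ r, ε * τ r = τ r * ε := by
    intro r
    induction r using LaurentPolynomial.induction_on' with
    | add p q hp hq => rw [map_add, mul_add, add_mul, hp, hq]
    | C_mul_T n a =>
      rw [← LaurentPolynomial.smul_eq_C_mul, map_smul, hτ, mul_smul_comm, smul_mul_assoc, (hcU' n).eq]
  let ι : ℂ[T;T⁻¹] →ₙₐ[ℂ] M :=
    { toFun := fun r => ε * τ r
      map_smul' := fun c r => by rw [map_smul, mul_smul_comm]; rfl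
      map_zero' := by rw [map_zero, mul_zero]
      map_add' := fun r s => by rw [map_add, mul_add]
      map_mul' := fun r s => by
        rw [map_mul, ← mul_assoc (ε * τ r), mul_assoc ε (τ r) ε, ← hcomm r, ← mul_assoc ε ε, h1, mul_assoc] }
  refine ⟨ι, ?_, ?_, ?_, ?_⟩
  · change ε * τ 1 = ε
    rw [map_one, mul_one]
  · change ε * τ (LaurentPolynomial.T 1) = D
    rw [hτ, zpow_one, hU, mul_add, mul_sub, mul_one, h1, h2, sub_self, add_zero]
  · change ε * τ (LaurentPolynomial.T (-1)) = D'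
    rw [hτ, zpow_neg_one, hU', mul_add, mul_sub, mul_one, h1, h4, sub_self, add_zero]
  · intro r
    change ε * (ε * τ r) * ε = ε * τ r
    rw [← mul_assoc, h1, mul_assoc, ← hcomm r, ← mul_assoc, h1]

end gen

section tw

variable {G : DGraph} {M : Type} [Ring M] [Algebra ℂ M] (Θ : LFam G M)

theorem QCo_tS (l : List G.E) (v : G.V) :
    Sl (twist Θ) l v = AddMonoidAlgebra.single (l.length : ℤ) (Sl Θ l v) := by
  induction l with
  | nil => rfl
  | cons e l ih =>
    rw [Sl_cons, Sl_cons, ih]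
    change AddMonoidAlgebra.single (1 : ℤ) (Θ.S e) * _ = _
    rw [AddMonoidAlgebra.single_mul_single]
    congr 1
    push_cast [List.length_cons]
    ring

theorem QCo_tT (l : List G.E) (v : G.V) :
    Tl (twist Θ) l v = AddMonoidAlgebra.single (-(l.length : ℤ)) (Tl Θ l v) := by
  induction l with
  | nil => rfl
  | cons e l ih =>
    rw [Tl_cons, Tl_cons, ih]
    change _ * AddMonoidAlgebra.single (-1 : ℤ) (Θ.T e) = _
    rw [AddMonoidAlgebra.single_mul_single]
    congr 1
    push_cast [List.length_cons]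
    ring

variable {N : Type} [Ring N] [Algebra ℂ N] (Ψ : LFam G N) (ρ : M →ₐ[ℂ] N)

theorem QCo_mS (hP : ∀ v, ρ (Θ.P v) = Ψ.P v) (hS : ∀ e, ρ (Θ.S e) = Ψ.S e) (l : List G.E) (v : G.V) :
    ρ (Sl Θ l v) = Sl Ψ l v := by
  induction l with
  | nil => exact hP v
  | cons e l ih => rw [Sl_cons, Sl_cons, map_mul, hS, ih]

theorem QCo_mT (hP : ∀ v, ρ (Θ.P v) = Ψ.P v) (hT : ∀ e, ρ (Θ.T e) = Ψ.T e) (l : List G.E) (v : G.V) :
    ρ (Tl Θ l v) = Tl Ψ l v := by
  induction l with
  | nil => exact hP v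
  | cons e l ih => rw [Tl_cons, Tl_cons, map_mul, hT, ih]

end tw

theorem qcor {G : DGraph} {l : List G.E} {v : G.V} (hl : IsReturn G v l)
    (h0 : (qfam G l).P v ≠ 0) :
    ∃ ι : ℂ[T;T⁻¹] →ₙₐ[ℂ] QL G l, Cor ((qfam G l).P v) ι ∧
      ι (LaurentPolynomial.T 1) = Sl (qfam G l) l v := by
  set Θ := qfam G l with hΘ
  have hp : IsPath G v l v := hl.2.1
  have hq : ∀ e ∈ l, Θ.P (G.s e) = Θ.S e * Θ.T e := fun e he => qfam_q he
  have h1 := Θ.PP v
  have h2 : Θ.P v * Sl Θ l v = Sl Θ l v := P_Sl Θ hp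
  have h3 : Sl Θ l v * Θ.P v = Sl Θ l v := Sl_P Θ l v
  have h4 : Θ.P v * Tl Θ l v = Tl Θ l v := P_Tl Θ l v
  have h5 : Tl Θ l v * Θ.P v = Tl Θ l v := Tl_P Θ hp
  have h6 : Sl Θ l v * Tl Θ l v = Θ.P v := Sl_Tl Θ hp hq
  have h7 : Tl Θ l v * Sl Θ l v = Θ.P v := Tl_Sl Θ hp
  obtain ⟨ι, i1, iT, iT', ie⟩ := QCo_gen h1 h2 h3 h4 h5 h6 h7
  have iadd : ∀ m n : ℤ, ι (LaurentPolynomial.T (m + n)) = ι (LaurentPolynomial.T m) * ι (LaurentPolynomial.T n) := by
    intro m n
    rw [LaurentPolynomial.T_add, map_mul]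
  have iz : ι (LaurentPolynomial.T 0) = Θ.P v := by rw [LaurentPolynomial.T_zero, i1]
  have ipow : ∀ k : ℕ, ι (LaurentPolynomial.T ((k : ℤ) + 1)) = Sl Θ l v ^ (k + 1) := by
    intro k
    induction k with
    | zero => rw [Nat.cast_zero, zero_add, zero_add, pow_one, iT]
    | succ k ih => rw [iadd, iT, pow_succ, Nat.cast_succ, ih]
  have ipow' : ∀ k : ℕ, ι (LaurentPolynomial.T (-((k : ℤ) + 1))) = Tl Θ l v ^ (k + 1) := by
    intro k
    induction k with
    | zero => rw [Nat.cast_zero, zero_add, zero_add, pow_one, iT']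
    | succ k ih =>
      rw [show -(((k + 1 : ℕ) : ℤ) + 1) = -((k : ℤ) + 1) + -1 by push_cast; ring, iadd, iT', pow_succ, ih]
  refine ⟨ι, ⟨i1, ?_, ?_⟩, iT⟩
  · -- injectivity
    obtain ⟨δ, dP, dS, dT, -⟩ := exists_qhom (l := l) (twist Θ) (by
      intro e he
      change AddMonoidAlgebra.single (0 : ℤ) (Θ.P (G.s e)) =
        AddMonoidAlgebra.single (1 : ℤ) (Θ.S e) * AddMonoidAlgebra.single (-1 : ℤ) (Θ.T e)
      rw [AddMonoidAlgebra.single_mul_single, hq e he]
      rfl)
    have dD : δ (Sl Θ l v) = AddMonoidAlgebra.single (l.length : ℤ) (Sl Θ l v) := by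
      rw [← QCo_tS]
      exact QCo_mS Θ (twist Θ) δ dP dS l v
    have dD' : δ (Tl Θ l v) = AddMonoidAlgebra.single (-(l.length : ℤ)) (Tl Θ l v) := by
      rw [← QCo_tT]
      exact QCo_mT Θ (twist Θ) δ dP dT l v
    have dJ : ∀ j : ℤ, δ (ι (LaurentPolynomial.T j)) =
        AddMonoidAlgebra.single ((l.length : ℤ) * j) (ι (LaurentPolynomial.T j)) := by
      intro j
      induction j using Int.induction_on with
      | zero => rw [iz, dP, mul_zero]; rfl
      | succ j ih =>
        rw [iadd, map_mul, ih, iT, dD, AddMonoidAlgebra.single_mul_single]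
        congr 1
      | pred j ih =>
        rw [sub_eq_add_neg, iadd, map_mul, ih, iT', dD', AddMonoidAlgebra.single_mul_single]
        congr 1
        ring
    have hn : (l.length : ℤ) ≠ 0 := by
      have : l.length ≠ 0 := by
        intro h
        exact hl.1 (List.length_eq_zero_iff.1 h)
      exact_mod_cast this
    have key : ∀ (r : ℂ[T;T⁻¹]) (k : ℤ), (δ (ι r)).coeff ((l.length : ℤ) * k) =
        r.coeff k • ι (LaurentPolynomial.T k) := by
      intro r k
      induction r using AddMonoidAlgebra.induction_linear with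
      | zero => simp
      | add p q hp hq =>
        rw [map_add, map_add, AddMonoidAlgebra.coeff_add, AddMonoidAlgebra.coeff_add, Finsupp.add_apply,
          Finsupp.add_apply, add_smul, hp, hq]
      | single j a =>
        have e1 : (AddMonoidAlgebra.single j a : ℂ[T;T⁻¹]) = a • LaurentPolynomial.T j := by
          rw [LaurentPolynomial.T, AddMonoidAlgebra.smul_single, smul_eq_mul, mul_one]
        rw [e1, map_smul, map_smul, dJ]
        rw [AddMonoidAlgebra.coeff_smul, AddMonoidAlgebra.coeff_smul, Finsupp.smul_apply, Finsupp.smul_apply,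
          AddMonoidAlgebra.coeff_single, LaurentPolynomial.T, AddMonoidAlgebra.coeff_single]
        by_cases hjk : j = k
        · subst hjk
          rw [Finsupp.single_eq_same, Finsupp.single_eq_same]
          simp
        · rw [Finsupp.single_apply, Finsupp.single_apply, if_neg hjk, if_neg]
          · simp
          · intro h
            exact hjk (mul_left_cancel₀ hn h)
    have hJ : ∀ k : ℤ, ι (LaurentPolynomial.T k) ≠ 0 := by
      intro k h
      apply h0
      rw [← iz, ← add_neg_cancel k, iadd, h, zero_mul]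
    have hz : ∀ r, ι r = 0 → r = 0 := by
      intro r hr
      ext k
      have h := key r k
      rw [hr, map_zero] at h
      have h' : r.coeff k • ι (LaurentPolynomial.T k) = 0 := by
        rw [← h]
        rfl
      rcases smul_eq_zero.1 h' with h'' | h''
      · rw [h'']
        rfl
      · exact absurd h'' (hJ k)
    intro r s h
    have := hz (r - s) (by rw [map_sub, h, sub_self])
    exact sub_eq_zero.1 this
  · -- surjectivity
    intro y
    have hy := cyc (spn_qfam l) hl hq y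
    let R : Submodule ℂ (QL G l) :=
      { carrier := {x | ∃ r, ι r = x}
        add_mem' := by
          rintro _ _ ⟨r, rfl⟩ ⟨s, rfl⟩
          exact ⟨r + s, map_add ι r s⟩
        zero_mem' := ⟨0, map_zero ι⟩
        smul_mem' := by
          rintro c _ ⟨r, rfl⟩
          exact ⟨c • r, map_smul ι c r⟩ }
    have hR : Submodule.span ℂ ({Θ.P v} ∪
      {y | ∃ k : ℕ, y = Sl Θ l v ^ (k + 1) ∨ y = Tl Θ l v ^ (k + 1)}) ≤ R := by
      rw [Submodule.span_le]
      rintro x (hx | ⟨k, hx | hx⟩)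
      · rw [Set.mem_singleton_iff] at hx
        rw [hx]
        exact ⟨1, i1⟩
      · rw [hx]
        exact ⟨_, ipow k⟩
      · rw [hx]
        exact ⟨_, ipow' k⟩
    exact hR hy

end Pool.Agent.RGD
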