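import Pool.Agent.RGD.ArC

/-!
# QHm: the universal property of `QL G l`
-/

set_option linter.unusedSectionVars false

namespace Pool.Agent.RGD

open Pool.Agent.GHT Pool.Agent.AUE
open scoped LaurentPolynomial

variable {G : DGraph}

theorem qfam_q {l : List G.E} {e : G.E} (he : e ∈ l) :
    (qfam G l).P (G.s e) = (qfam G l).S e * (qfam G l).T e := by
  have h := RingQuot.mkAlgHom_rel ℂ (QRel.mk (G := G) (l := l) e he)
  rw [map_mul] at h
  exact h

/-- Values of the generators. -/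
def QHm_gv {N : Type} [Ring N] (Θ : LFam G N) : Gen G → N
  | Gen.vert v => Θ.P v
  | Gen.edge e => Θ.S e
  | Gen.ghost e => Θ.T e

theorem QHm_rel {N : Type} [Ring N] [Algebra ℂ N] (Θ : LFam G N) {x y : FA G} (h : Rel G x y) :
    FreeAlgebra.lift ℂ (QHm_gv Θ) x = FreeAlgebra.lift ℂ (QHm_gv Θ) y := by
  induction h with
  | vv v => simp only [map_mul, FreeAlgebra.lift_ι_apply, QHm_gv, Θ.PP]
  | vw v w h => simp only [map_mul, FreeAlgebra.lift_ι_apply, QHm_gv, Θ.PPo v w h, map_zero]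
  | se e => simp only [map_mul, FreeAlgebra.lift_ι_apply, QHm_gv, Θ.PS]
  | er e => simp only [map_mul, FreeAlgebra.lift_ι_apply, QHm_gv, Θ.SP]
  | rg e => simp only [map_mul, FreeAlgebra.lift_ι_apply, QHm_gv, Θ.PT]
  | gs e => simp only [map_mul, FreeAlgebra.lift_ι_apply, QHm_gv, Θ.TP]
  | ge e => simp only [map_mul, FreeAlgebra.lift_ι_apply, QHm_gv, Θ.TS]
  | gf e f h => simp only [map_mul, FreeAlgebra.lift_ι_apply, QHm_gv, Θ.TSo e f h, map_zero]
  | ck v h =>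
    simp only [map_mul, map_sum, FreeAlgebra.lift_ι_apply, QHm_gv]
    exact Θ.CK v h

/-- The homomorphism from `LU G`. -/
noncomputable def QHm_LU {N : Type} [Ring N] [Algebra ℂ N] (Θ : LFam G N) : LU G →ₐ[ℂ] N :=
  RingQuot.liftAlgHom ℂ ⟨FreeAlgebra.lift ℂ (QHm_gv Θ), fun _ _ h => QHm_rel Θ h⟩

theorem QHm_LU_gen {N : Type} [Ring N] [Algebra ℂ N] (Θ : LFam G N) (x : Gen G) :
    QHm_LU Θ (gen G x) = QHm_gv Θ x := by
  unfold QHm_LU gen
  rw [RingQuot.liftAlgHom_mkAlgHom_apply, FreeAlgebra.lift_ι_apply]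

/-- The homomorphism given by a family with `P_{s(e)} = S_e T_e` for `e ∈ l`. -/
theorem exists_qhom {l : List G.E} {N : Type} [Ring N] [Algebra ℂ N] (Θ : LFam G N)
    (h : ∀ e ∈ l, Θ.P (G.s e) = Θ.S e * Θ.T e) :
    ∃ ρ : QL G l →ₐ[ℂ] N, (∀ v, ρ ((qfam G l).P v) = Θ.P v) ∧ (∀ e, ρ ((qfam G l).S e) = Θ.S e) ∧
      (∀ e, ρ ((qfam G l).T e) = Θ.T e) ∧ ∀ x, ρ (qcan G l x) = Θ.lift x := by
  have hq : ∀ ⦃x y : LU G⦄, QRel G l x y → QHm_LU Θ x = QHm_LU Θ y := by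
    intro x y hxy
    cases hxy with
    | mk e he =>
      rw [map_mul, QHm_LU_gen, QHm_LU_gen, QHm_LU_gen]
      exact h e he
  let ρ : QL G l →ₐ[ℂ] N := RingQuot.liftAlgHom ℂ ⟨QHm_LU Θ, hq⟩
  have hρ : ∀ x : LU G, ρ (RingQuot.mkAlgHom ℂ (QRel G l) x) = QHm_LU Θ x := by
    intro x
    exact RingQuot.liftAlgHom_mkAlgHom_apply ℂ (QHm_LU Θ) (fun _ _ hh => hq hh) x
  have hg : ∀ x : Gen G, ρ (qcan G l (lgen G x)) = QHm_gv Θ x := by
    intro x
    have h1 : ρ (qcan G l (lgen G x)) = QHm_LU Θ (gen G x) := hρ (gen G x)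
    rw [h1, QHm_LU_gen]
  refine ⟨ρ, fun v => hg (Gen.vert v), fun e => hg (Gen.edge e), fun e => hg (Gen.ghost e), ?_⟩
  have hext : ((ρ : QL G l →ₙₐ[ℂ] N).comp (qcan G l)) = Θ.lift := by
    apply leavitt_hom_ext
    intro x
    have h1 : ((ρ : QL G l →ₙₐ[ℂ] N).comp (qcan G l)) (lgen G x) = ρ (qcan G l (lgen G x)) := rfl
    rw [h1, hg x]
    cases x with
    | vert v => exact (Θ.lift_vert v).symm
    | edge e => exact (Θ.lift_edge e).symm
    | ghost e => exact (Θ.lift_ghost e).symm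
  intro x
  have h2 : ρ (qcan G l x) = ((ρ : QL G l →ₙₐ[ℂ] N).comp (qcan G l)) x := rfl
  rw [h2, hext]

theorem QHm_iSup_mul {H : DGraph} {M : Type} [Ring M] [Algebra ℂ M] (Θ : LFam H M) {x y : M}
    (hx : x ∈ ⨆ k, Mo Θ k) (hy : y ∈ ⨆ k, Mo Θ k) : x * y ∈ ⨆ k, Mo Θ k := by
  refine Submodule.iSup_induction (Mo Θ) (motive := fun x => x * y ∈ ⨆ k, Mo Θ k) hx ?_ ?_ ?_
  · intro i x hxi
    refine Submodule.iSup_induction (Mo Θ) (motive := fun y => x * y ∈ ⨆ k, Mo Θ k) hy ?_ ?_ ?_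
    · intro j y hyj
      exact Submodule.mem_iSup_of_mem (i + j) (Mo_mul Θ hxi hyj)
    · rw [mul_zero]; exact Submodule.zero_mem _
    · intro a b ha hb
      rw [mul_add]; exact Submodule.add_mem _ ha hb
  · rw [zero_mul]; exact Submodule.zero_mem _
  · intro a b ha hb
    rw [add_mul]; exact Submodule.add_mem _ ha hb

/-- `y` is a scalar plus a combination of the monomials. -/
def QHm_ok {H : DGraph} {M : Type} [Ring M] [Algebra ℂ M] (Θ : LFam H M) (y : M) : Prop :=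
  ∃ c : ℂ, y - c • (1 : M) ∈ ⨆ k, Mo Θ k

theorem QHm_ok_smul {H : DGraph} {M : Type} [Ring M] [Algebra ℂ M] (Θ : LFam H M) (c : ℂ) :
    QHm_ok Θ (algebraMap ℂ M c) :=
  ⟨c, by rw [Algebra.algebraMap_eq_smul_one, sub_self]; exact Submodule.zero_mem _⟩

theorem QHm_ok_mem {H : DGraph} {M : Type} [Ring M] [Algebra ℂ M] (Θ : LFam H M) {y : M}
    (hy : y ∈ ⨆ k, Mo Θ k) : QHm_ok Θ y :=
  ⟨0, by rw [zero_smul, sub_zero]; exact hy⟩

theorem QHm_ok_mul {H : DGraph} {M : Type} [Ring M] [Algebra ℂ M] (Θ : LFam H M) {u v : M}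
    (ha : QHm_ok Θ u) (hb : QHm_ok Θ v) : QHm_ok Θ (u * v) := by
  obtain ⟨c, hc⟩ := ha
  obtain ⟨d, hd⟩ := hb
  refine ⟨c * d, ?_⟩
  have key : u * v - (c * d) • (1 : M) =
      (u - c • 1) * (v - d • 1) + c • (v - d • 1) + d • (u - c • 1) := by
    rw [sub_mul, mul_sub, mul_sub, smul_mul_assoc, one_mul, mul_smul_comm, mul_one,
      smul_mul_smul_comm, mul_one, smul_sub, smul_sub, smul_smul, smul_smul, mul_comm d c]
    abel
  rw [key]
  exact Submodule.add_mem _ (Submodule.add_mem _ (QHm_iSup_mul Θ hc hd)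
    (Submodule.smul_mem _ _ hd)) (Submodule.smul_mem _ _ hc)

theorem QHm_ok_add {H : DGraph} {M : Type} [Ring M] [Algebra ℂ M] (Θ : LFam H M) {u v : M}
    (ha : QHm_ok Θ u) (hb : QHm_ok Θ v) : QHm_ok Θ (u + v) := by
  obtain ⟨c, hc⟩ := ha
  obtain ⟨d, hd⟩ := hb
  refine ⟨c + d, ?_⟩
  rw [add_smul, add_sub_add_comm]
  exact Submodule.add_mem _ hc hd

theorem QHm_spn {H : DGraph} {l : List G.E} (Θ : LFam H (QL G l))
    (h : ∀ x : Gen G, qcan G l (lgen G x) ∈ ⨆ k, Mo Θ k) : Spn Θ := by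
  intro y
  obtain ⟨z, rfl⟩ := RingQuot.mkAlgHom_surjective ℂ (QRel G l) y
  obtain ⟨x, rfl⟩ := RingQuot.mkAlgHom_surjective ℂ (Rel G) z
  change QHm_ok Θ _
  induction x using FreeAlgebra.induction with
  | grade0 r =>
    rw [AlgHom.commutes, AlgHom.commutes]
    exact QHm_ok_smul Θ r
  | grade1 x => exact QHm_ok_mem Θ (h x)
  | mul a b ha hb =>
    rw [map_mul, map_mul]
    exact QHm_ok_mul Θ ha hb
  | add a b ha hb =>
    rw [map_add, map_add]
    exact QHm_ok_add Θ ha hb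

theorem spn_qfam (l : List G.E) : Spn (qfam G l) := by
  apply QHm_spn
  intro x
  cases x with
  | vert v => exact Submodule.mem_iSup_of_mem 0 (P_mem_Mo (qfam G l) v)
  | edge e => exact Submodule.mem_iSup_of_mem 1 (S_mem_Mo (qfam G l) e)
  | ghost e => exact Submodule.mem_iSup_of_mem (-1) (T_mem_Mo (qfam G l) e)

theorem QHm_all {E F : DGraph} (l : List E.E) (g : Leavitt F →ₙₐ[ℂ] Leavitt E) :
    ∀ (x : LU F) (hx : x ∈ Leavitt F), qcan E l (g ⟨x, hx⟩) ∈ ⨆ k, Mo (qpull l g) k := by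
  intro x hx
  have hx' := hx
  unfold Leavitt at hx'
  induction hx' using NonUnitalAlgebra.adjoin_induction with
  | mem x hx1 =>
    obtain ⟨y, rfl⟩ := hx1
    cases y with
    | vert v => exact Submodule.mem_iSup_of_mem 0 (P_mem_Mo (qpull l g) v)
    | edge e => exact Submodule.mem_iSup_of_mem 1 (S_mem_Mo (qpull l g) e)
    | ghost e => exact Submodule.mem_iSup_of_mem (-1) (T_mem_Mo (qpull l g) e)
  | add x y hx1 hy1 ih1 ih2 =>
    have e1 := ih1 hx1
    have e2 := ih2 hy1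
    have : (⟨x + y, hx⟩ : Leavitt F) = ⟨x, hx1⟩ + ⟨y, hy1⟩ := rfl
    rw [this, map_add, map_add]
    exact Submodule.add_mem _ e1 e2
  | zero =>
    have : (⟨0, hx⟩ : Leavitt F) = 0 := rfl
    rw [this, map_zero, map_zero]
    exact Submodule.zero_mem _
  | mul x y hx1 hy1 ih1 ih2 =>
    have e1 := ih1 hx1
    have e2 := ih2 hy1
    have : (⟨x * y, hx⟩ : Leavitt F) = ⟨x, hx1⟩ * ⟨y, hy1⟩ := rfl
    rw [this, map_mul, map_mul]
    exact QHm_iSup_mul _ e1 e2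
  | smul r x hx1 ih1 =>
    have e1 := ih1 hx1
    have : (⟨r • x, hx⟩ : Leavitt F) = r • (⟨x, hx1⟩ : Leavitt F) := rfl
    rw [this, map_smul, map_smul]
    exact Submodule.smul_mem _ _ e1

theorem spn_qpull {E F : DGraph} (l : List E.E) (g : Leavitt F →ₙₐ[ℂ] Leavitt E)
    (hg : Function.Surjective g) : Spn (qpull l g) := by
  apply QHm_spn
  intro x
  obtain ⟨y, hy⟩ := hg (lgen E x)
  rw [← hy]
  exact QHm_all l g y.1 y.2

theorem qpull_lift {E F : DGraph} (l : List E.E) (g : Leavitt F →ₙₐ[ℂ] Leavitt E) (x : Leavitt F) :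
    (qpull l g).lift x = qcan E l (g x) := by
  have hext : (qpull l g).lift = (qcan E l).comp g := by
    apply leavitt_hom_ext
    intro x
    cases x with
    | vert v => exact (qpull l g).lift_vert v
    | edge e => exact (qpull l g).lift_edge e
    | ghost e => exact (qpull l g).lift_ghost e
  rw [hext]
  rfl

end Pool.Agent.RGD
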