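import Pool.Agent.RGD.ArC

/-!
# TwC: homogeneous components of an idempotent of the Leavitt path algebra

Let `Λ = (twist Θ).lift : L(G) → M[T;T⁻¹]`. By induction (`NonUnitalAlgebra.adjoin_induction`, as in the
proof of `leavitt_hom_ext` in `GHT/Lift.lean`; values on generators by `LFam.lift_vert` etc.):
(a) `(Λ y).coeff k ∈ Mo Θ k` for all `k` (`P_mem_Mo`, `S_mem_Mo`, `T_mem_Mo`, `Mo_mul`;
`AddMonoidAlgebra.coeff_mul`), (b) `Θ.lift y` is the sum of the coefficients of `Λ y` (the sum of the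
coefficients is an algebra homomorphism `M[T;T⁻¹] → M`; two homomorphisms from `L(G)` agree on the
generators: `leavitt_hom_ext`, or by the same induction). For `x * x = x`: `Λ x * Λ x = Λ x`; take
`c k = (Λ x).coeff k`, `K` = its support.
-/

set_option linter.unusedSectionVars false

namespace Pool.Agent.RGD

open Pool.Agent.GHT Pool.Agent.AUE
open scoped LaurentPolynomial

/-- The sum of the coefficients. -/
private noncomputable def TwC_s (M : Type) [Ring M] : M[T;T⁻¹] →+* M :=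
  AddMonoidAlgebra.liftNCRingHom (RingHom.id M) 1 (fun _ _ => Commute.one_right _)

private theorem TwC_s_apply {M : Type} [Ring M] (f : M[T;T⁻¹]) :
    TwC_s M f = ∑ a ∈ f.coeff.support, f.coeff a := by
  have : TwC_s M f = f.coeff.sum (fun a b => b * 1) := rfl
  rw [this, Finsupp.sum]
  exact Finset.sum_congr rfl (fun a _ => mul_one _)

private theorem TwC_s_single {M : Type} [Ring M] (k : ℤ) (r : M) :
    TwC_s M (AddMonoidAlgebra.single k r : M[T;T⁻¹]) = r := by
  have : TwC_s M (AddMonoidAlgebra.single k r : M[T;T⁻¹]) =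
      (AddMonoidAlgebra.single k r : M[T;T⁻¹]).coeff.sum (fun a b => b * 1) := rfl
  rw [this, AddMonoidAlgebra.coeff_single, Finsupp.sum_single_index (by simp), mul_one]

private theorem TwC_s_smul {M : Type} [Ring M] [Algebra ℂ M] (c : ℂ) (f : M[T;T⁻¹]) :
    TwC_s M (c • f) = c • TwC_s M f := by
  rw [Algebra.smul_def, map_mul, Algebra.smul_def]
  congr 1
  have : (algebraMap ℂ M[T;T⁻¹] c) = AddMonoidAlgebra.single 0 (algebraMap ℂ M c) := rfl
  rw [this, TwC_s_single]

private theorem TwC_coeff {G : DGraph} {M : Type} [Ring M] [Algebra ℂ M] (Θ : LFam G M)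
    (y : Leavitt G) : (∀ k, ((twist Θ).lift y).coeff k ∈ Mo Θ k) ∧
      TwC_s M ((twist Θ).lift y) = Θ.lift y := by
  have hgen : ∀ x : Gen G, (∀ k, ((twist Θ).lift (lgen G x)).coeff k ∈ Mo Θ k) ∧
      TwC_s M ((twist Θ).lift (lgen G x)) = Θ.lift (lgen G x) := by
    have hs : ∀ (j : ℤ) (r : M), r ∈ Mo Θ j →
        ∀ k, (AddMonoidAlgebra.single j r : M[T;T⁻¹]).coeff k ∈ Mo Θ k := by
      intro j r hr k
      rw [AddMonoidAlgebra.coeff_single, Finsupp.single_apply]
      split_ifs with h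
      · rw [← h]; exact hr
      · exact Submodule.zero_mem _
    intro x
    cases x with
    | vert v =>
      rw [LFam.lift_vert, LFam.lift_vert]
      exact ⟨hs 0 _ (P_mem_Mo Θ v), TwC_s_single _ _⟩
    | edge e =>
      rw [LFam.lift_edge, LFam.lift_edge]
      exact ⟨hs 1 _ (S_mem_Mo Θ e), TwC_s_single _ _⟩
    | ghost e =>
      rw [LFam.lift_ghost, LFam.lift_ghost]
      exact ⟨hs (-1) _ (T_mem_Mo Θ e), TwC_s_single _ _⟩
  have key : ∀ (x : LU G) (hx : x ∈ Leavitt G),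
      (∀ k, ((twist Θ).lift ⟨x, hx⟩).coeff k ∈ Mo Θ k) ∧
      TwC_s M ((twist Θ).lift ⟨x, hx⟩) = Θ.lift ⟨x, hx⟩ := by
    intro x hx
    have hx' := hx
    unfold Leavitt at hx'
    induction hx' using NonUnitalAlgebra.adjoin_induction with
    | mem x hx1 =>
      obtain ⟨y, rfl⟩ := hx1
      exact hgen y
    | add x y hx1 hy1 ih1 ih2 =>
      obtain ⟨e1, e2⟩ := ih1 hx1
      obtain ⟨f1, f2⟩ := ih2 hy1
      have : (⟨x + y, hx⟩ : Leavitt G) = ⟨x, hx1⟩ + ⟨y, hy1⟩ := rfl
      rw [this, map_add, map_add, map_add, e2, f2]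
      refine ⟨fun k => ?_, rfl⟩
      rw [AddMonoidAlgebra.coeff_add, Finsupp.add_apply]
      exact Submodule.add_mem _ (e1 k) (f1 k)
    | zero =>
      have : (⟨0, hx⟩ : Leavitt G) = 0 := rfl
      rw [this, map_zero, map_zero, map_zero]
      refine ⟨fun k => ?_, rfl⟩
      rw [AddMonoidAlgebra.coeff_zero, Finsupp.zero_apply]
      exact Submodule.zero_mem _
    | mul x y hx1 hy1 ih1 ih2 =>
      obtain ⟨e1, e2⟩ := ih1 hx1
      obtain ⟨f1, f2⟩ := ih2 hy1
      have : (⟨x * y, hx⟩ : Leavitt G) = ⟨x, hx1⟩ * ⟨y, hy1⟩ := rfl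
      rw [this, map_mul, map_mul, map_mul, e2, f2]
      refine ⟨fun k => ?_, rfl⟩
      rw [AddMonoidAlgebra.coeff_mul, Finsupp.sum]
      refine Submodule.sum_mem _ (fun a _ => ?_)
      rw [Finsupp.sum]
      refine Submodule.sum_mem _ (fun b _ => ?_)
      split_ifs with h
      · rw [← h]
        exact Mo_mul Θ (e1 a) (f1 b)
      · exact Submodule.zero_mem _
    | smul r x hx1 ih1 =>
      obtain ⟨e1, e2⟩ := ih1 hx1
      have : (⟨r • x, hx⟩ : Leavitt G) = r • (⟨x, hx1⟩ : Leavitt G) := rfl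
      have a1 : (twist Θ).lift (r • (⟨x, hx1⟩ : Leavitt G)) = r • (twist Θ).lift ⟨x, hx1⟩ :=
        map_smul _ _ _
      have a2 : Θ.lift (r • (⟨x, hx1⟩ : Leavitt G)) = r • Θ.lift ⟨x, hx1⟩ := map_smul _ _ _
      rw [this, a1, a2, TwC_s_smul, e2]
      refine ⟨fun k => ?_, rfl⟩
      rw [AddMonoidAlgebra.coeff_smul, Finsupp.smul_apply]
      exact Submodule.smul_mem _ _ (e1 k)
  exact key y.1 y.2

theorem tw_data {G : DGraph} {M : Type} [Ring M] [Algebra ℂ M] (Θ : LFam G M) {x : Leavitt G}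
    (hx : x * x = x) :
    ∃ (K : Finset ℤ) (c : ℤ → M), (∀ k ∉ K, c k = 0) ∧ (∀ k, c k = ∑ a ∈ K, c a * c (k - a)) ∧
      ∑ a ∈ K, c a = Θ.lift x ∧ ∀ k, c k ∈ Mo Θ k := by
  obtain ⟨h1, h2⟩ := TwC_coeff Θ x
  refine ⟨((twist Θ).lift x).coeff.support, fun k => ((twist Θ).lift x).coeff k, ?_, ?_, ?_, h1⟩
  · intro k hk
    exact Finsupp.notMem_support_iff.1 hk
  · intro k
    have h3 : (twist Θ).lift x * (twist Θ).lift x = (twist Θ).lift x := by
      rw [← map_mul, hx]
    have h4 : ((twist Θ).lift x * (twist Θ).lift x).coeff k = ((twist Θ).lift x).coeff k := by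
      rw [h3]
    rw [AddMonoidAlgebra.coeff_mul_apply_left, Finsupp.sum] at h4
    refine h4.symm.trans ?_
    refine Finset.sum_congr rfl (fun a _ => ?_)
    have : -a + k = k - a := by ring
    rw [this]
  · rw [← h2, TwC_s_apply]

end Pool.Agent.RGD
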