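import Pool.Agent.RGD.ArM
import Pool.Agent.RGD.TwC
import Pool.Agent.RGD.QCo

/-!
# R1F: the theorem of block R1
-/

set_option linter.unusedSectionVars false

namespace Pool.Agent.RGD

open Pool.Agent.GHT Pool.Agent.AUE
open scoped LaurentPolynomial

theorem r1_main {E F : DGraph} {f : Leavitt E →ₙₐ[ℂ] Leavitt F} {g : Leavitt F →ₙₐ[ℂ] Leavitt E}
    (hgf : ∀ x, g (f x) = x) {v : E.V} {l : List E.E} (hl : IsReturn E v l)
    (h0 : (qfam E l).P v ≠ 0) :
    ∃ (w : F.V) (d : List F.E) (a b : QL E l) (κ : ℂ), IsReturn F w d ∧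
      (∀ e ∈ d, (qpull l g).P (F.s e) = (qpull l g).S e * (qpull l g).T e) ∧ κ ≠ 0 ∧
      (qfam E l).P v * a = a ∧ a * (qpull l g).P w = a ∧ (qpull l g).P w * b = b ∧
      b * (qfam E l).P v = b ∧ a * b = (qfam E l).P v ∧ b * a = (qpull l g).P w ∧
      (Sl (qfam E l) l v = κ • (a * Sl (qpull l g) d w * b) ∨
        Sl (qfam E l) l v = κ • (a * Tl (qpull l g) d w * b)) := by
  obtain ⟨ι, C, hι⟩ := qcor hl h0
  have hv : (lgen E (Gen.vert v) : Leavitt E) * lgen E (Gen.vert v) = lgen E (Gen.vert v) :=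
    (canL E).PP v
  have hx : f (lgen E (Gen.vert v)) * f (lgen E (Gen.vert v)) = f (lgen E (Gen.vert v)) := by
    rw [← map_mul, hv]
  obtain ⟨K, c, c0, cc, cs, cM⟩ := tw_data (qpull l g) hx
  have hs : ∑ a ∈ K, c a = (qfam E l).P v := by
    rw [cs, qpull_lift, hgf]; rfl
  have hsp : Spn (qpull l g) := spn_qpull l g fun x => ⟨f x, hgf x⟩
  obtain ⟨w, d, a, b, κ, h⟩ := ar_main hsp C c0 cc hs cM
  rw [hι] at h
  exact ⟨w, d, a, b, κ, h⟩

end Pool.Agent.RGD
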