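import Pool.Agent.RGD.StrE
import Pool.Agent.RGD.ComT

/-!
# StrP: the straightening along a path with `P_{s(e)} = S_e T_e`

Induction on `l`. `l = []`: `u = v`, `Sl = Θ.str.p v = UU P WW (c c)` with `c = Θ.str.p v`.
`e :: l`, `G.s e = u`, `l` a path from `v₁ = G.r e` to `v`: with `c₁` from `str_edge` and `c₂` from the
induction hypothesis `Sl (e :: l) = [UU u S_e WW v₁ c₁ c₁] [UU v₁ Sl_l WW v c₂ c₂]`. Put `Y = UU v₁ * Sl Θ l v * WW v`,
`Y' = UU v * Tl Θ l v * WW v₁`, `p = Θ.str.p v`, `p₁ = Θ.str.p v₁`: `Y Y' = UU v₁ Sl Tl WW v₁ = UU v₁ P WW v₁ = p₁`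
(`Sl_Tl`), `Y' Y = p` (`Tl_Sl`), `p₁ Y = Y = Y p`, `p Y' = Y' = Y' p₁`. `ComC p₁` by `comC_equiv`. Put
`c' = Y' c₁ Y`. `c₁ Y = p₁ c₁ Y = Y (Y' c₁ Y) = Y c'`. `star c' = c'`: `star Y c₁ star Y' =
star Y c₁ (star Y' Y') Y` (`star Y' = star Y' p = star Y' Y' Y`) `= star Y (star Y' Y') c₁ Y` (`c₁`,
`star Y' Y'` are in `p₁ D p₁`) `= star (Y' Y) Y' c₁ Y = p c' = c'`. So the product is
`UU u S_e WW v₁ Y c' c' c₂ c₂ = UU u S_e P_{v₁} Sl_l WW v (c' c₂)(c' c₂)` (`c'`, `c₂` commute in `p D p`), and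
`c = c' c₂` is selfadjoint.
-/

set_option linter.unusedSectionVars false

namespace Pool.Agent.RGD

open Pool.Agent.GHT Pool.Agent.AUE
open scoped LaurentPolynomial

theorem StrP_pU {G : DGraph} [Encodable G.V] [Encodable G.E] {D : Type} [NonUnitalCStarAlgebra D]
    (Θ : LFam G D) (v : G.V) : Θ.str.p v * UU Θ v = UU Θ v := by
  rw [← UU_WW, mul_assoc, WW_UU, UU_P]

theorem StrP_Wp {G : DGraph} [Encodable G.V] [Encodable G.E] {D : Type} [NonUnitalCStarAlgebra D]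
    (Θ : LFam G D) (v : G.V) : WW Θ v * Θ.str.p v = WW Θ v := by
  rw [← UU_WW, ← mul_assoc, WW_UU, P_WW]

/-- the conjugate of a selfadjoint element by an equivalence -/
theorem StrP_conj {D : Type} [NonUnitalCStarAlgebra D] {p p₁ Y Y' c₁ : D} (hp : star p = p)
    (hp₁ : star p₁ = p₁) (hc : ComC p₁) (hYY : Y * Y' = p₁) (hYY' : Y' * Y = p)
    (h2 : Y * p = Y) (h3 : p * Y' = Y') (h4 : Y' * p₁ = Y')
    (hs : star c₁ = c₁) (hc1 : p₁ * c₁ = c₁) (hc2 : c₁ * p₁ = c₁) :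
    star (Y' * c₁ * Y) = Y' * c₁ * Y ∧ c₁ * Y = Y * (Y' * c₁ * Y) ∧
      p * (Y' * c₁ * Y) = Y' * c₁ * Y ∧ (Y' * c₁ * Y) * p = Y' * c₁ * Y := by
  have e1 : p₁ * star Y' = star Y' := by
    have := congrArg star h4
    rw [star_mul, hp₁] at this
    exact this
  have e2 : star Y' * p = star Y' := by
    have := congrArg star h3
    rw [star_mul, hp] at this
    exact this
  have e3 : (star Y' * Y') * c₁ = c₁ * (star Y' * Y') := by
    apply ComC.comm hc _ _ hc1 hc2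
    · rw [← mul_assoc, e1]
    · rw [mul_assoc, h4]
  have e4 : star Y * star Y' = p := by
    rw [← star_mul, hYY', hp]
  have e5 : star Y' = (star Y' * Y') * Y := by rw [mul_assoc, hYY', e2]
  refine ⟨?_, ?_, ?_, ?_⟩
  · calc star (Y' * c₁ * Y) = star Y * (c₁ * star Y') := by
          rw [star_mul, star_mul, hs]
      _ = star Y * (c₁ * ((star Y' * Y') * Y)) := by rw [← e5]
      _ = star Y * (c₁ * (star Y' * Y') * Y) := by rw [mul_assoc c₁]
      _ = star Y * ((star Y' * Y') * c₁ * Y) := by rw [e3]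
      _ = (star Y * star Y') * (Y' * c₁ * Y) := by simp only [mul_assoc]
      _ = Y' * c₁ * Y := by
          rw [e4, ← mul_assoc, ← mul_assoc, h3]
  · rw [← mul_assoc, ← mul_assoc, hYY, hc1]
  · rw [← mul_assoc, ← mul_assoc, h3]
  · rw [mul_assoc, h2]

theorem str_path {G : DGraph} [Encodable G.V] [Encodable G.E] {D : Type} [NonUnitalCStarAlgebra D]
    (Θ : LFam G D) {u v : G.V} {l : List G.E} (hl : IsPath G u l v)
    (hq : ∀ e ∈ l, Θ.P (G.s e) = Θ.S e * Θ.T e) (hc : ComC (Θ.str.p v)) :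
    ∃ c : D, star c = c ∧ Θ.str.p v * c = c ∧ c * Θ.str.p v = c ∧
      Sl Θ.str.toL l v = UU Θ u * Sl Θ l v * WW Θ v * (c * c) := by
  induction l generalizing u with
  | nil =>
    have hl' : u = v := hl
    subst hl'
    refine ⟨Θ.str.p u, Θ.str.p_star u, Θ.str.p_mul u, Θ.str.p_mul u, ?_⟩
    rw [Sl_nil, Sl_nil, UU_P, UU_WW, Θ.str.p_mul, Θ.str.p_mul]
    rfl
  | cons e l ih =>
    obtain ⟨hs, hl'⟩ : G.s e = u ∧ IsPath G (G.r e) l v := hl
    subst hs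
    have hql : ∀ f ∈ l, Θ.P (G.s f) = Θ.S f * Θ.T f := fun f hf => hq f (List.mem_cons_of_mem e hf)
    obtain ⟨c₁, hs1, ha1, hb1, hE⟩ := str_edge Θ e (hq e (List.mem_cons_self))
    obtain ⟨c₂, hs2, ha2, hb2, hI⟩ := ih hl' hql
    have hST := Sl_Tl Θ hl' hql
    have hTS := Tl_Sl Θ hl'
    have hPS := P_Sl Θ hl'
    have hSP := Sl_P Θ l v
    have hPT := P_Tl Θ l v
    set Y : D := UU Θ (G.r e) * Sl Θ l v * WW Θ v with hY
    set Y' : D := UU Θ v * Tl Θ l v * WW Θ (G.r e) with hY'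
    have hYY : Y * Y' = Θ.str.p (G.r e) := by
      calc Y * Y' = UU Θ (G.r e) * (Sl Θ l v * (WW Θ v * UU Θ v) * Tl Θ l v) * WW Θ (G.r e) := by
            rw [hY, hY']; simp only [mul_assoc]
        _ = Θ.str.p (G.r e) := by
            rw [WW_UU, hSP, hST, UU_P, UU_WW]
    have hYY' : Y' * Y = Θ.str.p v := by
      calc Y' * Y = UU Θ v * (Tl Θ l v * ((WW Θ (G.r e) * UU Θ (G.r e)) * Sl Θ l v)) * WW Θ v := by
            rw [hY, hY']; simp only [mul_assoc]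
        _ = Θ.str.p v := by
            rw [WW_UU, hPS, hTS, UU_P, UU_WW]
    have h2 : Y * Θ.str.p v = Y := by
      rw [hY, mul_assoc, StrP_Wp]
    have h3 : Θ.str.p v * Y' = Y' := by
      rw [hY', ← mul_assoc, ← mul_assoc, StrP_pU]
    have h4 : Y' * Θ.str.p (G.r e) = Y' := by
      rw [hY', mul_assoc, StrP_Wp]
    have hc₁ : ComC (Θ.str.p (G.r e)) :=
      comC_equiv (Θ.str.p_mul v) (Θ.str.p_mul (G.r e)) hc hYY hYY'
    obtain ⟨k1, k2, k3, k4⟩ := StrP_conj (Θ.str.p_star v) (Θ.str.p_star (G.r e)) hc₁ hYY hYY' h2 h3 h4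
      hs1 ha1 hb1
    set c' : D := Y' * c₁ * Y with hc'
    have hcom : c' * c₂ = c₂ * c' := ComC.comm hc k3 k4 ha2 hb2
    have k5 : c₁ * (c₁ * Y) = Y * c' * c' := by rw [k2, ← mul_assoc, k2]
    refine ⟨c' * c₂, ?_, ?_, ?_, ?_⟩
    · rw [star_mul, hs2, k1, hcom]
    · rw [← mul_assoc, k3]
    · rw [mul_assoc, hb2]
    · have hWY : WW Θ (G.r e) * Y = Sl Θ l v * WW Θ v := by
        rw [hY, ← mul_assoc, ← mul_assoc, WW_UU, hPS]
      calc Sl Θ.str.toL (e :: l) v = Θ.str.s e * Sl Θ.str.toL l v := rfl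
        _ = (UU Θ (G.s e) * Θ.S e * WW Θ (G.r e) * (c₁ * c₁)) * (Y * (c₂ * c₂)) := by rw [hE, hI]
        _ = UU Θ (G.s e) * Θ.S e * WW Θ (G.r e) * (c₁ * (c₁ * Y)) * (c₂ * c₂) := by
            simp only [mul_assoc]
        _ = UU Θ (G.s e) * Θ.S e * WW Θ (G.r e) * (Y * c' * c') * (c₂ * c₂) := by rw [k5]
        _ = UU Θ (G.s e) * Θ.S e * (WW Θ (G.r e) * Y) * (c' * (c' * c₂) * c₂) := by
            simp only [mul_assoc]
        _ = UU Θ (G.s e) * Θ.S e * (Sl Θ l v * WW Θ v) * (c' * (c₂ * c') * c₂) := by rw [hWY, hcom]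
        _ = UU Θ (G.s e) * Sl Θ (e :: l) v * WW Θ v * ((c' * c₂) * (c' * c₂)) := by
            rw [Sl_cons]; simp only [mul_assoc]

end Pool.Agent.RGD
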