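import Pool.Agent.RGD.R1F
import Pool.Agent.RGD.StrP
import Pool.Agent.RGD.Idm

/-!
# RigF: rigidity, in terms of families in a unital C*-algebra

NOTATION. `ξ = pull g X.toL : LFam F D`, `Ξ = ξ.str`, `Th = pull f Ξ.toL : LFam E D`, `p = X.p v`,
`z = Sl X.toL l v`. If `p = 0`: `z = P_v z = 0`, and `Th.str.p v = U* (U Th.str.p v U*) U = 0`, so both sides
are `0`. Let `p ≠ 0`.
`ρ₁ : QL E l →ₐ[ℂ] D` = `exists_qhom X.toL hq`; `ρ₂` = `exists_qhom Th` (hypothesis by `pull_str_q hgf X`).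
`(qfam E l).P v ≠ 0` (`ρ₁` maps it to `p`). `r1_main hgf hl` gives `w, d, a, b, κ`.
`ρ₁ ((qpull l g).P w) = ρ₁ (qcan (g ..)) = X.toL.lift (g ..) = ξ.P w`, the same for `S`, `T`, so by `Sl_map`, `Tl_map`
(`(qpull l g).map ρ₁ = ξ`, `LFam.ext`) `ρ₁ (Sl (qpull l g) d w) = Sl ξ d w`. `ρ₂ (qcan (g y)) = Th.lift (g y) =
Ξ.toL.lift (f (g y)) = Ξ.toL.lift y` (`pull_lift`, `hfg`), so `ρ₂ (Sl (qpull l g) d w) = Sl Ξ.toL d w` etc.
(1) `A = UU ξ w * ρ₁ b`, `B = ρ₁ a * WW ξ w`, `p' = Ξ.p w = UU ξ w * WW ξ w`: `A p = A = p' A`, `p B = B = B p'`,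
`A B = UU ρ₁(b a) WW = UU ξ.P_w WW = p'`, `B A = ρ₁ a ξ.P_w ρ₁ b = ρ₁ (a b) = p`.
(2) `star z = Tl X.toL l v` (`star_Sl`), `star z * z = p` (`Tl_Sl`), `z * star z = p` (`Sl_Tl`, `hq`), `p z = z = z p`.
`Z = A z B`: `star Z * Z = p' = Z * star Z` (`unit_conj`). `ComC p'` (`comC_equiv`).
(3) `str_path ξ` on `d` (from `w` to `w`; `ξ.P (s e) = ξ.S e * ξ.T e` for `e ∈ d` by applying `ρ₁`):
`S' := Sl Ξ.toL d w = UU ξ w * Sl ξ d w * WW ξ w * (c c)`. `S'` is a unitary of the corner `p'` (`star_Sl`,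
`Tl_Sl`, `Sl_Tl`; `Ξ.p (s e) = Ξ.s e * star (Ξ.s e)` for `e ∈ d` by applying `ρ₂`).
First alternative, `z = κ • (ρ₁ a * Sl ξ d w * ρ₁ b)`: `Z = κ UU ρ₁(b a) Sl ρ₁(b a) WW = κ UU Sl WW`, so
`S' = κ⁻¹ • (Z (c c))` and by `polar_one` `‖κ⁻¹‖ S' = κ⁻¹ Z`, i.e. `κ • S' = ‖κ‖ • Z`. Put `Y = S'`.
Second alternative, `z = κ • (ρ₁ a * Tl ξ d w * ρ₁ b)`: `Z = κ UU Tl WW`, `(UU Sl WW) Z = κ UU Sl P_w Tl WW = κ p'`
(`Sl_Tl`), so `UU Sl WW = κ • star Z`, `S' = κ • (star Z (c c))`, by `polar_one` `‖κ‖ S' = κ star Z`; take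
stars: `‖κ‖ Y = (conj κ) Z` with `Y = star S' = Tl Ξ.toL d w`; multiply by `κ`: `κ • Y = ‖κ‖ • Z`.
(4) In both cases `κ • Y = ‖κ‖ • Z`, `Y = ρ₂ (Sl or Tl of (qpull l g))`, so `Sl Th l v = ρ₂ (Sl (qfam E l) l v) =
κ • (ρ₂ a * Y * ρ₂ b) = ‖κ‖ • (ρ₂ a * Z * ρ₂ b)`.
(5) `A₃ = UU Th v * ρ₂ a * A`, `B₃ = B * ρ₂ b * WW Th v`, `p₃ = Th.str.p v`. `A₃ B₃ = UU ρ₂ a (A B) ρ₂ b WW =
UU ρ₂ a p' ρ₂ b WW`, `p' = Ξ.p w = ρ₂ ((qpull l g).P w)`, `= UU ρ₂ (a P_w b) WW = UU (Th.P v) WW = p₃`.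
`B₃ A₃ = B ρ₂ b (WW UU) ρ₂ a A = B ρ₂ (b P_v a) A = B ρ₂ (b a) A = B p' A = p`. `A₃ p = A₃ = p₃ A₃`,
`p B₃ = B₃ = B₃ p₃`. `ComC p₃`. `Z₃ = A₃ z B₃` is a unitary of the corner `p₃` (`unit_conj`).
`str_path Th` on `l`: `S₃ := Sl Th.str.toL l v = UU Th v * Sl Th l v * WW Th v * (c₃ c₃) = ‖κ‖ • (Z₃ (c₃ c₃))`;
`S₃` is a unitary of the corner `p₃` (`star_Sl`, `Tl_Sl`; only `star S₃ * S₃ = p₃` is needed); by
`polar_one` `‖κ‖ S₃ = ‖κ‖ Z₃`, `S₃ = Z₃`.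
(6) `A₄ = U A₃`, `B₄ = B₃ U*`: `A₄ B₄ = U p₃ U* = p`, `B₄ A₄ = p`, `A₄ = A₄ p`, `p A₄ = A₄ B₄ A₄ = A₄ p = A₄`,
`B₄ = p B₄`, `B₄ p = B₄ A₄ B₄ = p B₄ = B₄`. In the commutative corner `U S₃ U* = A₄ z B₄ = z A₄ B₄ = z p = z`.
-/

set_option linter.unusedSectionVars false

namespace Pool.Agent.RGD

open Pool.Agent.GHT Pool.Agent.AUE
open scoped LaurentPolynomial

/-! ### Abstract lemmas in a C*-algebra -/

section abs

variable {D : Type} [CStarAlgebra D]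

/-- The last step: a unitary conjugate. -/
theorem RigF_fin {p z A B p₃ U : D} (hc : ComC p) (hz : p * z = z)
    (hz' : z * p = z) (hAB : A * B = p₃) (hBA : B * A = p) (hA : A * p = A)
    (hU : star U * U = 1) (h : U * p₃ * star U = p) : U * (A * z * B) * star U = z := by
  have h1 : (U * A) * (B * star U) = p := by
    calc (U * A) * (B * star U) = U * (A * B) * star U := by noncomm_ring
      _ = p := by rw [hAB, h]
  have h2 : (B * star U) * (U * A) = p := by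
    calc (B * star U) * (U * A) = B * (star U * U) * A := by noncomm_ring
      _ = p := by rw [hU, mul_one, hBA]
  have h3 : (U * A) * p = U * A := by rw [mul_assoc, hA]
  have h4 : p * (U * A) = U * A := by
    calc p * (U * A) = (U * A) * (B * star U) * (U * A) := by rw [h1]
      _ = (U * A) * ((B * star U) * (U * A)) := by noncomm_ring
      _ = U * A := by rw [h2, h3]
  have h5 : (U * A) * z = z * (U * A) := hc.comm h4 h3 hz hz'
  calc U * (A * z * B) * star U = ((U * A) * z) * (B * star U) := by noncomm_ring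
    _ = z * ((U * A) * (B * star U)) := by rw [h5]; noncomm_ring
    _ = z := by rw [h1, hz']

/-- First alternative. -/
theorem RigF_one {p Z S c : D} {κ : ℂ} (hκ : κ ≠ 0) (hp : star p = p)
    (hpp : p * p = p) (hZ : Z * p = Z) (h1 : star Z * Z = p) (h3 : star S * S = p)
    (hc : star c = c) (hc1 : p * c = c) (hc2 : c * p = c) (h : κ • S = Z * (c * c)) :
    κ • S = ((‖κ‖ : ℝ) : ℂ) • Z := by
  have h0 : S = κ⁻¹ • (Z * (c * c)) := by rw [← h, smul_smul, inv_mul_cancel₀ hκ, one_smul]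
  have h2 := polar_one hp hpp hZ h1 h3 hc hc1 hc2 h0
  have hn : ((‖κ‖ : ℝ) : ℂ) ≠ 0 := by
    rw [Ne, Complex.ofReal_eq_zero]
    exact norm_ne_zero_iff.2 hκ
  have h4 : (((‖κ‖ : ℝ) : ℂ) * κ) • (((‖κ⁻¹‖ : ℝ) : ℂ) • S) =
      (((‖κ‖ : ℝ) : ℂ) * κ) • (κ⁻¹ • Z) := by rw [h2]
  rw [smul_smul, smul_smul] at h4
  have e1 : ((‖κ‖ : ℝ) : ℂ) * κ * ((‖κ⁻¹‖ : ℝ) : ℂ) = κ := by
    rw [norm_inv, Complex.ofReal_inv]
    field_simp
  have e2 : ((‖κ‖ : ℝ) : ℂ) * κ * κ⁻¹ = ((‖κ‖ : ℝ) : ℂ) := by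
    field_simp
  rw [e1, e2] at h4
  exact h4

/-- Second alternative. -/
theorem RigF_two {p Z S c : D} {κ : ℂ} (hκ : κ ≠ 0) (hp : star p = p)
    (hpp : p * p = p) (hZ : p * Z = Z) (h1 : Z * star Z = p) (h3 : star S * S = p)
    (hc : star c = c) (hc1 : p * c = c) (hc2 : c * p = c) (h : S = κ • (star Z * (c * c))) :
    κ • star S = ((‖κ‖ : ℝ) : ℂ) • Z := by
  have hZ' : star Z * p = star Z := by
    have := congrArg star hZ
    rwa [star_mul, hp] at this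
  have h2 := polar_one hp hpp hZ' (by rw [star_star, h1]) h3 hc hc1 hc2 h
  have hn : ((‖κ‖ : ℝ) : ℂ) ≠ 0 := by
    rw [Ne, Complex.ofReal_eq_zero]
    exact norm_ne_zero_iff.2 hκ
  have h4 := congrArg star h2
  rw [star_smul, star_smul, star_star] at h4
  have e0 : star ((‖κ‖ : ℝ) : ℂ) = ((‖κ‖ : ℝ) : ℂ) := Complex.conj_ofReal _
  rw [e0] at h4
  have h5 : ((((‖κ‖ : ℝ) : ℂ))⁻¹ * κ) • (((‖κ‖ : ℝ) : ℂ) • star S) =
      ((((‖κ‖ : ℝ) : ℂ))⁻¹ * κ) • (star κ • Z) := by rw [h4]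
  rw [smul_smul, smul_smul] at h5
  have e1 : (((‖κ‖ : ℝ) : ℂ))⁻¹ * κ * ((‖κ‖ : ℝ) : ℂ) = κ := by field_simp
  have e2 : (((‖κ‖ : ℝ) : ℂ))⁻¹ * κ * star κ = ((‖κ‖ : ℝ) : ℂ) := by
    have : κ * star κ = ((‖κ‖ : ℝ) : ℂ) * ((‖κ‖ : ℝ) : ℂ) := by
      have := Complex.mul_conj κ
      rw [Complex.normSq_eq_norm_sq] at this
      rw [sq] at this
      rw [Complex.ofReal_mul] at this
      exact this
    rw [mul_assoc, this, ← mul_assoc, inv_mul_cancel₀ hn, one_mul]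
  rw [e1, e2] at h5
  exact h5

/-- The equivalences in the straightening, multiplied by an equivalence. -/
theorem RigF_eqv {G : DGraph} [Encodable G.V] [Encodable G.E] (Θ : LFam G D) (v : G.V) {p α β : D}
    (h2 : α * Θ.P v = α) (h4 : β * p = β) (h1 : p * α = α)
    (h5 : α * β = p) (h6 : β * α = Θ.P v) :
    (UU Θ v * β) * p = UU Θ v * β ∧ Θ.str.p v * (UU Θ v * β) = UU Θ v * β ∧
    p * (α * WW Θ v) = α * WW Θ v ∧ (α * WW Θ v) * Θ.str.p v = α * WW Θ v ∧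
    (UU Θ v * β) * (α * WW Θ v) = Θ.str.p v ∧ (α * WW Θ v) * (UU Θ v * β) = p := by
  refine ⟨by rw [mul_assoc, h4], ?_, by rw [← mul_assoc, h1], ?_, ?_, ?_⟩
  · calc Θ.str.p v * (UU Θ v * β) = UU Θ v * (WW Θ v * UU Θ v) * β := by
          rw [← UU_WW]; noncomm_ring
      _ = UU Θ v * β := by rw [WW_UU, UU_P]
  · calc (α * WW Θ v) * Θ.str.p v = α * (WW Θ v * UU Θ v) * WW Θ v := by
          rw [← UU_WW]; noncomm_ring
      _ = α * WW Θ v := by rw [WW_UU, h2]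
  · calc (UU Θ v * β) * (α * WW Θ v) = UU Θ v * (β * α) * WW Θ v := by noncomm_ring
      _ = Θ.str.p v := by rw [h6, UU_P, UU_WW]
  · calc (α * WW Θ v) * (UU Θ v * β) = α * (WW Θ v * UU Θ v) * β := by noncomm_ring
      _ = p := by rw [WW_UU, h2, h5]

end abs

theorem rigid_fam {E F : DGraph} [Encodable E.V] [Encodable E.E] [Encodable F.V] [Encodable F.E]
    {f : Leavitt E →ₙₐ[ℂ] Leavitt F} {g : Leavitt F →ₙₐ[ℂ] Leavitt E} (hgf : ∀ x, g (f x) = x)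
    (hfg : ∀ y, f (g y) = y) {v : E.V} {l : List E.E} (hl : IsReturn E v l) {D : Type}
    [CStarAlgebra D] (X : CKFam E D) (hq : ∀ e ∈ l, X.p (E.s e) = X.s e * star (X.s e))
    (hc : ComC (X.p v)) {U : D} (hU : star U * U = 1) (hU' : U * star U = 1)
    (h : U * (pull f (pull g X.toL).str.toL).str.p v * star U = X.p v) :
    U * Sl (pull f (pull g X.toL).str.toL).str.toL l v * star U = Sl X.toL l v := by
  have hP := hl.2.1
  have hq' : ∀ e ∈ l, X.toL.P (E.s e) = X.toL.S e * X.toL.T e := hq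
  have hTh : ∀ e ∈ l, (pull f (pull g X.toL).str.toL).P (E.s e) =
      (pull f (pull g X.toL).str.toL).S e * (pull f (pull g X.toL).str.toL).T e :=
    fun e he => pull_str_q hgf X (hq e he)
  obtain ⟨ρ₁, h1P, h1S, h1T, h1c⟩ := exists_qhom X.toL hq'
  obtain ⟨ρ₂, h2P, h2S, h2T, h2c⟩ := exists_qhom (pull f (pull g X.toL).str.toL) hTh
  have hpp : X.p v * X.p v = X.p v := X.p_mul v
  have hps : star (X.p v) = X.p v := X.p_star v
  have hz1 : X.p v * Sl X.toL l v = Sl X.toL l v := P_Sl X.toL hP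
  have hz2 : Sl X.toL l v * X.p v = Sl X.toL l v := Sl_P X.toL l v
  by_cases hp0 : X.p v = 0
  · have h3 : (pull f (pull g X.toL).str.toL).str.p v = 0 := by
      have : star U * (U * (pull f (pull g X.toL).str.toL).str.p v * star U) * U = 0 := by
        rw [h, hp0, mul_zero, zero_mul]
      calc (pull f (pull g X.toL).str.toL).str.p v
          = (star U * U) * (pull f (pull g X.toL).str.toL).str.p v * (star U * U) := by
            rw [hU, one_mul, mul_one]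
        _ = star U * (U * (pull f (pull g X.toL).str.toL).str.p v * star U) * U := by noncomm_ring
        _ = 0 := this
    have h4 : Sl (pull f (pull g X.toL).str.toL).str.toL l v = 0 := by
      have := P_Sl (pull f (pull g X.toL).str.toL).str.toL hP
      rw [← this]
      show (pull f (pull g X.toL).str.toL).str.p v * _ = 0
      rw [h3, zero_mul]
    rw [h4, mul_zero, zero_mul, ← hz1, hp0, zero_mul]
  have h0 : (qfam E l).P v ≠ 0 := by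
    intro h0
    apply hp0
    have := h1P v
    rw [h0, map_zero] at this
    exact this.symm
  obtain ⟨w, d, a, b, κ, hd, hdq, hκ, r1, r2, r3, r4, r5, r6, r7⟩ := r1_main hgf hl h0
  -- the images of the families
  have m1 : (qfam E l).map ρ₁ = X.toL := by
    ext x
    · exact h1P x
    · exact h1S x
    · exact h1T x
  have m2 : (qfam E l).map ρ₂ = pull f (pull g X.toL).str.toL := by
    ext x
    · exact h2P x
    · exact h2S x
    · exact h2T x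
  have m3 : (qpull l g).map ρ₁ = pull g X.toL := by
    ext x
    · exact h1c _
    · exact h1c _
    · exact h1c _
  have h2c' : ∀ y : Leavitt F, ρ₂ (qcan E l (g y)) = (pull g X.toL).str.toL.lift y := by
    intro y
    rw [h2c, pull_lift, NonUnitalAlgHom.comp_apply, hfg]
  have m4 : (qpull l g).map ρ₂ = (pull g X.toL).str.toL := by
    ext x
    · exact (h2c' _).trans ((pull g X.toL).str.toL.lift_vert x)
    · exact (h2c' _).trans ((pull g X.toL).str.toL.lift_edge x)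
    · exact (h2c' _).trans ((pull g X.toL).str.toL.lift_ghost x)
  generalize hTdef : pull f (pull g X.toL).str.toL = Th at *
  generalize hξdef : pull g X.toL = ξ at *
  have n1 : ∀ x, ρ₁ ((qfam E l).P x) = X.p x := h1P
  have n3 : ∀ x, ρ₁ ((qpull l g).P x) = ξ.P x := fun x => by rw [← m3]; rfl
  have n4 : ∀ x, ρ₂ ((qpull l g).P x) = ξ.str.p x := fun x => by
    have : ξ.str.toL.P x = ξ.str.p x := rfl
    rw [← this, ← m4]; rfl
  have a1 : X.p v * ρ₁ a = ρ₁ a := by rw [← n1, ← map_mul, r1]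
  have a2 : ρ₁ a * ξ.P w = ρ₁ a := by rw [← n3, ← map_mul, r2]
  have a3 : ξ.P w * ρ₁ b = ρ₁ b := by rw [← n3, ← map_mul, r3]
  have a4 : ρ₁ b * X.p v = ρ₁ b := by rw [← n1, ← map_mul, r4]
  have a5 : ρ₁ a * ρ₁ b = X.p v := by rw [← n1, ← map_mul, r5]
  have a6 : ρ₁ b * ρ₁ a = ξ.P w := by rw [← n3, ← map_mul, r6]
  have b1 : Th.P v * ρ₂ a = ρ₂ a := by rw [← h2P, ← map_mul, r1]
  have b2 : ρ₂ a * ξ.str.p w = ρ₂ a := by rw [← n4, ← map_mul, r2]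
  have b3 : ξ.str.p w * ρ₂ b = ρ₂ b := by rw [← n4, ← map_mul, r3]
  have b4 : ρ₂ b * Th.P v = ρ₂ b := by rw [← h2P, ← map_mul, r4]
  have b5 : ρ₂ a * ρ₂ b = Th.P v := by rw [← h2P, ← map_mul, r5]
  have b6 : ρ₂ b * ρ₂ a = ξ.str.p w := by rw [← n4, ← map_mul, r6]
  -- the unitary `z` of the corner at `v`
  have hz3 : star (Sl X.toL l v) * Sl X.toL l v = X.p v := by
    rw [star_Sl]; exact Tl_Sl X.toL hP
  have hz4 : Sl X.toL l v * star (Sl X.toL l v) = X.p v := by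
    rw [star_Sl]; exact Sl_Tl X.toL hP hq'
  have hzρ : Sl X.toL l v = ρ₁ (Sl (qfam E l) l v) := by rw [← m1, Sl_map]
  generalize hzdef : Sl X.toL l v = z at *
  have hp's : star (ξ.str.p w) = ξ.str.p w := ξ.str.p_star w
  have hp'p : ξ.str.p w * ξ.str.p w = ξ.str.p w := ξ.str.p_mul w
  obtain ⟨c1, c2, c3, c4, c5, c6⟩ := RigF_eqv ξ w a2 a4 a1 a5 a6
  have hc' : ComC (ξ.str.p w) := comC_equiv hpp hp'p hc c5 c6
  obtain ⟨u1, u2⟩ := unit_conj hps hp's hc c1 c2 c3 c4 c5 hz1 hz2 hz3 hz4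
  have hξq : ∀ e ∈ d, ξ.P (F.s e) = ξ.S e * ξ.T e := by
    intro e he
    have := congrArg ρ₁ (hdq e he)
    rw [map_mul] at this
    rw [← m3]
    exact this
  obtain ⟨c, hc1, hc2, hc3, hc4⟩ := str_path ξ hd.2.1 hξq hc'
  have hS' : star (Sl ξ.str.toL d w) * Sl ξ.str.toL d w = ξ.str.p w := by
    rw [star_Sl]; exact Tl_Sl ξ.str.toL hd.2.1
  have hSξ : ρ₁ (Sl (qpull l g) d w) = Sl ξ d w := by rw [← m3, Sl_map]
  have hTξ : ρ₁ (Tl (qpull l g) d w) = Tl ξ d w := by rw [← m3, Tl_map]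
  have hSΞ : ρ₂ (Sl (qpull l g) d w) = Sl ξ.str.toL d w := by rw [← m4, Sl_map]
  have hTΞ : ρ₂ (Tl (qpull l g) d w) = Tl ξ.str.toL d w := by rw [← m4, Tl_map]
  have key : ∃ y : QL E l, Sl (qfam E l) l v = κ • (a * y * b) ∧
      κ • ρ₂ y = ((‖κ‖ : ℝ) : ℂ) • ((UU ξ w * ρ₁ b) * z * (ρ₁ a * WW ξ w)) := by
    rcases r7 with r7 | r7
    · refine ⟨_, r7, ?_⟩
      rw [hSΞ]
      have hz : z = κ • (ρ₁ a * Sl ξ d w * ρ₁ b) := by
        rw [hzρ, r7, map_smul, map_mul, map_mul, hSξ]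
      have hZ : (UU ξ w * ρ₁ b) * z * (ρ₁ a * WW ξ w) = κ • (UU ξ w * Sl ξ d w * WW ξ w) := by
        rw [hz, mul_smul_comm, smul_mul_assoc]
        congr 1
        calc (UU ξ w * ρ₁ b) * (ρ₁ a * Sl ξ d w * ρ₁ b) * (ρ₁ a * WW ξ w)
            = UU ξ w * ((ρ₁ b * ρ₁ a) * Sl ξ d w) * (ρ₁ b * ρ₁ a) * WW ξ w := by noncomm_ring
          _ = UU ξ w * Sl ξ d w * WW ξ w := by
              rw [a6, P_Sl ξ hd.2.1, mul_assoc (UU ξ w), Sl_P]
      refine RigF_one hκ hp's hp'p ?_ u1 hS' hc1 hc2 hc3 ?_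
      · rw [mul_assoc, c4]
      · rw [hZ, smul_mul_assoc, hc4]
    · refine ⟨_, r7, ?_⟩
      rw [hTΞ, ← star_Sl]
      have hz : z = κ • (ρ₁ a * Tl ξ d w * ρ₁ b) := by
        rw [hzρ, r7, map_smul, map_mul, map_mul, hTξ]
      have hZ : (UU ξ w * ρ₁ b) * z * (ρ₁ a * WW ξ w) = κ • (UU ξ w * Tl ξ d w * WW ξ w) := by
        rw [hz, mul_smul_comm, smul_mul_assoc]
        congr 1
        calc (UU ξ w * ρ₁ b) * (ρ₁ a * Tl ξ d w * ρ₁ b) * (ρ₁ a * WW ξ w)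
            = UU ξ w * ((ρ₁ b * ρ₁ a) * Tl ξ d w) * (ρ₁ b * ρ₁ a) * WW ξ w := by noncomm_ring
          _ = UU ξ w * Tl ξ d w * WW ξ w := by
              rw [a6, P_Tl, mul_assoc (UU ξ w), Tl_P ξ hd.2.1]
      have hpZ : ξ.str.p w * ((UU ξ w * ρ₁ b) * z * (ρ₁ a * WW ξ w)) =
          (UU ξ w * ρ₁ b) * z * (ρ₁ a * WW ξ w) := by
        calc _ = (ξ.str.p w * (UU ξ w * ρ₁ b)) * z * (ρ₁ a * WW ξ w) := by noncomm_ring
          _ = _ := by rw [c2]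
      refine RigF_two hκ hp's hp'p hpZ u2 hS' hc1 hc2 hc3 ?_
      have hSS : UU ξ w * Sl ξ d w * WW ξ w =
          κ • star ((UU ξ w * ρ₁ b) * z * (ρ₁ a * WW ξ w)) := by
        have e1 : (UU ξ w * Sl ξ d w * WW ξ w) * ((UU ξ w * ρ₁ b) * z * (ρ₁ a * WW ξ w)) =
            κ • ξ.str.p w := by
          rw [hZ, mul_smul_comm]
          congr 1
          calc UU ξ w * Sl ξ d w * WW ξ w * (UU ξ w * Tl ξ d w * WW ξ w)
              = UU ξ w * (Sl ξ d w * (WW ξ w * UU ξ w) * Tl ξ d w) * WW ξ w := by noncomm_ring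
            _ = ξ.str.p w := by
                rw [WW_UU, Sl_P, Sl_Tl ξ hd.2.1 hξq, UU_P, UU_WW]
        have e2 : (UU ξ w * Sl ξ d w * WW ξ w) * ξ.str.p w = UU ξ w * Sl ξ d w * WW ξ w := by
          calc (UU ξ w * Sl ξ d w * WW ξ w) * ξ.str.p w
              = UU ξ w * Sl ξ d w * ((WW ξ w * UU ξ w) * WW ξ w) := by rw [← UU_WW]; noncomm_ring
            _ = UU ξ w * Sl ξ d w * WW ξ w := by rw [WW_UU, P_WW]
        rw [← e2, ← u2, ← mul_assoc, e1, smul_mul_assoc]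
        congr 1
        have := congrArg star (show ((UU ξ w * ρ₁ b) * z * (ρ₁ a * WW ξ w)) * ξ.str.p w =
          (UU ξ w * ρ₁ b) * z * (ρ₁ a * WW ξ w) by rw [mul_assoc, c4])
        rw [star_mul, hp's] at this
        exact this
      rw [hc4, hSS, smul_mul_assoc]
  obtain ⟨y, hy1, hy2⟩ := key
  -- the image of the loop under the second homomorphism
  have hTl : Sl Th l v = ((‖κ‖ : ℝ) : ℂ) •
      (ρ₂ a * ((UU ξ w * ρ₁ b) * z * (ρ₁ a * WW ξ w)) * ρ₂ b) := by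
    have : Sl Th l v = ρ₂ (Sl (qfam E l) l v) := by rw [← m2, Sl_map]
    rw [this, hy1, map_smul, map_mul, map_mul, ← smul_mul_assoc, ← mul_smul_comm, hy2,
      mul_smul_comm, smul_mul_assoc]
  -- the last equivalence
  have g1 : (ρ₂ a * (UU ξ w * ρ₁ b)) * ((ρ₁ a * WW ξ w) * ρ₂ b) = Th.P v := by
    calc (ρ₂ a * (UU ξ w * ρ₁ b)) * ((ρ₁ a * WW ξ w) * ρ₂ b)
        = ρ₂ a * ((UU ξ w * ρ₁ b) * (ρ₁ a * WW ξ w)) * ρ₂ b := by noncomm_ring
      _ = Th.P v := by rw [c5, b2, b5]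
  have g2 : ((ρ₁ a * WW ξ w) * ρ₂ b) * (ρ₂ a * (UU ξ w * ρ₁ b)) = X.p v := by
    calc ((ρ₁ a * WW ξ w) * ρ₂ b) * (ρ₂ a * (UU ξ w * ρ₁ b))
        = ((ρ₁ a * WW ξ w) * (ρ₂ b * ρ₂ a)) * (UU ξ w * ρ₁ b) := by noncomm_ring
      _ = X.p v := by rw [b6, c4, c6]
  have g3 : Th.P v * (ρ₂ a * (UU ξ w * ρ₁ b)) = ρ₂ a * (UU ξ w * ρ₁ b) := by
    rw [← mul_assoc, b1]
  have g4 : (ρ₂ a * (UU ξ w * ρ₁ b)) * X.p v = ρ₂ a * (UU ξ w * ρ₁ b) := by
    rw [mul_assoc, c1]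
  have g5 : X.p v * ((ρ₁ a * WW ξ w) * ρ₂ b) = (ρ₁ a * WW ξ w) * ρ₂ b := by
    rw [← mul_assoc, c3]
  have g6 : ((ρ₁ a * WW ξ w) * ρ₂ b) * Th.P v = (ρ₁ a * WW ξ w) * ρ₂ b := by
    rw [mul_assoc, b4]
  obtain ⟨d1, d2, d3, d4, d5, d6⟩ := RigF_eqv Th v g6 g4 g5 g2 g1
  have hp3s : star (Th.str.p v) = Th.str.p v := Th.str.p_star v
  have hp3p : Th.str.p v * Th.str.p v = Th.str.p v := Th.str.p_mul v
  have hc3 : ComC (Th.str.p v) := comC_equiv hpp hp3p hc d5 d6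
  obtain ⟨w1, w2⟩ := unit_conj hps hp3s hc d1 d2 d3 d4 d5 hz1 hz2 hz3 hz4
  obtain ⟨c', k1, k2, k3, k4⟩ := str_path Th hP hTh hc3
  have hS3 : star (Sl Th.str.toL l v) * Sl Th.str.toL l v = Th.str.p v := by
    rw [star_Sl]; exact Tl_Sl Th.str.toL hP
  have hfin : Sl Th.str.toL l v =
      (UU Th v * (ρ₂ a * (UU ξ w * ρ₁ b))) * z * (((ρ₁ a * WW ξ w) * ρ₂ b) * WW Th v) := by
    have hZ3 : (UU Th v * (ρ₂ a * (UU ξ w * ρ₁ b))) * z *
        (((ρ₁ a * WW ξ w) * ρ₂ b) * WW Th v) * Th.str.p v =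
        (UU Th v * (ρ₂ a * (UU ξ w * ρ₁ b))) * z * (((ρ₁ a * WW ξ w) * ρ₂ b) * WW Th v) := by
      rw [mul_assoc, d4]
    have e1 : Sl Th.str.toL l v = ((‖κ‖ : ℝ) : ℂ) •
        (((UU Th v * (ρ₂ a * (UU ξ w * ρ₁ b))) * z *
          (((ρ₁ a * WW ξ w) * ρ₂ b) * WW Th v)) * (c' * c')) := by
      rw [k4, hTl, mul_smul_comm, smul_mul_assoc, smul_mul_assoc]
      congr 1
      noncomm_ring
    have e2 := polar_one hp3s hp3p hZ3 w1 hS3 k1 k2 k3 e1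
    have hn : ‖((‖κ‖ : ℝ) : ℂ)‖ = ‖κ‖ := by
      rw [Complex.norm_real, norm_norm]
    rw [hn] at e2
    have hn' : ((‖κ‖ : ℝ) : ℂ) ≠ 0 := by
      rw [Ne, Complex.ofReal_eq_zero]
      exact norm_ne_zero_iff.2 hκ
    exact smul_right_injective D hn' e2
  rw [hfin]
  exact RigF_fin hc hz1 hz2 d5 d6 d1 hU h

end Pool.Agent.RGD
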