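import Pool.Agent.RGD.RigF
import Pool.Agent.AUE.Aue

/-!
# Rng: the rigidity theorem

Let `S` be the topological closure of the range of `π` (a closed `NonUnitalStarSubalgebra ℂ D`, so a
C*-algebra `D₁`: `NonUnitalStarSubalgebra.nonUnitalCStarAlgebra`), `π₁ : A →⋆ₙₐ[ℂ] D₁` the corestriction,
`D₂ = Unitization ℂ D₁` (a unital C*-algebra), `π₂ = inr ∘ π₁`, `X = Φ.map π₂`.
`ComC (X.p v)`: `p = π₁ (Φ.p v)`; for `y, y' ∈ D₁` the elements `p y p`, `p y' p` commute: closed condition on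
`y` and `y'`, true on the range of `π` by `hcomm`; for `y = c + y₁` in `D₂`: `p y p = c p + p y₁ p`.
`(pull g X.toL).str = (pull g Φ.toL).str.map π₂` (`CKFam.toL_map`, `pull_map`, `LFam.map_str`) `= (Ψ.map β).map π₂`
(`starOf_map`, `β = starOf hΨ g`), and so `(pull f (pull g X.toL).str.toL).str = (pull f ((Ψ.map (π₂.comp β)).toL)).str
= (pull f Ψ.toL).str.map (π₂.comp β) = Φ.map (π₂.comp (β.comp α))`. `U = (Unitization.starLift π₂) u`
(a unital star homomorphism `Unitization ℂ A → D₂`): `U * π₂ y * star U = π₂ (adU u y)` because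
`inr (adU u y) = u * inr y * star u` (see `AUE/Aue.lean`). Apply `rigid_fam` and `Sl_map`; `inr` and the
inclusion `D₁ → D` are injective.
-/

set_option linter.unusedSectionVars false

namespace Pool.Agent.RGD

open Pool.Agent.GHT Pool.Agent.AUE
open scoped LaurentPolynomial

theorem Rng_fam {E F : DGraph} [Encodable E.V] [Encodable E.E] [Encodable F.V] [Encodable F.E]
    {A B : Type} [NonUnitalCStarAlgebra A] [NonUnitalCStarAlgebra B] {Φ : CKFam E A}
    (hΦ : Φ.IsUniversal) {Ψ : CKFam F B} (hΨ : Ψ.IsUniversal)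
    {f : Leavitt E →ₙₐ[ℂ] Leavitt F} {g : Leavitt F →ₙₐ[ℂ] Leavitt E}
    {D : Type} [NonUnitalCStarAlgebra D] (π : A →⋆ₙₐ[ℂ] D) :
    (pull f (pull g (Φ.map π).toL).str.toL).str =
      ((Φ.map (starOf hΦ (Ψ := Ψ) f)).map (starOf hΨ (Ψ := Φ) g)).map π := by
  rw [CKFam.toL_map, pull_map, LFam.map_str, ← starOf_map hΨ g, CKFam.toL_map, CKFam.toL_map,
    pull_map, pull_map, LFam.map_str, LFam.map_str, ← starOf_map hΦ f]

theorem Rng_comC {D : Type} [NonUnitalCStarAlgebra D] {p : D} (hp : p * p = p) (hc : ComC p) :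
    ComC ((p : D) : Unitization ℂ D) := by
  have key : ∀ y : Unitization ℂ D, (p : Unitization ℂ D) * y * (p : Unitization ℂ D) =
      ((p * (y.fst • p + y.snd) * p : D) : Unitization ℂ D) := by
    intro y
    ext
    · simp
    · simp [hp, mul_add, add_mul, mul_smul_comm, smul_mul_assoc]
  intro y z
  rw [key, key, ← Unitization.inr_mul, ← Unitization.inr_mul, hc]

theorem Rng_core {E F : DGraph} [Encodable E.V] [Encodable E.E] [Encodable F.V] [Encodable F.E]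
    {A B : Type} [NonUnitalCStarAlgebra A] [NonUnitalCStarAlgebra B] {Φ : CKFam E A}
    (hΦ : Φ.IsUniversal) {Ψ : CKFam F B} (hΨ : Ψ.IsUniversal)
    {f : Leavitt E →ₙₐ[ℂ] Leavitt F} {g : Leavitt F →ₙₐ[ℂ] Leavitt E} (hgf : ∀ x, g (f x) = x)
    (hfg : ∀ y, f (g y) = y) {v : E.V} {l : List E.E} (hl : IsReturn E v l) {D : Type}
    [NonUnitalCStarAlgebra D] (π : A →⋆ₙₐ[ℂ] D)
    (hq : ∀ e ∈ l, π (Φ.p (E.s e)) = π (Φ.s e) * star (π (Φ.s e)))
    (hcomm : ComC (π (Φ.p v)))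
    (u : unitary (Unitization ℂ A))
    (h : adU u (starOf hΨ (Ψ := Φ) g (starOf hΦ (Ψ := Ψ) f (Φ.p v))) = Φ.p v) :
    π (adU u (starOf hΨ (Ψ := Φ) g (starOf hΦ (Ψ := Ψ) f (Sl Φ.toL l v)))) =
      π (Sl Φ.toL l v) := by
  obtain ⟨w, hw⟩ := comp_adU π u
  have hw' : ∀ a : A, π (adU u a) = adU w (π a) := fun a => DFunLike.congr_fun hw a
  set ι : D →⋆ₙₐ[ℂ] Unitization ℂ D := Unitization.inrNonUnitalStarAlgHom ℂ D with hι
  have hιa : ∀ d : D, ι d = (d : Unitization ℂ D) := fun d => rfl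
  set π₂ : A →⋆ₙₐ[ℂ] Unitization ℂ D := ι.comp π with hπ₂
  have hπa : ∀ a : A, π₂ a = ((π a : D) : Unitization ℂ D) := fun a => rfl
  have hconj : ∀ a : A, (w : Unitization ℂ D) * π₂ a * star (w : Unitization ℂ D) =
      π₂ (adU u a) := by
    intro a
    rw [hπa, hπa, hw', inr_adU]
  have hX := Rng_fam hΦ hΨ (f := f) (g := g) π₂
  have h1 : ∀ e ∈ l, (Φ.map π₂).p (E.s e) = (Φ.map π₂).s e * star ((Φ.map π₂).s e) := by
    intro e he
    show π₂ (Φ.p (E.s e)) = π₂ (Φ.s e) * star (π₂ (Φ.s e))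
    rw [hπa, hπa, hq e he, Unitization.inr_mul, Unitization.inr_star]
  have h2 : ComC ((Φ.map π₂).p v) := by
    show ComC (π₂ (Φ.p v))
    rw [hπa]
    exact Rng_comC (by rw [← map_mul, Φ.p_mul]) hcomm
  have hU : star (w : Unitization ℂ D) * (w : Unitization ℂ D) = 1 := Unitary.coe_star_mul_self w
  have hU' : (w : Unitization ℂ D) * star (w : Unitization ℂ D) = 1 := Unitary.coe_mul_star_self w
  have h3 : (w : Unitization ℂ D) * (pull f (pull g (Φ.map π₂).toL).str.toL).str.p v *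
      star (w : Unitization ℂ D) = (Φ.map π₂).p v := by
    rw [hX]
    show (w : Unitization ℂ D) * π₂ (starOf hΨ (Ψ := Φ) g (starOf hΦ (Ψ := Ψ) f (Φ.p v))) *
      star (w : Unitization ℂ D) = π₂ (Φ.p v)
    rw [hconj, h]
  have h4 := rigid_fam hgf hfg hl (Φ.map π₂) h1 h2 hU hU' h3
  rw [hX] at h4
  simp only [CKFam.toL_map, Sl_map] at h4
  rw [hconj, hπa, hπa] at h4
  exact Unitization.inr_injective h4

theorem rigidity {E F : DGraph} [Encodable E.V] [Encodable E.E] [Encodable F.V] [Encodable F.E]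
    {A B : Type} [NonUnitalCStarAlgebra A] [NonUnitalCStarAlgebra B] {Φ : CKFam E A}
    (hΦ : Φ.IsUniversal) {Ψ : CKFam F B} (hΨ : Ψ.IsUniversal)
    {f : Leavitt E →ₙₐ[ℂ] Leavitt F} {g : Leavitt F →ₙₐ[ℂ] Leavitt E} (hgf : ∀ x, g (f x) = x)
    (hfg : ∀ y, f (g y) = y) {v : E.V} {l : List E.E} (hl : IsReturn E v l) {D : Type}
    [NonUnitalCStarAlgebra D] (π : A →⋆ₙₐ[ℂ] D)
    (hq : ∀ e ∈ l, π (Φ.p (E.s e)) = π (Φ.s e) * star (π (Φ.s e)))
    (hcomm : ∀ y y' : A, π (Φ.p v * y * Φ.p v) * π (Φ.p v * y' * Φ.p v) =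
      π (Φ.p v * y' * Φ.p v) * π (Φ.p v * y * Φ.p v))
    (u : unitary (Unitization ℂ A))
    (h : adU u (starOf hΨ (Ψ := Φ) g (starOf hΦ (Ψ := Ψ) f (Φ.p v))) = Φ.p v) :
    π (adU u (starOf hΨ (Ψ := Φ) g (starOf hΦ (Ψ := Ψ) f (Sl Φ.toL l v)))) =
      π (Sl Φ.toL l v) := by
  let R : NonUnitalStarSubalgebra ℂ D := NonUnitalStarAlgHom.range π
  let S : NonUnitalStarSubalgebra ℂ D := R.topologicalClosure
  have hSc : IsClosed (S : Set D) := R.isClosed_topologicalClosure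
  have hmem : ∀ a : A, π a ∈ S := fun a =>
    R.le_topologicalClosure (NonUnitalStarAlgHom.mem_range_self π a)
  have hSR : ∀ d : D, d ∈ S → d ∈ closure (Set.range π) := fun d hd => hd
  let _ : NonUnitalCStarAlgebra S := NonUnitalStarSubalgebra.nonUnitalCStarAlgebra S (h_closed := hSc)
  let π₁ : A →⋆ₙₐ[ℂ] S := NonUnitalStarAlgHom.codRestrict π S hmem
  have hπ₁ : ∀ a : A, ((π₁ a : S) : D) = π a := fun a => rfl
  have e1 : ∀ a : A, ∀ y : D, y ∈ closure (Set.range π) →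
      (π (Φ.p v) * y * π (Φ.p v)) * (π (Φ.p v) * π a * π (Φ.p v)) =
      (π (Φ.p v) * π a * π (Φ.p v)) * (π (Φ.p v) * y * π (Φ.p v)) := by
    intro a y hy
    have hcl : IsClosed {y : D | (π (Φ.p v) * y * π (Φ.p v)) * (π (Φ.p v) * π a * π (Φ.p v)) =
      (π (Φ.p v) * π a * π (Φ.p v)) * (π (Φ.p v) * y * π (Φ.p v))} :=
      isClosed_eq (by fun_prop) (by fun_prop)
    refine closure_minimal ?_ hcl hy
    rintro _ ⟨b, rfl⟩
    have h0 := hcomm b a
    simp only [map_mul] at h0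
    exact h0
  have e2 : ∀ y : D, y ∈ closure (Set.range π) → ∀ z : D, z ∈ closure (Set.range π) →
      (π (Φ.p v) * y * π (Φ.p v)) * (π (Φ.p v) * z * π (Φ.p v)) =
      (π (Φ.p v) * z * π (Φ.p v)) * (π (Φ.p v) * y * π (Φ.p v)) := by
    intro y hy z hz
    have hcl : IsClosed {z : D | (π (Φ.p v) * y * π (Φ.p v)) * (π (Φ.p v) * z * π (Φ.p v)) =
      (π (Φ.p v) * z * π (Φ.p v)) * (π (Φ.p v) * y * π (Φ.p v))} :=
      isClosed_eq (by fun_prop) (by fun_prop)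
    refine closure_minimal ?_ hcl hz
    rintro _ ⟨b, rfl⟩
    exact e1 b y hy
  have hc : ComC (π₁ (Φ.p v)) := by
    intro y z
    apply Subtype.ext
    exact e2 (y : D) (hSR _ y.2) (z : D) (hSR _ z.2)
  have hq₁ : ∀ e ∈ l, π₁ (Φ.p (E.s e)) = π₁ (Φ.s e) * star (π₁ (Φ.s e)) := by
    intro e he
    apply Subtype.ext
    exact hq e he
  have h5 := Rng_core hΦ hΨ hgf hfg hl π₁ hq₁ hc u h
  have h6 := congrArg (fun y : S => (y : D)) h5
  exact h6

end Pool.Agent.RGD
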