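import Pool.Agent.RGD.ArB

/-!
# StrE: the straightening of one edge with `P_{s(e)} = S_e T_e`

Read `GHT/St12.lean`, `GHT/St3.lean`, `GHT/Str.lean`. `Θ.str.s e = (F2).S e * ksq ((F2).T e)` (`rfl`), `F1 = Θ.F1`,
`F2 = F1.F2 _`, `F1.P v = UU v * WW v`, `F1.S e = UU (s e) * Θ.S e * WW (r e)`, `F1.T e = UU (r e) * Θ.T e * WW (s e)`.
(1) `F1.P (s e) = F1.S e * F1.T e`: `UU S_e WW UU T_e WW = UU S_e P_{r(e)} T_e WW = UU P WW`.
(2) so for every edge `f ≠ e` with source `s e`: `F1.S f = 0` (`S_zero`). In the frame `F1.eF (s e)` all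
`U j` with `j ≠ encode e` are `0` (`extN_cases`, `extN_encode`), so `E (encode e) = 0`, `R (encode e) = rp 0 = 0`
(`rp_self`), and by `Frame.GU_one` `F2.S e = U (encode e) - 0 = F1.S e` (`eF_U`).
(3) `k = ksq (F2.T e)`; by `ksq_form` `k = star c₀ * c₀`; put `c = ksq (star c₀)`: `star c = c` (`ksq_star`),
`c * c = star c₀ * c₀ = k` (`ksq_sq`). `p = Θ.str.p (r e) = F1.P (r e)`: `p * k = k` (`Corner.qk` for
`F2.corner`), `k * p = k`, so `(p c - c)(p c - c)* = p k p - p k - k p + k = 0`, `p c = c`, `c p = c`.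
-/

set_option linter.unusedSectionVars false

namespace Pool.Agent.RGD

open Pool.Agent.GHT Pool.Agent.AUE
open scoped LaurentPolynomial

theorem str_edge {G : DGraph} [Encodable G.V] [Encodable G.E] {D : Type} [NonUnitalCStarAlgebra D]
    (Θ : LFam G D) (e : G.E) (he : Θ.P (G.s e) = Θ.S e * Θ.T e) :
    ∃ c : D, star c = c ∧ Θ.str.p (G.r e) * c = c ∧ c * Θ.str.p (G.r e) = c ∧
      Θ.str.s e = UU Θ (G.s e) * Θ.S e * WW Θ (G.r e) * (c * c) := by
  have hSd : Θ.F1.S e = UU Θ (G.s e) * Θ.S e * WW Θ (G.r e) := rfl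
  have hTd : Θ.F1.T e = UU Θ (G.r e) * Θ.T e * WW Θ (G.s e) := rfl
  have hPd : Θ.F1.P (G.s e) = UU Θ (G.s e) * WW Θ (G.s e) := rfl
  have h1 : Θ.F1.P (G.s e) = Θ.F1.S e * Θ.F1.T e := by
    rw [hSd, hTd, hPd]
    calc UU Θ (G.s e) * WW Θ (G.s e)
        = UU Θ (G.s e) * Θ.P (G.s e) * WW Θ (G.s e) := by rw [UU_P]
      _ = UU Θ (G.s e) * (Θ.S e * Θ.P (G.r e) * Θ.T e) * WW Θ (G.s e) := by
          rw [Θ.SP, he]
      _ = UU Θ (G.s e) * (Θ.S e * (WW Θ (G.r e) * UU Θ (G.r e)) * Θ.T e) * WW Θ (G.s e) := by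
          rw [WW_UU]
      _ = _ := by simp only [mul_assoc]
  -- step 2 does not change the edge
  have h2 : (Θ.F1.F2 Θ.F1_sa).S e = Θ.F1.S e := by
    show (Θ.F1.eF (G.s e)).GU (fun _ => 1) (Encodable.encode e) = Θ.F1.S e
    have hU : ∀ j, j ≠ Encodable.encode e → (Θ.F1.eF (G.s e)).U j = 0 := by
      intro j hj
      show extN _ _ = _
      rcases extN_cases (α := G.E) (B := D) j with ⟨a, rfl⟩ | h
      · rw [extN_encode]
        split_ifs with hv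
        · exact S_zero Θ.F1 h1 hv (fun h => hj (by rw [h]))
        · rfl
      · exact h _
    have hE : (Θ.F1.eF (G.s e)).E (Encodable.encode e) = 0 := by
      unfold Frame.E
      apply Finset.sum_eq_zero
      intro i hi
      rw [Finset.mem_range] at hi
      rw [hU i (by omega), zero_mul]
    have hR : (Θ.F1.eF (G.s e)).R (Encodable.encode e) = 0 := by
      unfold Frame.R
      rw [hE, rp_zero]
    rw [Frame.GU_one, hR, zero_mul, sub_zero, Θ.F1.eF_U]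
  -- step 3
  have hcor := (Θ.F1.F2 Θ.F1_sa).corner (Θ.F1.F2_P_sa Θ.F1_sa) (Θ.F1.F2_sa Θ.F1_sa) e
  have hs : Θ.str.s e = (Θ.F1.F2 Θ.F1_sa).S e * ksq ((Θ.F1.F2 Θ.F1_sa).T e) := rfl
  have hpk : Θ.str.p (G.r e) * ksq ((Θ.F1.F2 Θ.F1_sa).T e) = ksq ((Θ.F1.F2 Θ.F1_sa).T e) := hcor.qk
  have hkp : ksq ((Θ.F1.F2 Θ.F1_sa).T e) * Θ.str.p (G.r e) = ksq ((Θ.F1.F2 Θ.F1_sa).T e) := hcor.kq
  obtain ⟨c₀, hc₀⟩ := ksq_form ((Θ.F1.F2 Θ.F1_sa).T e)
  have hcc : ksq (star c₀) * ksq (star c₀) = ksq ((Θ.F1.F2 Θ.F1_sa).T e) := by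
    rw [ksq_sq, star_star, hc₀]
  have hsc : star (ksq (star c₀)) = ksq (star c₀) := ksq_star _
  have hps : star (Θ.str.p (G.r e)) = Θ.str.p (G.r e) := Θ.str.p_star _
  have hpc : Θ.str.p (G.r e) * ksq (star c₀) = ksq (star c₀) := by
    have h3 : (Θ.str.p (G.r e) * ksq (star c₀) - ksq (star c₀)) *
        star (Θ.str.p (G.r e) * ksq (star c₀) - ksq (star c₀)) = 0 := by
      rw [star_sub, star_mul, hsc, hps]
      have h4 : (Θ.str.p (G.r e) * ksq (star c₀) - ksq (star c₀)) *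
          (ksq (star c₀) * Θ.str.p (G.r e) - ksq (star c₀)) =
          Θ.str.p (G.r e) * (ksq (star c₀) * ksq (star c₀)) * Θ.str.p (G.r e)
          - Θ.str.p (G.r e) * (ksq (star c₀) * ksq (star c₀))
          - (ksq (star c₀) * ksq (star c₀)) * Θ.str.p (G.r e) + ksq (star c₀) * ksq (star c₀) := by
        noncomm_ring
      rw [h4, hcc, hpk, hkp]
      abel
    rw [CStarRing.mul_star_self_eq_zero_iff] at h3
    exact sub_eq_zero.1 h3
  refine ⟨ksq (star c₀), hsc, hpc, ?_, ?_⟩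
  · have h5 := congrArg star hpc
    rwa [star_mul, hsc, hps] at h5
  · rw [hcc, hs, h2, hSd]

end Pool.Agent.RGD
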